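import Pool.Agent.ML45.Crd

/-!
# Closure points (module CLO)
-/

namespace Pool.Agent.ML45

open Set Cardinal

/-- the index set of the iteration, a well-order of type `(2 ^ ℵ₀)⁺` -/
abbrev IM : Type := (Order.succ 𝔠).ord.ToType

theorem mk_IM : #IM = Order.succ 𝔠 := mk_ord_toType _

theorem mk_Iio_IM (α : IM) : #(Iio α) ≤ 𝔠 := by
  -- as `mk_Iio_IX` in `Pool/Agent/MAx/Book.lean`
  have h : #(Iio α) < #IM := mk_Iio_lt α (by simp)
  exact Order.lt_succ_iff.1 (h.trans_eq mk_IM)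

/-- families of at most continuum many indices are bounded (as `bdd_IX` in `MAx/Book.lean`) -/
theorem bdd_IM {Λ : Type} (hΛ : #Λ ≤ 𝔠) (f : Λ → IM) : ∃ b, ∀ x, f x < b := by
  have hreg : (Order.succ 𝔠).IsRegular := isRegular_succ aleph0_le_continuum
  have hcof : Order.cof IM = Order.succ 𝔠 := (Ordinal.cof_toType _).trans hreg.cof_ord
  by_contra h
  push Not at h
  have hc : IsCofinal (Set.range f) := by
    intro i
    obtain ⟨x, hx⟩ := h i
    exact ⟨f x, ⟨x, rfl⟩, hx⟩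
  have := Order.cof_le hc
  rw [hcof] at this
  exact absurd (mk_range_le.trans hΛ) (not_le.2 ((Order.lt_succ _).trans_le this))

/-- a well-order of type `ω₁` -/
abbrev WM : Type := (ℵ_ 1 : Cardinal.{0}).ord.ToType

theorem mk_WM : #WM = ℵ_ 1 := mk_ord_toType _

theorem countable_Iic_WM (ξ : WM) : (Iic ξ).Countable := by
  have h : #(Iio ξ) < #WM := mk_Iio_lt ξ (by simp)
  have h1 : #(Iio ξ) < Order.succ ℵ₀ := h.trans_eq (mk_WM.trans succ_aleph0.symm)
  rw [← Iio_union_right]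
  exact (le_aleph0_iff_set_countable.1 (Order.lt_succ_iff.1 h1)).union (countable_singleton ξ)

/-- countable sets are bounded -/
theorem exists_gt_WM {C : Set WM} (hC : C.Countable) : ∃ ξ, ∀ η ∈ C, η < ξ := by
  have h1 : (⋃ η ∈ C, Iic η).Countable := hC.biUnion fun η _ => countable_Iic_WM η
  have h2 : (⋃ η ∈ C, Iic η) ≠ Set.univ := by
    intro h3
    rw [h3, ← le_aleph0_iff_set_countable, mk_univ, mk_WM] at h1
    exact absurd h1 (not_le.2 (by rw [← succ_aleph0]; exact Order.lt_succ _))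
  obtain ⟨ξ, hξ⟩ := (ne_univ_iff_exists_notMem _).1 h2
  refine ⟨ξ, fun η hη => ?_⟩
  by_contra h4
  exact hξ (mem_iUnion₂.2 ⟨η, hη, not_lt.1 h4⟩)

/-- closure points.  Here `Ψ p g` is an index for each pair `(p, g)`.  There is `β` above `α₀` such
that every countable subset of `Iio β` is bounded in `Iio β` and `Ψ p g < β` whenever `p` acts
below some `α < β` and `g` is continuous and depends on countably many coordinates below `α`.
By `mk_hm`, `mk_cont` and `bdd_IM` there is for each `α` an index `φ α` above all these `Ψ p g`.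
Define `u : (ℵ₁.ord.ToType) → IM` (or on any well-order of type `ω₁`) by well-founded recursion such
that `u ξ` is larger than `α₀`, than all `u η` and than all `φ (u η)`, `η < ξ` (`bdd_IM`).  Let `β` be
the least element of `IM` which is larger than all `u ξ`.  For `α < β` some
`u ξ ≥ α`, and `Ψ p g < φ (u ξ) < u (ξ + 1) < β`.  Countably many elements of `Iio β` are
`≤ u ξ` for some `ξ < ω₁`. -/
theorem exists_closure (Ψ : Hm IM → ((IM → ℕ → ℕ) → ℕ → ℕ) → IM) (α₀ : IM) :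
    ∃ β, α₀ < β ∧ (∀ C ⊆ Iio β, C.Countable → ∃ α < β, C ⊆ Iio α) ∧
      ∀ α < β, ∀ p, Act (Iio α) p → ∀ g, Cont g → (∃ C ⊆ Iio α, C.Countable ∧ DepOn C g) →
        Ψ p g < β := by
  classical
  -- the bound for the pairs below `α`
  have hφ : ∀ α : IM, ∃ b, ∀ p, Act (Iio α) p → ∀ g, Cont g →
      (∃ C ⊆ Iio α, C.Countable ∧ DepOn C g) → Ψ p g < b := by
    intro α
    have h1 : #({p : Hm IM // Act (Iio α) p} ×
        {g : (IM → ℕ → ℕ) → ℕ → ℕ // Cont g ∧ ∃ C ⊆ Iio α, C.Countable ∧ DepOn C g}) ≤ 𝔠 := by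
      rw [mk_prod, Cardinal.lift_id, Cardinal.lift_id]
      exact (mul_le_mul' (mk_hm (mk_Iio_IM α)) (mk_cont (mk_Iio_IM α))).trans
        (mul_eq_self aleph0_le_continuum).le
    obtain ⟨b, hb⟩ := bdd_IM h1 fun x => Ψ x.1.1 x.2.1
    exact ⟨b, fun p hp g hg hg' => hb (⟨p, hp⟩, ⟨g, hg, hg'⟩)⟩
  choose φ hφ using hφ
  -- one step
  have hstep : ∀ (ξ : WM) (v : ∀ η, η < ξ → IM), ∃ b, α₀ < b ∧
      ∀ η (h : η < ξ), v η h < b ∧ φ (v η h) < b := by
    intro ξ v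
    have h1 : #(Option ({η : WM // η < ξ} ⊕ {η : WM // η < ξ})) ≤ 𝔠 := by
      have h2 : (Iio ξ).Countable := (countable_Iic_WM ξ).mono Iio_subset_Iic_self
      have h3 : Countable {η : WM // η < ξ} := h2.to_subtype
      exact mk_le_aleph0.trans aleph0_le_continuum
    obtain ⟨b, hb⟩ := bdd_IM h1 fun x => match x with
      | none => α₀
      | some (Sum.inl η) => v η.1 η.2
      | some (Sum.inr η) => φ (v η.1 η.2)
    exact ⟨b, hb none, fun η h => ⟨hb (some (Sum.inl ⟨η, h⟩)), hb (some (Sum.inr ⟨η, h⟩))⟩⟩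
  choose stp hstp1 hstp2 using hstep
  let u : WM → IM := (wellFounded_lt (α := WM)).fix fun ξ v => stp ξ v
  have hu : ∀ ξ, u ξ = stp ξ fun η _ => u η := fun ξ => WellFounded.fix_eq _ _ _
  have hu0 : ∀ ξ, α₀ < u ξ := fun ξ => by
    rw [hu]
    exact hstp1 _ _
  have hu1 : ∀ ξ η, η < ξ → u η < u ξ ∧ φ (u η) < u ξ := by
    intro ξ η h
    rw [hu ξ]
    exact hstp2 ξ (fun η _ => u η) η h
  -- the supremum
  have hne : ∃ b, ∀ ξ, u ξ < b := bdd_IM (mk_WM.le.trans aleph_one_le_continuum) u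
  obtain ⟨β, hβ1, hβ2⟩ := (wellFounded_lt (α := IM)).has_min {b | ∀ ξ, u ξ < b} hne
  have hcof : ∀ α < β, ∃ ξ, α ≤ u ξ := by
    intro α hα
    by_contra h
    push Not at h
    exact hβ2 α h hα
  refine ⟨β, ?_, ?_, ?_⟩
  · obtain ⟨ξ, _⟩ := exists_gt_WM (countable_empty (α := WM))
    exact (hu0 ξ).trans (hβ1 ξ)
  · intro C hC hCc
    have h1 : ∀ γ : IM, ∃ ξ, γ ∈ C → γ ≤ u ξ := by
      intro γ
      by_cases hγ : γ ∈ C
      · obtain ⟨ξ, hξ⟩ := hcof γ (hC hγ)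
        exact ⟨ξ, fun _ => hξ⟩
      · obtain ⟨ξ, _⟩ := exists_gt_WM (countable_empty (α := WM))
        exact ⟨ξ, fun h => absurd h hγ⟩
    choose r hr using h1
    obtain ⟨ξ, hξ⟩ := exists_gt_WM (hCc.image r)
    refine ⟨u ξ, hβ1 ξ, fun γ hγ => ?_⟩
    exact (hr γ hγ).trans_lt (hu1 ξ (r γ) (hξ _ ⟨γ, hγ, rfl⟩)).1
  · rintro α hα p hp g hg ⟨C, hC1, hC2, hC3⟩
    obtain ⟨ξ, hξ⟩ := hcof α hα
    obtain ⟨ξ', hξ'⟩ := exists_gt_WM (countable_singleton ξ)
    have h1 := hφ (u ξ) p (hp.mono (Iio_subset_Iio hξ)) g hg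
      ⟨C, hC1.trans (Iio_subset_Iio hξ), hC2, hC3⟩
    exact (h1.trans (hu1 ξ' ξ (hξ' ξ rfl)).2).trans (hβ1 ξ')

end Pool.Agent.ML45
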