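import Pool.Agent.ML45.PDef
import Pool.Agent.MAx.Book

/-!
# Counting continuous functions (module CRD)
-/

namespace Pool.Agent.ML45

open Set Cardinal
open Pool.Agent.SP45 (pre cyl pre_succ pre_zero length_pre pre_eq_iff mem_cyl mem_cyl_pre self_mem
  cyl_nil mem_cyl_cons cyl_nonempty cyl_anti)

variable {I : Type} [LinearOrder I]

/-- locally constant functions which depend on countably many coordinates below `α` -/
def CF (α : I) (X : Type) : Type :=
  {f : (I → ℕ → ℕ) → X // Lc f ∧ ∃ C ⊆ Iio α, C.Countable ∧ DepOn C f}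

/-- an enumeration of a countable set of coordinates below `α` -/
theorem helper23_exists_enum {α : I} {C : Set I} (hC : C.Countable) (hα : C ⊆ Iio α) :
    ∃ c : ℕ → Option (Iio α), ∀ γ (h : γ ∈ C), ∃ j, c j = some ⟨γ, hα h⟩ := by
  classical
  rcases C.eq_empty_or_nonempty with rfl | hne
  · exact ⟨fun _ => none, fun γ h => absurd h (notMem_empty γ)⟩
  · obtain ⟨f, hf⟩ := hC.exists_eq_range hne
    have h1 : ∀ n, f n ∈ C := fun n => by rw [hf]; exact mem_range_self n
    refine ⟨fun n => some ⟨f n, hα (h1 n)⟩, fun γ h => ?_⟩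
    have h2 : γ ∈ range f := by rw [← hf]; exact h
    obtain ⟨j, rfl⟩ := h2
    exact ⟨j, rfl⟩

omit [LinearOrder I] in
/-- the type of countable enumerations has size at most continuum -/
theorem helper23_mk_seq {Y : Type} (h : #Y ≤ 𝔠) : #(ℕ → Y) ≤ 𝔠 := by
  have h1 : #(ℕ → Y) = #Y ^ ℵ₀ := by
    rw [← mk_nat]
    exact (Cardinal.power_def Y ℕ).symm
  rw [h1]
  calc #Y ^ ℵ₀ ≤ 𝔠 ^ ℵ₀ := Cardinal.power_le_power_right h
    _ = 𝔠 := continuum_power_aleph0

omit [LinearOrder I] in
theorem helper23_mk_option {Y : Type} (h : #Y ≤ 𝔠) : #(Option Y) ≤ 𝔠 := by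
  rw [mk_option]
  calc #Y + 1 ≤ 𝔠 + 𝔠 := add_le_add h (one_le_aleph0.trans aleph0_le_continuum)
    _ = 𝔠 := continuum_add_self

omit [LinearOrder I] in
theorem helper23_mk_set (Y : Type) [Countable Y] : #(Set Y) ≤ 𝔠 := by
  rw [mk_set, ← two_power_aleph0]
  exact Cardinal.power_le_power_left two_ne_zero mk_le_aleph0

omit [LinearOrder I] in
theorem helper23_mk_prod {Y Z : Type} (h : #Y ≤ 𝔠) (h' : #Z ≤ 𝔠) : #(Y × Z) ≤ 𝔠 := by
  rw [mk_prod, Cardinal.lift_id, Cardinal.lift_id]
  calc #Y * #Z ≤ 𝔠 * 𝔠 := mul_le_mul' h h'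
    _ = 𝔠 := continuum_mul_self

/-- the second part of the code of a continuous function -/
def helper23_code {α : I} {X : Type} (c : ℕ → Option (Iio α)) (f : (I → ℕ → ℕ) → X) :
    Set (List (ℕ × List ℕ) × X) :=
  {lx | ∀ z : I → ℕ → ℕ, (∀ js ∈ lx.1, ∀ γ, c js.1 = some γ → z γ.1 ∈ cyl js.2) → f z = lx.2}

theorem helper23_code_inj {α : I} {X : Type} {c : ℕ → Option (Iio α)} {C : Set I} (hα : C ⊆ Iio α)
    (hc : ∀ γ (h : γ ∈ C), ∃ j, c j = some ⟨γ, hα h⟩) {f f' : (I → ℕ → ℕ) → X} (hf : Lc f)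
    (hC : DepOn C f) (h : helper23_code c f = helper23_code c f') : f = f' := by
  classical
  funext z
  obtain ⟨T, n, hT⟩ := hf z
  have h1 : ∀ γ : I, ∃ j, γ ∈ C → ∃ h : γ ∈ C, c j = some ⟨γ, hα h⟩ := by
    intro γ
    by_cases hγ : γ ∈ C
    · obtain ⟨j, hj⟩ := hc γ hγ
      exact ⟨j, fun _ => ⟨hγ, hj⟩⟩
    · exact ⟨0, fun h => absurd h hγ⟩
  choose j hj using h1
  let l : List (ℕ × List ℕ) := (T.filter (· ∈ C)).toList.map fun γ => (j γ, pre (z γ) n)
  have h2 : (l, f z) ∈ helper23_code c f := by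
    intro z' hz'
    let z'' : I → ℕ → ℕ := fun δ => if δ ∈ C then z' δ else z δ
    have e : f z' = f z'' := hC z' z'' fun δ hδ => (if_pos hδ).symm
    rw [e]
    refine hT z'' fun δ hδ => ?_
    by_cases h4 : δ ∈ C
    · rw [show z'' δ = z' δ from if_pos h4]
      obtain ⟨h5, h6⟩ := hj δ h4
      have h7 := hz' (j δ, pre (z δ) n)
        (List.mem_map.2 ⟨δ, Finset.mem_toList.2 (Finset.mem_filter.2 ⟨hδ, h4⟩), rfl⟩) _ h6
      have h8 := mem_cyl.1 h7
      rwa [length_pre] at h8
    · rw [show z'' δ = z δ from if_neg h4]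
  rw [h] at h2
  have h3 := h2 z fun js hjs γ hγ => by
    obtain ⟨δ, hδ, rfl⟩ := List.mem_map.1 hjs
    have h5 := (Finset.mem_filter.1 (Finset.mem_toList.1 hδ)).2
    obtain ⟨h6, h7⟩ := hj δ h5
    rw [h7, Option.some.injEq] at hγ
    rw [← hγ]
    exact self_mem _ _
  exact h3.symm

/-- there are at most continuum many.
Code `f` by an enumeration `c : ℕ → Option (Iio α)` of `C` (an `Option`-valued function, whose
range contains exactly `some γ`, `γ ∈ C`) and the set of all
`(l, x) : List (ℕ × List ℕ) × X` such that `f z = x` for all `z` with `z γ ∈ cyl s` whenever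
`(j, s) ∈ l` and `c j = some γ`.  The code determines `f`: for every `z` there is a finite set `T`
and `n` such that `f z' = f z` if `z'` agrees with `z` on `T` up to `n`; changing `z'`
outside `C` does not change `f z'`, so that it suffices to require agreement at the
coordinates in `T ∩ C`, which gives a list `l` with `(l, f z)` in the code; if `f'` has the same
code then `f' z = f z`.  Count: `#(ℕ → Option (Iio α)) ≤ 𝔠 ^ ℵ₀ = 𝔠` and the power set of a
countable type. -/
theorem mk_CF {α : I} (hα : #(Iio α) ≤ 𝔠) {X : Type} [Countable X] : #(CF α X) ≤ 𝔠 := by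
  classical
  have h1 : ∀ f : CF α X, ∃ (C : Set I) (hC : C ⊆ Iio α) (c : ℕ → Option (Iio α)),
      DepOn C f.1 ∧ ∀ γ (h : γ ∈ C), ∃ j, c j = some ⟨γ, hC h⟩ := by
    intro f
    obtain ⟨C, hC, h2, h3⟩ := f.2.2
    obtain ⟨c, hc⟩ := helper23_exists_enum h2 hC
    exact ⟨C, hC, c, h3, hc⟩
  choose C hC c h2 h3 using h1
  have hinj : Function.Injective
      (fun f : CF α X => (c f, helper23_code (c f) f.1) : CF α X →
        (ℕ → Option (Iio α)) × Set (List (ℕ × List ℕ) × X)) := by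
    intro f f' h
    have h4 : c f = c f' := (Prod.ext_iff.1 h).1
    have h5 : helper23_code (c f) f.1 = helper23_code (c f') f'.1 := (Prod.ext_iff.1 h).2
    rw [← h4] at h5
    exact Subtype.ext (helper23_code_inj (hC f) (h3 f) f.2.1 (h2 f) h5)
  exact (mk_le_of_injective hinj).trans
    (helper23_mk_prod (helper23_mk_seq (helper23_mk_option hα)) (helper23_mk_set _))

/-- sequences of continuous functions -/
theorem mk_cont {α : I} (hα : #(Iio α) ≤ 𝔠) {X : Type} [Countable X] :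
    #{g : (I → ℕ → ℕ) → ℕ → X // Cont g ∧ ∃ C ⊆ Iio α, C.Countable ∧ DepOn C g} ≤ 𝔠 := by
  -- `g ↦ fun n => (fun z => g z n)` is an injection into `ℕ → CF α X`
  have hinj : Function.Injective
      (fun g : {g : (I → ℕ → ℕ) → ℕ → X // Cont g ∧ ∃ C ⊆ Iio α, C.Countable ∧ DepOn C g} =>
        (fun n => ⟨fun z => g.1 z n, g.2.1 n, by
          obtain ⟨C, h1, h2, h3⟩ := g.2.2
          exact ⟨C, h1, h2, fun z z' h => congrFun (h3 z z' h) n⟩⟩ : ℕ → CF α X)) := by
    intro g g' h
    refine Subtype.ext (funext fun z => funext fun n => ?_)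
    have h1 := congrArg Subtype.val (congrFun h n)
    exact congrFun h1 z
  exact (mk_le_of_injective hinj).trans (helper23_mk_seq (mk_CF hα))

/-- elements of the monoid.
Code `p` by an enumeration `c : ℕ → Option (Iio α)` of a countable set `C ⊆ Iio α` as in `p.supp`
(intersect it with `Iio α`: if `Act (Iio α) p` then `p.a γ z` for `γ < α` depends on the
coordinates in `C` below `γ` by `low`, and is `id` for `γ ∉ C ∩ Iio α`), and the family of the
functions `z ↦ p.a (c j) z s` in `CF α (List ℕ)`, for `j : ℕ`, `s : List ℕ` (and a constant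
function if `c j = none`). -/
theorem mk_hm {α : I} (hα : #(Iio α) ≤ 𝔠) : #{p : Hm I // Act (Iio α) p} ≤ 𝔠 := by
  classical
  have h1 : ∀ p : {p : Hm I // Act (Iio α) p}, ∃ (C : Set I) (hC : C ⊆ Iio α)
      (c : ℕ → Option (Iio α)), C.Countable ∧ (∀ γ ∉ C, ∀ z, p.1.a γ z = id) ∧
      (∀ γ < α, ∀ z z', (∀ δ ∈ C, z δ = z' δ) → p.1.a γ z = p.1.a γ z') ∧
      ∀ γ (h : γ ∈ C), ∃ j, c j = some ⟨γ, hC h⟩ := by
    intro p
    obtain ⟨C, hC, h2, h3⟩ := p.1.supp
    have h4 : C ∩ Iio α ⊆ Iio α := inter_subset_right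
    obtain ⟨c, hc⟩ := helper23_exists_enum (hC.mono inter_subset_left) h4
    refine ⟨C ∩ Iio α, h4, c, hC.mono inter_subset_left, fun γ hγ z => ?_,
      fun γ hγ z z' h => ?_, hc⟩
    · by_cases h5 : γ ∈ C
      · exact p.2 γ (fun h6 => hγ ⟨h5, h6⟩) z
      · exact h2 γ h5 z
    · let z'' : I → ℕ → ℕ := fun δ => if δ < γ then z δ else z' δ
      have e1 : p.1.a γ z = p.1.a γ z'' := p.1.low γ z z'' fun δ hδ => (if_pos hδ).symm
      have e2 : p.1.a γ z'' = p.1.a γ z' := h3 γ z'' z' fun δ hδ => by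
        by_cases h6 : δ < γ
        · rw [show z'' δ = z δ from if_pos h6]
          exact h δ ⟨hδ, h6.trans hγ⟩
        · exact if_neg h6
      rw [e1, e2]
  choose C hC c hCc h2 h3 h4 using h1
  let F : ∀ p : {p : Hm I // Act (Iio α) p}, Option (Iio α) → List ℕ → CF α (List ℕ) :=
    fun p o s => match o with
    | none => ⟨fun _ => [], fun z => ⟨∅, 0, fun _ _ => rfl⟩,
        ⟨∅, empty_subset _, countable_empty, fun _ _ _ => rfl⟩⟩
    | some γ => ⟨fun z => p.1.a γ.1 z s, p.1.lc γ.1 s,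
        ⟨C p, hC p, hCc p, fun z z' h => congrFun (h3 p γ.1 γ.2 z z' h) s⟩⟩
  have hF : ∀ (p : {p : Hm I // Act (Iio α) p}) (γ : Iio α) (s : List ℕ) (z : I → ℕ → ℕ),
      (F p (some γ) s).1 z = p.1.a γ.1 z s := fun _ _ _ _ => rfl
  have hinj : Function.Injective
      (fun p : {p : Hm I // Act (Iio α) p} => (c p, fun j => fun m : ℕ =>
        F p (c p j) ((Encodable.decode (α := List ℕ) m).getD [])) :
        {p : Hm I // Act (Iio α) p} →
        (ℕ → Option (Iio α)) × (ℕ → ℕ → CF α (List ℕ))) := by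
    intro p p' h
    have h5 : c p = c p' := (Prod.ext_iff.1 h).1
    have h6 : ∀ j s, F p (c p j) s = F p' (c p' j) s := by
      intro j s
      have h7 := congrFun (congrFun (Prod.ext_iff.1 h).2 j) (Encodable.encode s)
      simpa using h7
    refine Subtype.ext (Hm.ext' fun γ z s => ?_)
    by_cases h7 : γ ∈ C p
    · obtain ⟨j, hj⟩ := h4 p γ h7
      have h8 := h6 j s
      rw [← h5, hj] at h8
      have h9 := congrFun (congrArg Subtype.val h8) z
      rwa [hF, hF] at h9
    · by_cases h8 : γ ∈ C p'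
      · obtain ⟨j, hj⟩ := h4 p' γ h8
        have h8 := h6 j s
        rw [h5, hj] at h8
        have h9 := congrFun (congrArg Subtype.val h8) z
        rwa [hF, hF] at h9
      · rw [h2 p γ h7, h2 p' γ h8]
  exact (mk_le_of_injective hinj).trans
    (helper23_mk_prod (helper23_mk_seq (helper23_mk_option hα))
      (helper23_mk_seq (helper23_mk_seq (mk_CF hα))))

end Pool.Agent.ML45
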