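import Pool.Agent.ML45.Clock

/-!
# Capturing, the combinatorial part (module CAP)
-/

namespace Pool.Agent.ML45

open Set
open Pool.Agent.SP45 (pre cyl pre_succ pre_zero length_pre pre_eq_iff mem_cyl mem_cyl_pre self_mem
  cyl_nil mem_cyl_cons cyl_nonempty cyl_anti)

/-- the sum of the numbers `k + 1` for the entries `k` of a node -/
def sig (s : List ℕ) : ℕ := (s.map (· + 1)).sum

/-- the set of the partial sums of the numbers `m i + 1` -/
def PS (m : ℕ → ℕ) : Set ℕ := {a | ∃ i, a = sig (pre m (i + 1))}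

/-- the digits: `e (code u + 1)`, `e (… + 1)`, …, increasing and larger than `code u` -/
def dg (e : ℕ → ℕ) (u : List ℕ) : ℕ → ℕ
  | 0 => e (code u + 1)
  | k + 1 => e (dg e u k + 1)

/-- the embedding which chooses children with digits in the range of `e` only -/
def ce (e : ℕ → ℕ) : List ℕ → List ℕ
  | [] => []
  | k :: s => dg e (ce e s) k :: ce e s

theorem isEmb_ce {e : ℕ → ℕ} (he : ∀ k, k ≤ e k) : IsEmb (ce e) := by
  -- `d k = dg e (ce e s) k`, which is strictly increasing
  intro s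
  refine ⟨dg e (ce e s), strictMono_nat_of_lt_succ fun k => ?_, fun k => List.suffix_refl _⟩
  exact lt_of_lt_of_le (Nat.lt_succ_self _) (he _)

theorem Cap_dg {e : ℕ → ℕ} (he : ∀ k, k ≤ e k) (u : List ℕ) (k : ℕ) :
    (∃ c, dg e u k = e c) ∧ code u < dg e u k := by
  induction k with
  | zero => exact ⟨⟨_, rfl⟩, lt_of_lt_of_le (Nat.lt_succ_self _) (he _)⟩
  | succ k ih =>
    exact ⟨⟨_, rfl⟩, lt_trans ih.2 (lt_of_lt_of_le (Nat.lt_succ_self _) (he _))⟩

theorem Cap_length_ce (e : ℕ → ℕ) (s : List ℕ) : (ce e s).length = s.length := by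
  induction s with
  | nil => rfl
  | cons k s ih =>
    show (dg e (ce e s) k :: ce e s).length = (k :: s).length
    rw [List.length_cons, List.length_cons, ih]

theorem Cap_lift {e : ℕ → ℕ} (he : ∀ k, k ≤ e k) (x : ℕ → ℕ) (n : ℕ) :
    pre (lift (ce e) x) n = ce e (pre x n) ∧
      lift (ce e) x n = dg e (pre (lift (ce e) x) n) (x n) := by
  have h1 : ∀ n, pre (lift (ce e) x) n = ce e (pre x n) := by
    intro n
    have h := lift_mem (isEmb_ce he) x n
    rw [mem_cyl, Cap_length_ce, length_pre] at h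
    exact h
  refine ⟨h1 n, ?_⟩
  have h2 := h1 (n + 1)
  rw [pre_succ, pre_succ] at h2
  have h3 : lift (ce e) x n :: pre (lift (ce e) x) n =
      dg e (ce e (pre x n)) (x n) :: ce e (pre x n) := h2
  rw [List.cons.injEq] at h3
  rw [h1 n]
  exact h3.1

theorem Cap_sig_cons (k : ℕ) (s : List ℕ) : sig (k :: s) = k + 1 + sig s := by
  unfold sig
  rw [List.map_cons, List.sum_cons]

theorem Cap_sig_mono (m : ℕ → ℕ) {i j : ℕ} (h : i ≤ j) : sig (pre m i) ≤ sig (pre m j) := by
  induction j with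
  | zero => rw [Nat.le_zero.1 h]
  | succ j ih =>
    rcases Nat.le_succ_iff.1 h with h | h
    · refine (ih h).trans ?_
      rw [pre_succ, Cap_sig_cons]
      omega
    · rw [h]

/-- Let `t` be an embedding (the tree of the generic branch), `B` infinite, `G n` at least as
large as some `b ∈ B` with `sig (t (n :: u)) ≤ b`, for all `u` with `code u < n`, and let `h` be
`false` on the intervals `[e k, G (e k)]`.  For a branch `x` let `x' = lift (ce e) x` and
`m = lift t x'`.  Then for each `j ≥ x' 0` with `h j = true` there is `b ∈ B`, `b ≤ j`, such that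
no partial sum `a` of `m` has `b < a ≤ j`.
Proof.  Let `n i = x' i` and `u i = pre x' i`, so that `u (i + 1) = n i :: u i`; `n i` is a value
of `e` and `code (u i) < n i`; the `n i` increase (`n i ≤ code (u (i + 1)) < n (i + 1)`:
`code (k :: s) = pair k (code s) + 1 > k`).  Let
`i` be maximal with `n i ≤ j`.  Since `h j = true`, `j > G (n i)`; there is `b ∈ B` with
`sig (t (u (i + 1))) ≤ b ≤ G (n i) < j`.  Also `j < n (i + 1)`.  The branch `m` passes through
`t (u (i + 2))`, which is above `d :: t (u (i + 1))` for some `d ≥ n (i + 1)` (a strictly increasing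
function of the digit), so that the partial sum after `sig (t (u (i + 1)))` is
`sig (t (u (i + 1))) + d + 1 > j`; the partial sums are strictly increasing: those of index
`≤ (t (u (i + 1))).length` are `≤ sig (t (u (i + 1))) ≤ b`, and the others are `> j`. -/
theorem capture_branch {t : List ℕ → List ℕ} (ht : IsEmb t) {B : Set ℕ} {G : ℕ → ℕ}
    (hG : ∀ n u, code u < n → ∃ b ∈ B, sig (t (n :: u)) ≤ b ∧ b ≤ G n) {e : ℕ → ℕ}
    (he : ∀ k, k ≤ e k) {h : ℕ → Bool} (hh : ∀ k m, e k ≤ m → m ≤ G (e k) → h m = false)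
    (x : ℕ → ℕ) {j : ℕ} (hj : lift (ce e) x 0 ≤ j) (hj' : h j = true) :
    ∃ b ∈ B, b ≤ j ∧ ∀ a ∈ PS (lift t (lift (ce e) x)), ¬ (b < a ∧ a ≤ j) := by
  have hx' := fun n => (Cap_lift he x n).2
  obtain ⟨x', hx'd⟩ : ∃ x', x' = lift (ce e) x := ⟨_, rfl⟩
  rw [← hx'd] at hj hx' ⊢
  have hval : ∀ i, (∃ c, x' i = e c) ∧ code (pre x' i) < x' i := by
    intro i
    rw [hx' i]
    exact Cap_dg he _ _
  have hlt : ∀ i, x' i < x' (i + 1) := by
    intro i
    have h1 := (hval (i + 1)).2
    rw [pre_succ, code_cons] at h1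
    have h2 := Nat.left_le_pair (x' i) (code (pre x' i))
    omega
  have hmono : StrictMono x' := strictMono_nat_of_lt_succ hlt
  -- the last index `i` with `x' i ≤ j`
  obtain ⟨i, hi1, hi2⟩ : ∃ i, x' i ≤ j ∧ j < x' (i + 1) := by
    classical
    have hex : ∃ i, j < x' i := ⟨j + 1, lt_of_lt_of_le (Nat.lt_succ_self j) (hmono.le_apply)⟩
    have h1 := Nat.find_spec hex
    have h0 : Nat.find hex ≠ 0 := by
      intro h0
      rw [h0] at h1
      omega
    obtain ⟨i, hi⟩ := Nat.exists_eq_succ_of_ne_zero h0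
    refine ⟨i, ?_, ?_⟩
    · have := Nat.find_min hex (m := i) (by omega)
      omega
    · rw [hi] at h1
      exact h1
  obtain ⟨⟨k, hk⟩, hcode⟩ := hval i
  have hGj : G (x' i) < j := by
    by_contra hcon
    push Not at hcon
    rw [hk] at hi1 hcon
    rw [hh k j hi1 hcon] at hj'
    exact absurd hj' (by decide)
  obtain ⟨b, hb, hb1, hb2⟩ := hG (x' i) (pre x' i) hcode
  refine ⟨b, hb, by omega, ?_⟩
  rintro a ⟨p, rfl⟩ ⟨ha1, ha2⟩
  have hm1 : lift t x' ∈ cyl (t (pre x' (i + 1))) := lift_mem ht x' (i + 1)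
  have hm2 : lift t x' ∈ cyl (t (pre x' (i + 1 + 1))) := lift_mem ht x' (i + 1 + 1)
  rw [← pre_succ] at hb1
  rw [pre_succ x' (i + 1)] at hm2
  obtain ⟨d, hd, hd'⟩ := ht (pre x' (i + 1))
  have hm3 := mem_cyl_cons.1 (mem_cyl_of_suffix (hd' (x' (i + 1))) hm2)
  have hT : pre (lift t x') (t (pre x' (i + 1))).length = t (pre x' (i + 1)) := hm1
  rcases Nat.lt_or_ge (t (pre x' (i + 1))).length (p + 1) with hp | hp
  · have h1 := Cap_sig_mono (lift t x') (i := (t (pre x' (i + 1))).length + 1) (j := p + 1) hp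
    rw [pre_succ, Cap_sig_cons, hm3.1] at h1
    have h2 : x' (i + 1) ≤ d (x' (i + 1)) := hd.le_apply
    omega
  · have h1 := Cap_sig_mono (lift t x') hp
    rw [hT] at h1
    omega

end Pool.Agent.ML45
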