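import Pool.Agent.ML45.PTop

/-!
# The parts of an element below and above a coordinate (module CUT)
-/

namespace Pool.Agent.ML45

open Set
open Pool.Agent.SP45 (pre cyl pre_succ pre_zero length_pre pre_eq_iff mem_cyl mem_cyl_pre self_mem
  cyl_nil mem_cyl_cons cyl_nonempty cyl_anti)

variable {I : Type*} [LinearOrder I]

open Classical in
/-- the part of `p` below `β` -/
noncomputable def lowP (β : I) (p : Hm I) : Hm I where
  a := fun γ z => if γ < β then p.a γ z else id
  emb := fun γ z => by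
    split_ifs
    · exact p.emb γ z
    · exact IsEmb.id
  low := fun γ z z' h => by rw [p.low γ z z' h]
  lc := fun γ s z => by
    obtain ⟨T, n, h⟩ := p.lc γ s z
    refine ⟨T, n, fun z' hz' => ?_⟩
    have := h z' hz'
    beta_reduce at this ⊢
    split_ifs
    · exact this
    · rfl
  supp := by
    obtain ⟨C, hC, h1, h2⟩ := p.supp
    refine ⟨C, hC, fun γ hγ z => ?_, fun γ z z' hz => by rw [h2 γ z z' hz]⟩
    rw [h1 γ hγ z, ite_self]

open Classical in
/-- the part of `p` from `β` on -/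
noncomputable def highP (β : I) (p : Hm I) : Hm I where
  a := fun γ z => if γ < β then id else p.a γ z
  emb := fun γ z => by
    split_ifs
    · exact IsEmb.id
    · exact p.emb γ z
  low := fun γ z z' h => by rw [p.low γ z z' h]
  lc := fun γ s z => by
    obtain ⟨T, n, h⟩ := p.lc γ s z
    refine ⟨T, n, fun z' hz' => ?_⟩
    have := h z' hz'
    beta_reduce at this ⊢
    split_ifs
    · rfl
    · exact this
  supp := by
    obtain ⟨C, hC, h1, h2⟩ := p.supp
    refine ⟨C, hC, fun γ hγ z => ?_, fun γ z z' hz => by rw [h2 γ z z' hz]⟩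
    rw [h1 γ hγ z, ite_self]

theorem lowP_a {β γ : I} (h : γ < β) (p : Hm I) (z : I → ℕ → ℕ) : (lowP β p).a γ z = p.a γ z :=
  if_pos h

theorem lowP_a' {β γ : I} (h : β ≤ γ) (p : Hm I) (z : I → ℕ → ℕ) : (lowP β p).a γ z = id :=
  if_neg (not_lt.2 h)

theorem highP_a {β γ : I} (h : γ < β) (p : Hm I) (z : I → ℕ → ℕ) : (highP β p).a γ z = id :=
  if_pos h

theorem highP_a' {β γ : I} (h : β ≤ γ) (p : Hm I) (z : I → ℕ → ℕ) :
    (highP β p).a γ z = p.a γ z := if_neg (not_lt.2 h)

theorem act_lowP (β : I) (p : Hm I) : Act (Iio β) (lowP β p) := fun _ hγ z =>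
  lowP_a' (not_lt.1 hγ) p z

theorem act_highP (β : I) (p : Hm I) : Act (Ici β) (highP β p) := fun _ hγ z =>
  highP_a (not_le.1 hγ) p z

/-- the decomposition: `highP β p` does not change the coordinates below `β` -/
theorem low_mul_high (β : I) (p : Hm I) : lowP β p * highP β p = p := by
  refine Hm.ext' fun γ z s => ?_
  rw [Hm.mul_a]
  rcases lt_or_ge γ β with h | h
  · rw [lowP_a h, highP_a h, p.low γ (highP β p z) z fun δ hδ =>
      (act_highP β p).map (not_le.2 (hδ.trans h)) z]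
    rfl
  · rw [lowP_a' h, highP_a' h]
    rfl

theorem lowP_mul (β : I) {p L : Hm I} (hL : Act (Iio β) L) : lowP β (p * L) = lowP β p * L := by
  refine Hm.ext' fun γ z s => ?_
  rw [Hm.mul_a]
  rcases lt_or_ge γ β with h | h
  · rw [lowP_a h, lowP_a h]
    rfl
  · rw [lowP_a' h, lowP_a' h, hL γ (not_lt.2 h)]
    rfl

/-- extensions of `q` which acts below `β` -/
theorem lowP_of_mul (β : I) {q L : Hm I} (hq : Act (Iio β) q) :
    lowP β (q * L) = q * lowP β L := by
  refine Hm.ext' fun γ z s => ?_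
  rw [Hm.mul_a]
  rcases lt_or_ge γ β with h | h
  · rw [lowP_a h, lowP_a h, Hm.mul_a, q.low γ (L z) (lowP β L z) fun δ hδ => ?_]
    rw [Hm.map_apply, Hm.map_apply, lowP_a (hδ.trans h)]
  · rw [lowP_a' h, lowP_a' h, hq γ (not_lt.2 h)]
    rfl

/-- an element which acts at the coordinate `β` only (`exists_top` for `H = 1`) -/
theorem exists_at {β : I} {c : (I → ℕ → ℕ) → List ℕ → List ℕ}
    (hemb : ∀ y, IsEmb (c y)) (hlow : DepOn (Iio β) c) (hlc : ∀ s, Lc fun y => c y s)
    {C : Set I} (hC : C.Countable) (hC' : DepOn C c) :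
    ∃ G : Hm I, (∀ δ ≠ β, ∀ z, G.a δ z = id) ∧ ∀ z, G.a β z = c z := by
  obtain ⟨G, h1, h2, h3⟩ := exists_top (H := 1) (Act.one _) hemb hlow hlc hC hC'
  refine ⟨G, fun δ hδ z => ?_, h3⟩
  rcases lt_or_gt_of_ne hδ with h | h
  · exact h2 δ h z
  · exact h1 δ (not_le.2 h) z

end Pool.Agent.ML45
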