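import Pool.Agent.ML45.Rds

/-!
# The local step of the reflection (module LST)
-/

namespace Pool.Agent.ML45

open Classical Set Pool.Agent Pool.Agent.LadderTree Pool.Agent.Forcing Pool.Agent.MAx
open Pool.Agent.BVM (BSet UF eqv memv chk Congr le_of_uf Disc OPair FunOn op on onT)
open Pool.Agent.OG45 Pool.Agent.IN45
open Pool.Agent.SP45 (pre cyl pre_succ pre_zero length_pre pre_eq_iff mem_cyl mem_cyl_pre self_mem
  cyl_nil mem_cyl_cons cyl_nonempty cyl_anti)

/-- the family `Z` of sets of natural numbers is not bounded: the first alternative of `Key`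
fails -/
def Unb {M : Type*} (E : M → M → Prop) (w Z : M) : Prop :=
  ¬ ∃ g, Fn E g w w ∧ ∀ z, E z Z → ∃ k, E k w ∧ ∀ n, E n w → ¬ E n k →
    ∃ m l, E m z ∧ BVM.Rel E g n l ∧ ¬ E m n ∧ ¬ E l m

variable {I : Type} [LinearOrder I] [WellFoundedLT I]

/-- the statements which say which numbers are in `ζ` -/
def InS (ζ : BSet (RO (Hm I))) (n : ℕ) (x : Bool) (F : GG (Hm I)) : Prop :=
  (In F (nm F (on n)) (nm F ζ)) ↔ x = true

/-- what the local step gives for the condition `p` and the function `g`: a condition `p * L`, a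
name `ζ` of a member of `Z`, read by `h`, and numbers `e z k ≥ k` such that the set read by `h` does not
meet the intervals `[e z k, g (L z) (e z k)]` -/
structure Step (Z : BSet (RO (Hm I))) (p : Hm I) (g : (I → ℕ → ℕ) → ℕ → ℕ) (L : Hm I)
    (ζ : BSet (RO (Hm I))) (h : (I → ℕ → ℕ) → ℕ → Bool) (e : (I → ℕ → ℕ) → ℕ → ℕ) : Prop where
  mem : Fc (p * L) fun F => In F (nm F ζ) (nm F Z)
  hc : Cont h
  ec : Cont e
  reads : Reads (p * L) h (InS ζ)
  le : ∀ z k, k ≤ e z k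
  free : ∀ z k m, e z k ≤ m → m ≤ g (L z) (e z k) → h z m = false

omit [LinearOrder I] [WellFoundedLT I] in
/-- pairs of locally constant functions -/
theorem lc_prod {X Y : Type*} {f : (I → ℕ → ℕ) → X} {g : (I → ℕ → ℕ) → Y} (hf : Lc f)
    (hg : Lc g) : Lc fun z => (f z, g z) := by
  intro z
  obtain ⟨T, n, h⟩ := hf z
  obtain ⟨T', n', h'⟩ := hg z
  refine ⟨T ∪ T', max n n', fun z' hz' => ?_⟩
  beta_reduce
  rw [h z' (hz'.mono Finset.subset_union_left (le_max_left _ _)),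
    h' z' (hz'.mono Finset.subset_union_right (le_max_right _ _))]

/-- the property of the name `ζ` given by the failure of the bound `seqN a` -/
def ZP {F : GG (Hm I)} (s Z z : Md F) : Prop :=
  In F z Z ∧ ∀ k, In F k (nm F (onT ℕ)) → ∃ n, In F n (nm F (onT ℕ)) ∧ ¬ In F n k ∧
    ∀ m l, In F m z → BVM.Rel (In F) s n l → In F m n ∨ In F l m

omit [WellFoundedLT I] in
theorem rpZP (s Z z : BSet (RO (Hm I))) :
    RpP fun F : GG (Hm I) => ZP (F := F) (nm F s) (nm F Z) (nm F z) := by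
  unfold ZP
  repeat' (first
    | exact RpP.mem _ _ | exact RpP.rel _ _ _
    | refine RpP.and ?_ ?_ | refine RpP.or ?_ ?_ | refine RpP.not ?_
    | refine RpP.ex fun _ => ?_ | refine RpP.all fun _ => ?_
    | refine RpP.imp ?_ ?_)

/-- the statement which gives the beginning of a free interval -/
def SK (a : ℕ → BSet (RO (Hm I))) (ζ : BSet (RO (Hm I))) (k n : ℕ) (F : GG (Hm I)) : Prop :=
  k ≤ n ∧ ∀ m l, In F m (nm F ζ) → BVM.Rel (In F) (nm F (seqN a)) (nm F (on n)) l →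
    In F m (nm F (on n)) ∨ In F l m

omit [WellFoundedLT I] in
theorem rpSK (a : ℕ → BSet (RO (Hm I))) (ζ : BSet (RO (Hm I))) (k n : ℕ) :
    RpP (SK a ζ k n) := by
  unfold SK
  repeat' (first
    | exact RpP.mem _ _ | exact RpP.rel _ _ _ | exact RpP.const _
    | refine RpP.and ?_ ?_ | refine RpP.or ?_ ?_ | refine RpP.not ?_
    | refine RpP.ex fun _ => ?_ | refine RpP.all fun _ => ?_
    | refine RpP.imp ?_ ?_)

omit [WellFoundedLT I] in
/-- the sequence named by `seqN a` has values in the natural numbers -/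
theorem fn_seqN {a : ℕ → BSet (RO (Hm I))} {p : Hm I}
    (ha : ∀ n, Fc p fun F => In F (nm F (a n)) (nm F (onT ℕ))) :
    Fc p fun F => Fn (In F) (nm F (seqN a)) (nm F (onT ℕ)) (nm F (onT ℕ)) := by
  intro F hF
  refine ⟨funOn_seqN a F, fun x y hxy => ?_⟩
  exact fc_seq (q := p) (A := fun F _ z => In F z (nm F (onT ℕ))) (fun _ _ => RpP.mem _ _)
    (fun F hF n => ha n F hF) hF hxy

omit [WellFoundedLT I] in
/-- the name `ζ` -/
theorem exists_zeta {Z : BSet (RO (Hm I))} {p : Hm I}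
    (hU : Fc p fun F => Unb (In F) (nm F (onT ℕ)) (nm F Z)) {a : ℕ → BSet (RO (Hm I))}
    (ha : ∀ n, Fc p fun F => In F (nm F (a n)) (nm F (onT ℕ))) :
    ∃ ζ : BSet (RO (Hm I)), Fc p fun F => ZP (F := F) (nm F (seqN a)) (nm F Z) (nm F ζ) := by
  refine Fc.name (A := fun F z => ZP (F := F) (nm F (seqN a)) (nm F Z) z)
    (fun y => rpZP _ _ y) (fun F hF => ?_)
  have h1 := hU F hF
  have h2 := fn_seqN ha F hF
  unfold Unb at h1
  by_contra hcon
  refine h1 ⟨nm F (seqN a), h2, fun z hz => ?_⟩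
  by_contra hcon2
  refine hcon ⟨z, hz, fun k hk => ?_⟩
  by_contra hcon3
  refine hcon2 ⟨k, hk, fun n hn hnk => ?_⟩
  by_contra hcon4
  refine hcon3 ⟨n, hn, hnk, fun m l hm hl => ?_⟩
  by_contra hcon5
  push Not at hcon5
  exact hcon4 ⟨m, l, hm, hl, hcon5.1, hcon5.2⟩

omit [WellFoundedLT I] in
/-- the beginning of a free interval is decided densely -/
theorem dense_SK {Z ζ : BSet (RO (Hm I))} {a : ℕ → BSet (RO (Hm I))} {r : Hm I}
    (h : Fc r fun F => ZP (F := F) (nm F (seqN a)) (nm F Z) (nm F ζ)) (k : ℕ) :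
    ∃ s ≤ r, ∃ n, Fc s (SK a ζ k n) := by
  obtain ⟨N, hN⟩ := Fc.name (q := r) (A := fun F n => In F n (nm F (onT ℕ)) ∧
      ¬ In F n (nm F (on k)) ∧ ∀ m l, In F m (nm F ζ) → BVM.Rel (In F) (nm F (seqN a)) n l →
        In F m n ∨ In F l m) (fun y => by
      repeat' (first
        | exact RpP.mem _ _ | exact RpP.rel _ _ _
        | refine RpP.and ?_ ?_ | refine RpP.or ?_ ?_ | refine RpP.not ?_
        | refine RpP.ex fun _ => ?_ | refine RpP.all fun _ => ?_
        | refine RpP.imp ?_ ?_)) (fun F hF => (h F hF).2 _ (nat_mem k F))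
  obtain ⟨s, hs, n, hn⟩ := fc_nat (a := N) (q := r) (fun F hF => (hN F hF).1)
  refine ⟨s, hs, n, fun F hF => ?_⟩
  obtain ⟨_, h2, h3⟩ := hN.mono hs F hF
  have e : nm F N = nm F (on n) := hn F hF
  rw [e] at h2 h3
  rw [nat_lt, not_lt] at h2
  exact ⟨h2, h3⟩

/-- the local step.
Let `a n` be the names given by `exists_natN` for `z ↦ g z n` and `p`; then `seqN a` is (forced by
`p` to be) a function from `ω` to `ω`.  Since `Z` is not bounded there is, by `Fc.name`, a name `ζ`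
with `p ⊩ ζ ∈ Z` and `p ⊩ ∀ k ∈ ω, ∃ n ∈ ω, ¬ n ∈ k ∧ ∀ m l, m ∈ ζ → Rel (seqN a) n l →
m ∈ n ∨ l ∈ m`.  Apply `exists_reads` to `InS ζ` (`fc_decide`), to get `L₁`, `h₁`, and then, below
`p * L₁`, to the statements `S k n F := k ≤ n ∧ ∀ m l, m ∈ ζ → Rel (seqN a) (on n) l →
m ∈ on n ∨ l ∈ m` (`fc_nat` decides `n`), to get `L₂` and `e`.  Let `L = L₁ * L₂`, `h z = h₁ (L₂ z)`
(`Reads.mul`).  `k ≤ e z k`: take a box on which `e · k` is constant (`exists_box_lc`);
the statement `S k (e z k)` is forced by some condition, hence `k ≤ e z k`.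
`free`: let `n = e z k ≤ m ≤ g (L z) n`, and suppose `h z m = true`.  Take a box `u` around `z` on
which `e · k`, `h · m` and `g (L ·) n` are constant (apply `exists_box_lc` to the locally constant
function with these three values).  The condition `p * L * E u` forces `S k n`, `on m ∈ ζ` and
`a n = on (g (L z) n)`, so at an ultrafilter (`exists_gg`) `m < n` or `g (L z) n < m`. -/
theorem exists_step {Z : BSet (RO (Hm I))} {p : Hm I}
    (hU : Fc p fun F => Unb (In F) (nm F (onT ℕ)) (nm F Z)) {g : (I → ℕ → ℕ) → ℕ → ℕ}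
    (hg : Cont g) : ∃ L ζ h e, Step Z p g L ζ h e ∧
      ∃ C : Set I, C.Countable ∧ Act C L ∧ DepOn C h ∧ DepOn C e := by
  choose a ha1 ha2 using fun n => exists_natN (p := p) (g := fun z => g z n) (hg n)
  obtain ⟨ζ, hζ⟩ := exists_zeta hU ha1
  obtain ⟨L₁, h₁, hc₁, ⟨C₁, hC₁, hd₁⟩, hr₁⟩ := exists_reads (S := InS ζ) (q := p)
    (fun n x => (RpP.mem _ _).iff (RpP.const _)) (fun n r _ => by
      obtain ⟨s, hs, h' | h'⟩ := fc_decide (RpP.mem (on n) ζ) r
      · exact ⟨s, hs, true, fun F hF => ⟨fun _ => rfl, fun _ => h' F hF⟩⟩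
      · exact ⟨s, hs, false, fun F hF => ⟨fun h => absurd h (h' F hF), fun h => by
          exact absurd h Bool.false_ne_true⟩⟩)
  obtain ⟨L₂, e, hc₂, ⟨C₂, hC₂, hd₂⟩, hr₂⟩ := exists_reads (S := SK a ζ) (q := p * L₁)
    (fun k n => rpSK a ζ k n) (fun k r hr => dense_SK (hζ.mono (hr.trans (mul_le p L₁))) k)
  have hLL : p * (L₁ * L₂) = p * L₁ * L₂ := (mul_assoc _ _ _).symm
  obtain ⟨D₁, hD₁, hA₁⟩ := Act.exists L₁
  obtain ⟨D₂, hD₂, hA₂, hdep⟩ := L₂.supp
  have hread : Reads (p * (L₁ * L₂)) (fun z => h₁ (L₂ z)) (InS ζ) := by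
    rw [hLL]
    exact hr₁.mul L₂
  refine ⟨L₁ * L₂, ζ, fun z => h₁ (L₂ z), e, ?_, C₁ ∪ D₂ ∪ C₂ ∪ D₁,
    ((hC₁.union hD₂).union hC₂).union hD₁, ?_, ?_, ?_⟩
  · refine ⟨fun F hF => (hζ.mono (mul_le p _) F hF).1, hc₁.comp L₂, hc₂, hread, ?_, ?_⟩
    · intro z k
      obtain ⟨u, -, hu⟩ := exists_box_lc (hc₂ k) z
      obtain ⟨F, hF⟩ := exists_gg (p * L₁ * L₂ * E u)
      exact (hr₂ k (e z k) (E u) hu F hF).1
    · intro z k m h1 h2
      by_contra h3
      have h3' : h₁ (L₂ z) m = true := by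
        simpa using h3
      obtain ⟨u, -, hu⟩ := exists_box_lc (lc_prod (hc₂ k) (lc_prod ((hc₁.comp L₂) m)
        ((hg (e z k)).comp (L₁ * L₂)))) z
      have hu1 : ∀ z', e (E u z') k = e z k := fun z' => congrArg Prod.fst (hu z')
      have hu2 : ∀ z', h₁ (L₂ (E u z')) m = true := fun z' =>
        (congrArg (fun w => w.2.1) (hu z')).trans h3'
      have hu3 : ∀ z', g ((L₁ * L₂ * E u) z') (e z k) = g ((L₁ * L₂) z) (e z k) := fun z' => by
        rw [Hm.mul_map]
        exact congrArg (fun w => w.2.2) (hu z')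
      obtain ⟨F, hF⟩ := exists_gg (p * L₁ * L₂ * E u)
      have hF' : F.1.U (pt (p * (L₁ * L₂) * E u)) := by rw [hLL]; exact hF
      have hF'' : F.1.U (pt (p * (L₁ * L₂ * E u))) := by rw [← mul_assoc]; exact hF'
      have h4 := (hr₂ k (e z k) (E u) hu1 F hF).2
      have h5 : In F (nm F (on m)) (nm F ζ) := (hread m true (E u) hu2 F hF').2 rfl
      have h6 := ha2 (e z k) _ _ hu3 F hF''
      beta_reduce at h6
      rcases h4 (nm F (on m)) (nm F (a (e z k))) h5 (rel_seqN.2 rfl) with h7 | h7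
      · rw [nat_lt] at h7
        omega
      · rw [h6, nat_lt] at h7
        omega
  · refine Act.mul (hA₁.mono subset_union_right) ?_
    intro γ hγ z
    exact hA₂ γ (fun h => hγ (Or.inl (Or.inl (Or.inr h)))) z
  · exact (hd₁.comp L₂ hdep).mono fun γ hγ => Or.inl (Or.inl hγ)
  · exact hd₂.mono fun γ hγ => Or.inl (Or.inr hγ)

end Pool.Agent.ML45
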