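import Pool.Agent.ML45.Cap
import Pool.Agent.ML45.Cut
import Pool.Agent.ML45.Lst

/-!
# Capturing, the condition (module CP2)
-/

namespace Pool.Agent.ML45

open Classical Set Pool.Agent Pool.Agent.LadderTree Pool.Agent.Forcing Pool.Agent.MAx
open Pool.Agent.BVM (BSet UF eqv memv chk Congr le_of_uf Disc OPair FunOn op on onT)
open Pool.Agent.OG45 Pool.Agent.IN45
open Pool.Agent.SP45 (pre cyl pre_succ pre_zero length_pre pre_eq_iff mem_cyl mem_cyl_pre self_mem
  cyl_nil mem_cyl_cons cyl_nonempty cyl_anti)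

variable {I : Type} [LinearOrder I] [WellFoundedLT I]

/-- `β` reflects `Z` below `q`: the local step can be done below `β` -/
def Refl (Z : BSet (RO (Hm I))) (q : Hm I) (β : I) : Prop :=
  ∀ p ≤ q, Act (Iio β) p → ∀ g : (I → ℕ → ℕ) → ℕ → ℕ, Cont g →
    (∃ C ⊆ Iio β, C.Countable ∧ DepOn C g) → ∃ L ζ h e, Step Z p g L ζ h e ∧ Act (Iio β) L ∧
      ∃ C ⊆ Iio β, C.Countable ∧ DepOn C h ∧ DepOn C e

omit [LinearOrder I] [WellFoundedLT I] in
private theorem cp2_const {X : Type*} (x : X) : Lc (I := I) fun _ => x :=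
  fun _ => ⟨∅, 0, fun _ _ => rfl⟩

omit [LinearOrder I] [WellFoundedLT I] in
private theorem cp2_bind {X Y : Type*} {u : (I → ℕ → ℕ) → X} (hu : Lc u)
    {φ : (I → ℕ → ℕ) → X → Y} (hφ : ∀ x, Lc fun y => φ y x) : Lc fun y => φ y (u y) := by
  classical
  intro z
  obtain ⟨T, n, hT⟩ := hu z
  obtain ⟨T', n', hT'⟩ := hφ (u z) z
  refine ⟨T ∪ T', max n n', fun z' hz' => ?_⟩
  have h1 := hT z' (hz'.mono Finset.subset_union_left (le_max_left _ _))
  have h2 := hT' z' (hz'.mono Finset.subset_union_right (le_max_right _ _))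
  beta_reduce at h1 h2 ⊢
  rw [h1, h2]

omit [LinearOrder I] [WellFoundedLT I] in
private theorem cp2_map {X Y : Type*} {u : (I → ℕ → ℕ) → X} (hu : Lc u) (φ : X → Y) :
    Lc fun y => φ (u y) := cp2_bind hu fun _ => cp2_const _

omit [LinearOrder I] [WellFoundedLT I] in
private theorem cp2_coord (β : I) (n : ℕ) : Lc fun z : I → ℕ → ℕ => z β n := by
  intro z
  refine ⟨{β}, n + 1, fun z' hz' => ?_⟩
  have h := hz' β (Finset.mem_singleton_self β)
  rw [pre_eq_iff] at h
  exact h n (Nat.lt_succ_self n)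

omit [LinearOrder I] [WellFoundedLT I] in
private theorem cp2_dg {e : (I → ℕ → ℕ) → ℕ → ℕ} (he : Cont e) (u : List ℕ) (k : ℕ) :
    Lc fun y => dg (e y) u k := by
  induction k with
  | zero => exact he (code u + 1)
  | succ k ih => exact cp2_bind (cp2_map ih fun x => x + 1) fun x => he x

omit [LinearOrder I] [WellFoundedLT I] in
private theorem cp2_ce {e : (I → ℕ → ℕ) → ℕ → ℕ} (he : Cont e) (s : List ℕ) :
    Lc fun y => ce (e y) s := by
  induction s with
  | nil => exact cp2_const _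
  | cons k s ih =>
    exact cp2_bind ih (φ := fun y x => dg (e y) x k :: x) fun x =>
      cp2_map (cp2_dg he x k) fun d => d :: x

/-- the least element of `B` above -/
private noncomputable def cp2_lb (B : Set ℕ) (n : ℕ) : ℕ := sInf {b | b ∈ B ∧ n ≤ b}

private theorem cp2_lb_spec {B : Set ℕ} (hB : B.Infinite) (n : ℕ) :
    cp2_lb B n ∈ B ∧ n ≤ cp2_lb B n := by
  have : {b | b ∈ B ∧ n ≤ b}.Nonempty := by
    obtain ⟨b, hb, hn⟩ := hB.exists_gt n
    exact ⟨b, hb, hn.le⟩
  exact Nat.sInf_mem this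

/-- the bound for the intervals -/
private noncomputable def cp2_g (B : Set ℕ) (r : Hm I) (β : I) (y : I → ℕ → ℕ) (n : ℕ) : ℕ :=
  (Finset.range n).sup fun c => cp2_lb B (sig (r.a β y (n :: nd c)))

omit [WellFoundedLT I] in
private theorem cp2_g_cont (B : Set ℕ) (r : Hm I) (β : I) : Cont (cp2_g B r β) := by
  intro n
  have key : ∀ S : Finset ℕ,
      Lc fun y => S.sup fun c => cp2_lb B (sig (r.a β y (n :: nd c))) := by
    intro S
    induction S using Finset.induction_on with
    | empty => exact cp2_const _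
    | insert c S _ ih =>
      have h1 : Lc fun y => cp2_lb B (sig (r.a β y (n :: nd c))) :=
        cp2_map (r.lc β (n :: nd c)) fun s => cp2_lb B (sig s)
      have h2 := cp2_bind h1 (φ := fun y x =>
        x ⊔ S.sup fun c => cp2_lb B (sig (r.a β y (n :: nd c)))) fun x =>
          cp2_map ih fun w => x ⊔ w
      simpa only [Finset.sup_insert] using h2
  exact key (Finset.range n)

omit [WellFoundedLT I] in
private theorem cp2_g_dep (B : Set ℕ) (r : Hm I) (β : I) :
    ∃ C ⊆ Iio β, C.Countable ∧ DepOn C (cp2_g B r β) := by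
  obtain ⟨C, hC, -, h2⟩ := r.supp
  refine ⟨C ∩ Iio β, inter_subset_right, hC.mono inter_subset_left, fun z z' hz => ?_⟩
  have h3 : r.a β z = r.a β z' := by
    rw [r.low β z (glue β z z') fun δ hδ => (glue_lt hδ z z').symm,
      h2 β (glue β z z') z' fun δ hδ => ?_]
    rcases lt_or_ge δ β with h | h
    · rw [glue_lt h]; exact hz δ ⟨hδ, h⟩
    · rw [glue_ge h]
  funext n
  rw [cp2_g, cp2_g, h3]

private theorem cp2_lift_zero {e : ℕ → ℕ} (he : ∀ k, k ≤ e k) (x : ℕ → ℕ) :
    lift (ce e) x 0 = dg e [] (x 0) := by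
  have h := lift_mem (isEmb_ce he) x 1
  have h1 : pre x 1 = [x 0] := rfl
  rw [h1] at h
  exact (mem_cyl_cons.1 h).1

/-- capturing, the condition.
Let `p = lowP β r`; it is `≤ q` since `r = q * L₀` and `lowP_of_mul`.  For `y` let
`g y n` be the supremum over `c < n` of the least `b ∈ B` with
`sig (r.a β y (n :: nd c)) ≤ b`; this is continuous (`r.lc`) and depends on countably many
coordinates below `β` (`r.supp` and `r.low`).  `Refl` gives `L`, `ζ`, `h`, `e`.  Let `G` be
given by `exists_at` for `c y = ce (e y)` (`isEmb_ce`), and `L' = L * G`.  Then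
`r * L = lowP β r * L * highP β (r * L)` (`low_mul_high`, `lowP_mul`), so that
`r * L' = (p * L) * (highP β (r * L) * G)`, and `Reads (p * L) h` gives `Reads (r * L') h` by
`Reads.mul`, since `h` depends on coordinates below `β` only, which are not changed.  Let
`N z = dg (e z) [] (z β 0)`, which is `lift (ce (e z)) (z β) 0`.  Let `z` be given, `y = z`:
`(r * L') z β = lift (r.a β (L z)) (lift (ce (e z)) (z β))` (`Hm.mul_map`, `Hm.map_apply`; `L` acts
below `β`, and `G` does not change the coordinates below `β`; `r.low`).  Apply `capture_branch` to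
`t = r.a β (L z)`, `G n = g (L z) n`, `e z`, `h z` and `x = z β`. -/
theorem exists_capture {Z : BSet (RO (Hm I))} {q : Hm I} {β : I} (hq : Act (Iio β) q)
    (hβ : Refl Z q β) {r : Hm I} (hr : r ≤ q) {B : Set ℕ} (hB : B.Infinite) :
    ∃ (L' : Hm I) (ζ : BSet (RO (Hm I))) (h : (I → ℕ → ℕ) → ℕ → Bool) (N : (I → ℕ → ℕ) → ℕ),
      (Fc (r * L') fun F => In F (nm F ζ) (nm F Z)) ∧ Reads (r * L') h (InS ζ) ∧ Cont h ∧ Lc N ∧
      ∀ z, ∀ j ≥ N z, h z j = true →
        ∃ b ∈ B, b ≤ j ∧ ∀ a ∈ PS ((r * L') z β), ¬ (b < a ∧ a ≤ j) := by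
  obtain ⟨L₀, hL₀⟩ := hr
  have hp : lowP β r ≤ q := by
    rw [hL₀]
    exact ⟨lowP β L₀, lowP_of_mul β hq⟩
  obtain ⟨L, ζ, h, e, hS, hL, C, hCβ, hC, hCh, hCe⟩ :=
    hβ (lowP β r) hp (act_lowP β r) (cp2_g B r β) (cp2_g_cont B r β) (cp2_g_dep B r β)
  obtain ⟨G, hG1, hG2⟩ := exists_at (β := β) (c := fun y => ce (e y))
    (fun y => isEmb_ce (hS.le y))
    (fun z z' hz => by
      have : e z = e z' := hCe z z' fun δ hδ => hz δ (hCβ hδ)
      beta_reduce
      rw [this])
    (cp2_ce hS.ec) hC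
    (fun z z' hz => by
      have : e z = e z' := hCe z z' hz
      beta_reduce
      rw [this])
  have hGact : Act (Ici β) G := fun γ hγ z => hG1 γ (fun h' => hγ (h' ▸ le_rfl)) z
  set M : Hm I := highP β (r * L) * G with hM
  have hMact : Act (Ici β) M := (act_highP β _).mul hGact
  have hdec : r * (L * G) = lowP β r * L * M := by
    rw [hM, ← mul_assoc, ← mul_assoc, ← lowP_mul β hL, low_mul_high]
  have hhM : ∀ z, h (M z) = h z := fun z => hCh _ _ fun δ hδ =>
    hMact.map (not_le.2 (hCβ hδ)) z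
  refine ⟨L * G, ζ, h, fun z => dg (e z) [] (z β 0), ?_, ?_, hS.hc, ?_, ?_⟩
  · rw [hdec]
    exact hS.mem.mono (mul_le _ _)
  · rw [hdec]
    have := hS.reads.mul M
    intro n x K hK
    exact this n x K fun z => by
      beta_reduce
      rw [hhM]
      exact hK z
  · exact cp2_bind (cp2_coord β 0) (φ := fun z x => dg (e z) [] x) fun x => cp2_dg hS.ec [] x
  · intro z j hj hhj
    have hmap : (r * (L * G)) z β = lift (r.a β (L z)) (lift (ce (e z)) (z β)) := by
      rw [Hm.mul_map, Hm.mul_map, Hm.map_apply r]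
      have h1 : r.a β (L (G z)) = r.a β (L z) := r.low β _ _ fun δ hδ =>
        L.map_low fun δ' hδ' => hGact.map (not_le.2 (hδ'.trans_lt hδ)) z
      have h2 : L (G z) β = G z β := hL.map (fun h' => lt_irrefl _ h') (G z)
      rw [h1, h2, Hm.map_apply G, hG2]
    rw [hmap]
    refine capture_branch (r.emb β (L z)) (B := B) (G := cp2_g B r β (L z)) ?_ (hS.le z)
      (hS.free z) (z β) ?_ hhj
    · intro n u hu
      obtain ⟨h1, h2⟩ := cp2_lb_spec hB (sig (r.a β (L z) (n :: u)))
      refine ⟨_, h1, h2, ?_⟩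
      rw [cp2_g]
      have := Finset.le_sup (f := fun c => cp2_lb B (sig (r.a β (L z) (n :: nd c))))
        (Finset.mem_range.2 hu)
      beta_reduce at this
      rw [nd_code] at this
      exact this
    · rw [cp2_lift_zero (hS.le z)]
      exact hj

end Pool.Agent.ML45
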