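import Pool.Agent.ML45.Cap2

/-!
# Capturing, forced statements (module CP3)
-/

namespace Pool.Agent.ML45

open Classical Set Pool.Agent Pool.Agent.LadderTree Pool.Agent.Forcing Pool.Agent.MAx
open Pool.Agent.BVM (BSet UF eqv memv chk Congr le_of_uf Disc OPair FunOn op on onT)
open Pool.Agent.OG45 Pool.Agent.IN45
open Pool.Agent.SP45 (pre cyl pre_succ pre_zero length_pre pre_eq_iff mem_cyl mem_cyl_pre self_mem
  cyl_nil mem_cyl_cons cyl_nonempty cyl_anti)

variable {I : Type} [LinearOrder I] [WellFoundedLT I]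

/-- the name of the set of the partial sums of the generic branch at `β` -/
noncomputable def AN (β : I) : BSet (RO (Hm I)) :=
  MAx.sN fun n => cl 1 fun z => n ∈ PS (z β)

theorem sig_ge (m : ℕ → ℕ) (i : ℕ) : i ≤ sig (pre m i) := by
  induction i with
  | zero => exact Nat.zero_le _
  | succ i ih =>
    rw [pre_succ, Cap_sig_cons]
    omega

/-- membership in the set of the partial sums is locally constant: it depends on
`pre (z β) (n + 1)` only, by `sig_ge` -/
theorem lc_PS (β : I) (n : ℕ) : Lc fun z : I → ℕ → ℕ => n ∈ PS (z β) := by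
  intro z
  refine ⟨{β}, n + 1, fun z' hz' => ?_⟩
  have h1 : pre (z' β) (n + 1) = pre (z β) (n + 1) := hz' β (Finset.mem_singleton_self β)
  have key : ∀ x y : ℕ → ℕ, pre x (n + 1) = pre y (n + 1) → n ∈ PS x → n ∈ PS y := by
    rintro x y hxy ⟨i, hi⟩
    refine ⟨i, ?_⟩
    have h2 := sig_ge x (i + 1)
    have h3 : i + 1 ≤ n + 1 := by omega
    rw [← pre_eq_of_le h3 hxy]
    exact hi
  exact propext ⟨key _ _ h1, key _ _ h1.symm⟩

/-- membership in the name (`forc_cl`, `forc_cl_compl` for `p = 1`, `MAx.In_sN`) -/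
theorem fc_AN {β : I} {p : Hm I} {n : ℕ} (h : ∀ z, n ∈ PS (p z β)) :
    Fc p fun F => In F (nm F (on n)) (nm F (AN β)) := by
  intro F hF
  show In F (nm F (on n)) (nm F (AN β))
  rw [AN, MAx.In_sN]
  have h1 : Forc ((1 : Hm I) * p) (cl 1 fun z => n ∈ PS (z β)) := forc_cl h
  rw [one_mul] at h1
  exact F.1.mono (pt_le_iff.2 h1) hF

theorem fc_not_AN {β : I} {p : Hm I} {n : ℕ} (h : ∀ z, n ∉ PS (p z β)) :
    Fc p fun F => ¬ In F (nm F (on n)) (nm F (AN β)) := by
  intro F hF
  show ¬ In F (nm F (on n)) (nm F (AN β))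
  rw [AN, MAx.In_sN, ← F.1.compl_iff]
  have h1 : Forc ((1 : Hm I) * p) (cl 1 fun z => n ∈ PS (z β))ᶜ := forc_cl_compl h
  rw [one_mul] at h1
  exact F.1.mono (pt_le_iff.2 h1) hF

/-- the set is infinite: below `p` and for `n` take a box on which
`sig (pre (p z β) (n + 2))` is constant -/
theorem unb_AN (β : I) (q : Hm I) : Fc q fun F => ∀ n, In F n (nm F (onT ℕ)) →
    ∃ a, In F a (nm F (AN β)) ∧ In F n a := by
  have hR : ∀ y : BSet (RO (Hm I)), RpP fun F : GG (Hm I) =>
      ∃ a, In F a (nm F (AN β)) ∧ In F (nm F y) a := fun y =>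
    RpP.ex (P := fun F a => In F a (nm F (AN β)) ∧ In F (nm F y) a) fun a =>
      (RpP.mem _ _).and (RpP.mem _ _)
  have key : ∀ (F : GG (Hm I)) (n : ℕ), ∃ a, In F a (nm F (AN β)) ∧ In F (nm F (on n)) a := by
    intro F n
    refine gg_all (hR (on n)) (fun p => Fc.dense (hR (on n)) fun r _ => ?_) F
    have hlc : Lc fun z : I → ℕ → ℕ => sig (pre (z β) (n + 2)) := by
      intro z
      refine ⟨{β}, n + 2, fun z' hz' => ?_⟩
      have h1 : pre (z' β) (n + 2) = pre (z β) (n + 2) := hz' β (Finset.mem_singleton_self β)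
      show sig (pre (z' β) (n + 2)) = sig (pre (z β) (n + 2))
      rw [h1]
    obtain ⟨u, -, hu⟩ := exists_box_lc (hlc.comp r) (fun _ _ => 0)
    refine ⟨r * E u, mul_le r (E u), ?_⟩
    obtain ⟨N, hN⟩ : ∃ N, N = sig (pre (r (fun _ _ => 0) β) (n + 2)) := ⟨_, rfl⟩
    have h2 : ∀ z, N ∈ PS ((r * E u) z β) := by
      intro z
      refine ⟨n + 1, ?_⟩
      rw [Hm.mul_map, hN]
      exact (hu z).symm
    have h3 : n < N := by
      have := sig_ge (r (fun _ _ => 0) β) (n + 2)
      omega
    intro F hF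
    exact ⟨nm F (on N), fc_AN h2 F hF, nat_lt.2 h3⟩
  intro F _ n hn
  exact om_all (b := (⊤ : RO (Hm I))) (RpP.const True)
    (P := fun F n => ∃ a, In F a (nm F (AN β)) ∧ In F n a) hR (fun F _ n => key F n) F trivial n hn

/-- capturing.  Let `L'`, `ζ`, `h`, `N` be as in `exists_capture`, and take a box `u` around
`0` on which `N` is constant, `N₀`; let `r' = r * L' * E u`.  Let `j ≥ N₀` and let
`s = r' * M` force `j ∈ ζ`.  Take a box `v` around `0` on which the locally constant functions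
`z ↦ h (E u (M z)) j` and `z ↦ (a ∈ PS ((r * L') (E u (M z)) β))`, `a ≤ j`, are constant (a finite
family: apply `exists_box_lc` to a function with values in a product, or `exists_box_const`).  By
`Reads`, `h (E u (M (E v z))) j = true`, since otherwise `s * E v` forces `j ∉ ζ`
(`exists_gg`).  So there is `b ∈ B` as in `exists_capture` (for a point of the
box), and `t = s * E v` forces `a ∉ AN β` for `b < a ≤ j` (`fc_not_AN`). -/
theorem capture {Z : BSet (RO (Hm I))} {q : Hm I} {β : I} (hq : Act (Iio β) q)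
    (hβ : Refl Z q β) {r : Hm I} (hr : r ≤ q) {B : Set ℕ} (hB : B.Infinite) :
    ∃ r' ≤ r, ∃ (ζ : BSet (RO (Hm I))) (N : ℕ), (Fc r' fun F => In F (nm F ζ) (nm F Z)) ∧
      ∀ j ≥ N, ∀ s ≤ r', (Fc s fun F => In F (nm F (on j)) (nm F ζ)) → ∃ t ≤ s, ∃ b ∈ B, b ≤ j ∧
        ∀ a, b < a → a ≤ j → Fc t fun F => ¬ In F (nm F (on a)) (nm F (AN β)) := by
  obtain ⟨L', ζ, h, N, hZ, hreads, hc, hlc, hcap⟩ := exists_capture hq hβ hr hB
  obtain ⟨u, -, hu⟩ := exists_box_lc hlc (fun _ _ => 0)
  refine ⟨r * L' * E u, ⟨L' * E u, mul_assoc _ _ _⟩, ζ, N (fun _ _ => 0), hZ.mono (mul_le _ _), ?_⟩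
  rintro j hj s ⟨M, rfl⟩ hs
  -- the locally constant functions
  let f : (I → ℕ → ℕ) → ℕ → Prop := fun z m =>
    if m = 0 then h (E u (M z)) j = true else m - 1 ∈ PS ((r * L') (E u (M z)) β)
  have hf : Cont f := by
    intro m
    by_cases hm : m = 0
    · have h1 : Lc fun z : I → ℕ → ℕ => (h (E u (M z)) j = true) := by
        have h2 := (hc.comp (E u * M)) j
        intro z
        obtain ⟨T, n, hT⟩ := h2 z
        refine ⟨T, n, fun z' hz' => ?_⟩
        have h3 := hT z' hz'
        beta_reduce at h3 ⊢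
        rw [Hm.mul_map, Hm.mul_map] at h3
        rw [h3]
      intro z
      obtain ⟨T, n, hT⟩ := h1 z
      refine ⟨T, n, fun z' hz' => ?_⟩
      have h3 := hT z' hz'
      show f z' m = f z m
      simp only [f, if_pos hm]
      exact h3
    · have h1 := (lc_PS β (m - 1)).comp (r * L' * E u * M)
      intro z
      obtain ⟨T, n, hT⟩ := h1 z
      refine ⟨T, n, fun z' hz' => ?_⟩
      have h3 := hT z' hz'
      beta_reduce at h3
      rw [Hm.mul_map, Hm.mul_map, Hm.mul_map, Hm.mul_map (r * L' * E u), Hm.mul_map (r * L')] at h3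
      show f z' m = f z m
      simp only [f, if_neg hm]
      first
        | exact h3
        | (simp only [Hm.mul_map] at h3 ⊢; exact h3)
  obtain ⟨v, -, -, hv⟩ := exists_box_const (D := univ) hf
    (fun z z' hz => by rw [funext fun δ => hz δ (mem_univ δ)]) (fun _ _ => 0) (Finset.range (j + 2))
  have hconst : ∀ z, ∀ m < j + 2, f (E v z) m = f (fun _ _ => 0) m := fun z m hm =>
    hv _ (E_mem v z) m (Finset.mem_range.2 hm)
  have ht : r * L' * E u * M * E v ≤ r * L' * E u * M := mul_le _ _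
  -- the value of `h`
  have htrue : ∀ z, h (E u (M (E v z))) j = true := by
    by_contra hcon
    push Not at hcon
    obtain ⟨z₁, hz₁⟩ := hcon
    have h1 : ∀ z, h ((E u * M * E v) z) j = false := by
      intro z
      have h2 : f (E v z) 0 = f (E v z₁) 0 := by
        rw [hconst z 0 (by omega), hconst z₁ 0 (by omega)]
      simp only [f, if_true] at h2
      rw [Hm.mul_map, Hm.mul_map]
      by_contra h3
      rw [Bool.not_eq_false, h2] at h3
      exact hz₁ h3
    have h2 := hreads j false (E u * M * E v) h1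
    obtain ⟨F, hF⟩ := exists_gg (r * L' * E u * M * E v)
    have h3 := hs.mono ht F hF
    have e : r * L' * (E u * M * E v) = r * L' * E u * M * E v := by
      simp only [mul_assoc]
    rw [e] at h2
    have h4 := h2 F hF
    unfold InS at h4
    exact absurd (h4.1 h3) (by decide)
  obtain ⟨b, hb, hbj, hb'⟩ := hcap (E u (M (E v fun _ _ => 0))) j
    (by rw [hu]; exact hj) (htrue _)
  refine ⟨r * L' * E u * M * E v, ht, b, hb, hbj, fun a ha haj => fc_not_AN fun z => ?_⟩
  have h1 : f (E v z) (a + 1) = f (E v fun _ _ => 0) (a + 1) := by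
    rw [hconst z (a + 1) (by omega), hconst _ (a + 1) (by omega)]
  simp only [f, if_neg (Nat.succ_ne_zero a), Nat.add_sub_cancel] at h1
  rw [Hm.mul_map, Hm.mul_map, Hm.mul_map (r * L'), h1]
  exact fun h2 => hb' a h2 ⟨ha, haj⟩

end Pool.Agent.ML45
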