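import Pool.Agent.ML45.EJ

/-!
# The clock

`F : ℕ → Finset I` is an increasing sequence of finite sets of active coordinates.  The clock
visits, at the time `T`, a node `clk F γ T` at each coordinate `γ`, such that every point `z` is in
infinitely many of the boxes given by these nodes.
-/

namespace Pool.Agent.ML45

open Set
open Pool.Agent.SP45 (pre cyl pre_succ pre_zero length_pre pre_eq_iff mem_cyl mem_cyl_pre self_mem
  cyl_nil mem_cyl_cons cyl_nonempty cyl_anti)

/-! ### enumeration of the nodes -/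

/-- the node number `n` -/
def nd (n : ℕ) : List ℕ := Denumerable.ofNat (List ℕ) n

/-- the number of a node -/
def code (s : List ℕ) : ℕ := Encodable.encode s

theorem nd_code (s : List ℕ) : nd (code s) = s := Denumerable.ofNat_encode s

theorem code_nd (n : ℕ) : code (nd n) = n := Denumerable.encode_ofNat n

theorem code_nil : code [] = 0 := rfl

theorem nd_zero : nd 0 = [] := nd_code []

theorem code_cons (k : ℕ) (s : List ℕ) : code (k :: s) = Nat.pair k (code s) + 1 := rfl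

theorem code_lt_cons (k : ℕ) (s : List ℕ) : code s < code (k :: s) := by
  rw [code_cons]
  exact Nat.lt_succ_of_le (Nat.right_le_pair _ _)

theorem code_lt_sibling {k l : ℕ} (h : k < l) (s : List ℕ) : code (k :: s) < code (l :: s) := by
  rw [code_cons, code_cons]
  exact Nat.succ_lt_succ (Nat.pair_lt_pair_left _ h)

theorem code_le_of_suffix {s t : List ℕ} (h : s <:+ t) : code s ≤ code t := by
  obtain ⟨u, rfl⟩ := h
  induction u with
  | nil => exact le_rfl
  | cons k u ih => exact ih.trans (code_lt_cons k _).le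

theorem length_le_code (s : List ℕ) : s.length ≤ code s := by
  induction s with
  | nil => exact le_rfl
  | cons k s ih => exact Nat.succ_le_of_lt (ih.trans_lt (code_lt_cons k s))

theorem suffix_of_code {x : ℕ → ℕ} {s t : List ℕ} (hs : x ∈ cyl s) (ht : x ∈ cyl t)
    (h : code s ≤ code t) : s <:+ t := by
  rcases suffix_or hs ht with h1 | h1
  · exact h1
  · have h2 := code_le_of_suffix h1
    have h3 : code s = code t := le_antisymm h h2
    have h4 : s = t := by rw [← nd_code s, h3, nd_code]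
    rw [h4]

/-! ### the clock -/

variable {I : Type*} [LinearOrder I] [WellFoundedLT I]

open Classical in
/-- the node visited at the time `T` at the coordinate `γ` -/
noncomputable def clk (F : ℕ → Finset I) : I → ℕ → List ℕ :=
  WellFounded.fix (wellFounded_lt (α := I)) fun γ ih T =>
    nd ((Finset.range T).filter fun T' => γ ∈ F T' ∧ ∀ δ (h : δ < γ), ih δ h T' <:+ ih δ h T).card

open Classical in
theorem clk_eq (F : ℕ → Finset I) (γ : I) (T : ℕ) : clk F γ T =
    nd ((Finset.range T).filter fun T' => γ ∈ F T' ∧ ∀ δ < γ, clk F δ T' <:+ clk F δ T).card := by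
  rw [clk, WellFounded.fix_eq]

theorem clk_eq_nil {F : ℕ → Finset I} {γ : I} {T : ℕ}
    (h : ∀ T' < T, γ ∈ F T' → ¬ ∀ δ < γ, clk F δ T' <:+ clk F δ T) : clk F γ T = [] := by
  classical
  rw [clk_eq, Finset.filter_eq_empty_iff.2, Finset.card_empty, nd_zero]
  intro T' hT' h1
  exact h T' (Finset.mem_range.1 hT') h1.1 h1.2

theorem clk_zero (F : ℕ → Finset I) (γ : I) : clk F γ 0 = [] :=
  clk_eq_nil fun T' hT' => absurd hT' (Nat.not_lt_zero T')

/-- the clock depends on the past only -/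
theorem clk_congr {F G : ℕ → Finset I} {T : ℕ} (h : ∀ T' < T, F T' = G T') (γ : I) :
    ∀ T' ≤ T, clk F γ T' = clk G γ T' := by
  classical
  induction γ using WellFoundedLT.induction with
  | ind γ ih =>
    intro T' hT'
    rw [clk_eq, clk_eq]
    congr 2
    refine Finset.filter_congr fun T'' hT'' => ?_
    have h1 := Finset.mem_range.1 hT''
    rw [h T'' (h1.trans_le hT')]
    refine and_congr_right fun _ => forall₂_congr fun δ hδ => ?_
    rw [ih δ hδ T' hT', ih δ hδ T'' (h1.le.trans hT')]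

/-- `z` is in the box of the time `T`, at the coordinates in `D` -/
def Lo (F : ℕ → Finset I) (T : ℕ) (D : Set I) (z : I → ℕ → ℕ) : Prop :=
  ∀ γ ∈ D, z γ ∈ cyl (clk F γ T)

theorem Lo.mono {F : ℕ → Finset I} {T : ℕ} {D D' : Set I} {z : I → ℕ → ℕ} (h : Lo F T D z)
    (hD : D' ⊆ D) : Lo F T D' z := fun γ hγ => h γ (hD hγ)

theorem lo_zero (F : ℕ → Finset I) (D : Set I) (z : I → ℕ → ℕ) : Lo F 0 D z := fun γ _ => by
  rw [clk_zero, cyl_nil]; trivial

variable {F : ℕ → Finset I}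

/-- coordinates which are not active have the empty node -/
theorem clk_of_notMem (hF : Monotone F) {γ : I} {T : ℕ} (h : γ ∉ F T) : ∀ T' ≤ T + 1,
    clk F γ T' = [] := fun _ hT' => clk_eq_nil fun _ hT'' h1 =>
  absurd (hF (Nat.lt_succ_iff.1 (hT''.trans_le hT')) h1) h

theorem clk_of_notMem' (hF : Monotone F) {γ : I} {T : ℕ} (h : γ ∉ F T) : clk F γ T = [] :=
  clk_of_notMem hF h T (Nat.le_succ T)

/-- the nodes of the boxes which contain a point increase -/
theorem clk_suffix {D : Set I} (hD : IsLowerSet D) {z : I → ℕ → ℕ} {T T' : ℕ}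
    (h : T' ≤ T) (hT : Lo F T D z) (hT' : Lo F T' D z) : ∀ γ ∈ D, clk F γ T' <:+ clk F γ T := by
  classical
  intro γ
  induction γ using WellFoundedLT.induction with
  | ind γ ih =>
    intro hγ
    refine suffix_of_code (hT' γ hγ) (hT γ hγ) ?_
    rw [clk_eq F γ T', clk_eq F γ T, code_nd, code_nd]
    refine Finset.card_le_card fun T'' hT'' => ?_
    rw [Finset.mem_filter, Finset.mem_range] at hT'' ⊢
    exact ⟨hT''.1.trans_le h, hT''.2.1, fun δ hδ => (hT''.2.2 δ hδ).trans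
      (ih δ hδ (hD hδ.le hγ))⟩

omit [WellFoundedLT I] in
theorem isLowerSet_Iio' (γ : I) : IsLowerSet (Iio γ) := isLowerSet_Iio γ

/-- the codes of active coordinates increase -/
theorem code_clk_lt {z : I → ℕ → ℕ} {T T' : ℕ} {γ : I} (h : T' < T)
    (hT : Lo F T (Iio γ) z) (hT' : Lo F T' (Iio γ) z) (hγ : γ ∈ F T') :
    code (clk F γ T') < code (clk F γ T) := by
  classical
  have h1 := clk_suffix (isLowerSet_Iio' γ) h.le hT hT'
  rw [clk_eq F γ T', clk_eq F γ T, code_nd, code_nd]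
  refine Finset.card_lt_card ⟨fun T'' hT'' => ?_, fun hcon => ?_⟩
  · rw [Finset.mem_filter, Finset.mem_range] at hT'' ⊢
    exact ⟨hT''.1.trans h, hT''.2.1, fun δ hδ => (hT''.2.2 δ hδ).trans (h1 δ hδ)⟩
  · have h2 := hcon (Finset.mem_filter.2 ⟨Finset.mem_range.2 h, hγ, h1⟩)
    exact absurd (Finset.mem_range.1 (Finset.mem_filter.1 h2).1) (lt_irrefl _)

open Classical in
/-- the count, for a point -/
theorem clk_count {z : I → ℕ → ℕ} {T : ℕ} {γ : I} (hT : Lo F T (Iio γ) z) :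
    clk F γ T = nd (Nat.count (fun T' => γ ∈ F T' ∧ Lo F T' (Iio γ) z) T) := by
  rw [clk_eq, Nat.count_eq_card_filter_range]
  congr 2
  refine Finset.filter_congr fun T' hT' => ?_
  refine and_congr_right fun _ => ⟨fun h δ hδ => ?_, fun h => ?_⟩
  · exact mem_cyl_of_suffix (h δ hδ) (hT δ hδ)
  · exact clk_suffix (isLowerSet_Iio' γ) (Finset.mem_range.1 hT').le hT h

/-- the first return of a point to the box at the active coordinates -/
theorem lo_next (hF : Monotone F) {D : Set I} {z : I → ℕ → ℕ} {T₀ T₁ : ℕ}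
    (h1 : Lo F T₁ {γ | ∃ δ ∈ F T₀, δ ∈ D ∧ γ ≤ δ} z)
    (hmin : ∀ T, T₀ < T → T < T₁ → ¬ Lo F T {γ | ∃ δ ∈ F T₀, δ ∈ D ∧ γ ≤ δ} z) :
    (∀ γ ∈ D, (¬ ∃ δ ∈ F T₀, δ ∈ D ∧ γ ≤ δ) → clk F γ T₁ = []) ∧ Lo F T₁ D z := by
  have key : ∀ γ ∈ D, (¬ ∃ δ ∈ F T₀, δ ∈ D ∧ γ ≤ δ) → clk F γ T₁ = [] := by
    intro γ hγ hγ'
    refine clk_eq_nil fun T' hT' h2 h3 => ?_
    rcases le_or_gt T' T₀ with h4 | h4
    · exact hγ' ⟨γ, hF h4 h2, hγ, le_rfl⟩
    · refine hmin T' h4 hT' fun δ hδ => mem_cyl_of_suffix (h3 δ ?_) (h1 δ hδ)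
      by_contra hcon
      obtain ⟨δ', h5, h6, h7⟩ := hδ
      exact hγ' ⟨δ', h5, h6, (not_lt.1 hcon).trans h7⟩
  refine ⟨key, fun γ hγ => ?_⟩
  by_cases h2 : ∃ δ ∈ F T₀, δ ∈ D ∧ γ ≤ δ
  · exact h1 γ h2
  · rw [key γ hγ h2, cyl_nil]
    trivial

/-- every point is in infinitely many boxes -/
theorem exists_lo_aux (hF : Monotone F) (z : I → ℕ → ℕ) (D : Set I)
    (hD : ∀ b ∈ D, ∀ N, ∃ T ≥ N, Lo F T (Iic b) z) (N : ℕ) : ∃ T ≥ N, Lo F T D z := by
  classical
  have hstep : ∀ T₀, ∃ T₁ > T₀, Lo F T₁ D z := by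
    intro T₀
    have h1 : ∃ T > T₀, Lo F T {γ | ∃ δ ∈ F T₀, δ ∈ D ∧ γ ≤ δ} z := by
      by_cases hne : ((F T₀).filter fun δ => δ ∈ D).Nonempty
      · have h2 := Finset.max'_mem _ hne
        rw [Finset.mem_filter] at h2
        obtain ⟨T, hT, h3⟩ := hD _ h2.2 (T₀ + 1)
        refine ⟨T, hT, h3.mono ?_⟩
        rintro γ ⟨δ, h4, h5, h6⟩
        exact h6.trans (Finset.le_max' _ _ (Finset.mem_filter.2 ⟨h4, h5⟩))
      · refine ⟨T₀ + 1, Nat.lt_succ_self _, ?_⟩
        rintro γ ⟨δ, h4, h5, h6⟩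
        exact absurd ⟨δ, Finset.mem_filter.2 ⟨h4, h5⟩⟩ hne
    have h3 := Nat.find_spec h1
    refine ⟨Nat.find h1, h3.1, (lo_next hF h3.2 fun T h4 h5 h6 => ?_).2⟩
    exact Nat.find_min h1 h5 ⟨h4, h6⟩
  induction N with
  | zero => exact ⟨0, le_rfl, lo_zero F D z⟩
  | succ N ih =>
    obtain ⟨T, hT, _⟩ := ih
    obtain ⟨T₁, hT₁, h⟩ := hstep T
    exact ⟨T₁, by omega, h⟩

theorem exists_lo_Iic (hF : Monotone F) (z : I → ℕ → ℕ) (γ : I) :
    ∀ N, ∃ T ≥ N, Lo F T (Iic γ) z := by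
  classical
  induction γ using WellFoundedLT.induction with
  | ind γ ih =>
    intro N
    have h1 := exists_lo_aux hF z (Iio γ) ih
    by_cases hγ : ∃ T, γ ∈ F T
    · obtain ⟨T₀, hT₀⟩ := hγ
      let p : ℕ → Prop := fun T' => γ ∈ F T' ∧ Lo F T' (Iio γ) z
      have hp : {T' | p T'}.Infinite := by
        rw [Set.infinite_iff_exists_gt]
        intro n
        obtain ⟨T, hT, h2⟩ := h1 (max (n + 1) T₀)
        exact ⟨T, ⟨hF ((le_max_right _ _).trans hT) hT₀, h2⟩, (le_max_left _ _).trans hT⟩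
      let s := pre (z γ) N
      let T := Nat.nth p (code s)
      have h2 : p T := Nat.nth_mem_of_infinite hp _
      have h3 : Nat.count p T = code s := Nat.count_nth_of_infinite hp _
      have h4 : clk F γ T = s := by
        rw [clk_count h2.2]
        show nd (Nat.count p T) = s
        rw [h3, nd_code]
      refine ⟨T, ?_, fun δ hδ => ?_⟩
      · have h5 : code s ≤ T := (Nat.nth_strictMono hp).le_apply
        have h6 := length_le_code s
        rw [length_pre] at h6
        exact h6.trans h5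
      · rcases (mem_Iic.1 hδ).lt_or_eq with h5 | h5
        · exact h2.2 δ h5
        · rw [h5, h4]
          exact self_mem _ _
    · obtain ⟨T, hT, h2⟩ := h1 N
      refine ⟨T, hT, fun δ hδ => ?_⟩
      rcases (mem_Iic.1 hδ).lt_or_eq with h5 | h5
      · exact h2 δ h5
      · rw [h5, clk_of_notMem' hF fun h => hγ ⟨T, h⟩, cyl_nil]
        trivial

theorem exists_lo (hF : Monotone F) (z : I → ℕ → ℕ) (D : Set I) (N : ℕ) :
    ∃ T ≥ N, Lo F T D z :=
  exists_lo_aux hF z D (fun b _ => exists_lo_Iic hF z b) N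

/-! ### the boxes -/

theorem finite_clk (F : ℕ → Finset I) (T : ℕ) : {γ | clk F γ T ≠ []}.Finite := by
  classical
  refine ((Finset.range T).biUnion F).finite_toSet.subset fun γ hγ => ?_
  by_contra h
  refine hγ (clk_eq_nil fun T' hT' h1 => ?_)
  exact absurd (Finset.mem_biUnion.2 ⟨T', Finset.mem_range.2 hT', h1⟩) h

/-- the nodes of the time `T` -/
noncomputable def tN (F : ℕ → Finset I) (T : ℕ) : Nd I := ⟨fun γ => clk F γ T, finite_clk F T⟩

theorem tN_apply (F : ℕ → Finset I) (T : ℕ) (γ : I) : tN F T γ = clk F γ T := rfl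

theorem mem_box {T : ℕ} {z : I → ℕ → ℕ} : z ∈ Box (tN F T) ↔ Lo F T univ z :=
  ⟨fun h γ _ => h γ, fun h γ => h γ trivial⟩

open Classical in
/-- the parent of the time `T`: the last earlier time with a larger box -/
noncomputable def par (F : ℕ → Finset I) (T : ℕ) : ℕ :=
  Nat.findGreatest (fun T' => T' < T ∧ ∀ γ, clk F γ T' <:+ clk F γ T) T

theorem par_spec (F : ℕ → Finset I) {T : ℕ} (hT : 0 < T) :
    par F T < T ∧ ∀ γ, clk F γ (par F T) <:+ clk F γ T := by
  classical
  exact Nat.findGreatest_spec (P := fun T' => T' < T ∧ ∀ γ, clk F γ T' <:+ clk F γ T)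
    (Nat.zero_le T) ⟨hT, fun γ => by rw [clk_zero]; exact List.nil_suffix⟩

theorem not_box {T M : ℕ} (h : par F T < M) (hM : M < T) :
    ¬ ∀ γ, clk F γ M <:+ clk F γ T := by
  classical
  intro h1
  exact absurd (Nat.le_findGreatest (P := fun T' => T' < T ∧ ∀ γ, clk F γ T' <:+ clk F γ T)
    hM.le ⟨hM, h1⟩) (not_le.2 h)

/-- between the parent and `T`, points of the box of `T` are never in the box at the coordinates
below the ones which are active for the parent; and `T` has no nodes at the other coordinates -/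
theorem par_between (hF : Monotone F) {T : ℕ} (hT : 0 < T) {z : I → ℕ → ℕ}
    (hz : Lo F T univ z) :
    (∀ γ, (¬ ∃ δ ∈ F (par F T), γ ≤ δ) → clk F γ T = []) ∧
      ∀ M, par F T < M → M < T → ¬ Lo F M {γ | ∃ δ ∈ F (par F T), γ ≤ δ} z := by
  classical
  have e : {γ | ∃ δ ∈ F (par F T), δ ∈ (univ : Set I) ∧ γ ≤ δ} =
      {γ | ∃ δ ∈ F (par F T), γ ≤ δ} := by
    ext γ
    simp
  have h0 := (par_spec F hT).1
  have hex : ∃ T' > par F T, Lo F T' {γ | ∃ δ ∈ F (par F T), δ ∈ (univ : Set I) ∧ γ ≤ δ} z :=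
    ⟨T, h0, hz.mono (subset_univ _)⟩
  have h1 := Nat.find_spec hex
  have h2 : Nat.find hex ≤ T := Nat.find_min' hex ⟨h0, hz.mono (subset_univ _)⟩
  have h3 := lo_next (D := univ) hF h1.2 fun M h4 h5 h6 => Nat.find_min hex h5 ⟨h4, h6⟩
  have h4 : Nat.find hex = T := by
    by_contra hne
    have h5 : Nat.find hex < T := lt_of_le_of_ne h2 hne
    exact not_box h1.1 h5 fun γ => clk_suffix isLowerSet_univ h5.le hz h3.2 γ trivial
  rw [h4] at h3
  refine ⟨fun γ hγ => h3.1 γ trivial ?_, fun M hM hMT h5 => ?_⟩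
  · rintro ⟨δ, h5, _, h6⟩
    exact hγ ⟨δ, h5, h6⟩
  · rw [← e] at h5
    rw [← h4] at hMT
    exact Nat.find_min hex hMT ⟨hM, h5⟩

end Pool.Agent.ML45
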