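import Pool.Agent.ML45.Hm

/-!
# Neighbourhoods, and the action below a node
-/

namespace Pool.Agent.ML45

open Set
open Pool.Agent.SP45 (pre cyl pre_succ pre_zero length_pre pre_eq_iff mem_cyl mem_cyl_pre self_mem
  cyl_nil mem_cyl_cons cyl_nonempty cyl_anti)

variable {I : Type*} [LinearOrder I]

/-- a node at each coordinate, almost all of them empty -/
def Fin0 (t : I → List ℕ) : Prop := {γ | t γ ≠ []}.Finite

/-- nodes of finitely many coordinates -/
structure Nd (I : Type*) where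
  /-- the nodes -/
  t : I → List ℕ
  fin : {γ | t γ ≠ []}.Finite

instance : CoeFun (Nd I) fun _ => I → List ℕ := ⟨Nd.t⟩

/-- the box given by `t` -/
def Box (t : I → List ℕ) : Set (I → ℕ → ℕ) := {z | ∀ γ, z γ ∈ cyl (t γ)}

/-- the map of `I → ℕ → ℕ` onto the box given by `t` -/
noncomputable def E (t : Nd I) : Hm I where
  a := fun γ _ s => s ++ t γ
  emb := fun γ _ => isEmb_append (t γ)
  low := fun _ _ _ _ => rfl
  lc := fun _ _ _ => ⟨∅, 0, fun _ _ => rfl⟩
  supp := by
    refine ⟨{γ | t γ ≠ []}, t.fin.countable, fun γ hγ z => ?_, fun _ _ _ _ => rfl⟩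
    have : t γ = [] := not_not.1 hγ
    funext s
    rw [this, List.append_nil]
    rfl

theorem E_a (t : Nd I) (γ : I) (z : I → ℕ → ℕ) (s : List ℕ) : (E t).a γ z s = s ++ t γ := rfl

theorem E_map (t : Nd I) (z : I → ℕ → ℕ) (γ : I) : E t z γ = app (t γ) (z γ) := rfl

theorem E_mem (t : Nd I) (z : I → ℕ → ℕ) : E t z ∈ Box t := fun γ => app_mem (t γ) (z γ)

/-- the inverse of `E t` -/
def dr (t : I → List ℕ) (z : I → ℕ → ℕ) : I → ℕ → ℕ := fun γ => tl (t γ) (z γ)

theorem E_dr {t : Nd I} {z : I → ℕ → ℕ} (h : z ∈ Box t) : E t (dr t z) = z :=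
  funext fun γ => app_tl (h γ)

theorem dr_E (t : Nd I) (z : I → ℕ → ℕ) : dr t (E t z) = z :=
  funext fun γ => tl_app (t γ) (z γ)

theorem E_comp (t u : Nd I) (h : {γ | u γ ++ t γ ≠ []}.Finite) :
    E t * E u = E ⟨fun γ => u γ ++ t γ, h⟩ := by
  refine Hm.ext' fun γ z s => ?_
  rw [Hm.mul_a]
  show (s ++ u γ) ++ t γ = s ++ (u γ ++ t γ)
  rw [List.append_assoc]

/-- the action of `e` below the node `t` -/
def loc (t : List ℕ) (e : List ℕ → List ℕ) (s : List ℕ) : List ℕ :=
  open Classical in if t <:+ s then e (s.take (s.length - t.length)) ++ t else s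

theorem loc_append (t : List ℕ) (e : List ℕ → List ℕ) (s : List ℕ) :
    loc t e (s ++ t) = e s ++ t := by
  rw [loc, if_pos (List.suffix_append s t)]
  simp

theorem loc_of_not {t : List ℕ} (e : List ℕ → List ℕ) {s : List ℕ} (h : ¬ t <:+ s) :
    loc t e s = s := by
  rw [loc, if_neg h]

theorem loc_id (t : List ℕ) : loc t id = id := by
  funext s
  by_cases h : t <:+ s
  · obtain ⟨u, rfl⟩ := h
    rw [loc_append]; rfl
  · rw [loc_of_not _ h]; rfl

theorem isEmb_loc (t : List ℕ) {e : List ℕ → List ℕ} (h : IsEmb e) : IsEmb (loc t e) := by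
  intro s
  by_cases hs : t <:+ s
  · obtain ⟨u, rfl⟩ := hs
    obtain ⟨d, hd, hd'⟩ := h u
    refine ⟨d, hd, fun k => ?_⟩
    rw [loc_append, show k :: (u ++ t) = (k :: u) ++ t from rfl, loc_append]
    obtain ⟨v, hv⟩ := hd' k
    exact ⟨v, by rw [← hv]; simp⟩
  · refine ⟨_root_.id, strictMono_id, fun k => ?_⟩
    rw [loc_of_not _ hs]
    by_cases hk : t <:+ (k :: s)
    · have h1 : t = k :: s := by
        rcases List.suffix_cons_iff.1 hk with h1 | h1
        · exact h1
        · exact absurd h1 hs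
      have h2 : loc t e (k :: s) = e [] ++ (k :: s) := by
        rw [← h1]
        have := loc_append t e []
        rw [List.nil_append] at this
        exact this
      rw [h2]
      exact List.suffix_append _ _
    · rw [loc_of_not _ hk]
      exact List.suffix_refl _

/-- nodes which are not above `t` are fixed and `t` is fixed as an initial segment -/
theorem suffix_loc {t : List ℕ} (e : List ℕ → List ℕ) {s : List ℕ} (h : t <:+ s) :
    t <:+ loc t e s := by
  obtain ⟨u, rfl⟩ := h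
  rw [loc_append]
  exact List.suffix_append _ _

open Classical in
/-- the action of `K` on the box given by `t`: at the coordinate `γ` it is the identity unless `z`
is in the box at all smaller coordinates, and then it is the action of `K` below `t γ` -/
noncomputable def J (t : Nd I) (K : Hm I) : Hm I where
  a := fun γ z => if ∀ δ < γ, z δ ∈ cyl (t δ) then loc (t γ) (K.a γ (dr t z)) else id
  emb := fun γ z => by
    split_ifs
    · exact isEmb_loc _ (K.emb _ _)
    · exact IsEmb.id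
  low := fun γ z z' h => by
    have h1 : (∀ δ < γ, z δ ∈ cyl (t δ)) ↔ ∀ δ < γ, z' δ ∈ cyl (t δ) :=
      forall₂_congr fun δ hδ => by rw [h δ hδ]
    rw [K.low γ (dr t z) (dr t z') fun δ hδ => by rw [dr, dr, h δ hδ]]
    simp only [h1]
  lc := fun γ s z => by
    classical
    -- the support of `t`
    let T0 : Finset I := t.fin.toFinset
    let n0 : ℕ := T0.sup fun δ => (t δ).length
    have key : ∀ z', Agr T0 n0 z z' → ((∀ δ < γ, z δ ∈ cyl (t δ)) ↔ ∀ δ < γ, z' δ ∈ cyl (t δ)) := by
      intro z' hz'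
      refine forall₂_congr fun δ hδ => ?_
      by_cases h : t δ = []
      · rw [h, cyl_nil]
        exact iff_of_true trivial trivial
      · have h1 : δ ∈ T0 := t.fin.mem_toFinset.2 h
        have h2 := pre_eq_of_le (Finset.le_sup (f := fun δ => (t δ).length) h1) (hz' δ h1)
        rw [mem_cyl, mem_cyl, h2]
    obtain ⟨T1, n1, h1⟩ := K.lc γ (s.take (s.length - (t γ).length)) (dr t z)
    refine ⟨T0 ∪ T1, max n0 (T1.sup fun δ => (t δ).length + n1), fun z' hz' => ?_⟩
    have h2 := key z' (hz'.mono Finset.subset_union_left (le_max_left _ _))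
    have h3 : Agr T1 n1 (dr t z) (dr t z') := by
      intro δ hδ
      have h4 := pre_eq_of_le ((Finset.le_sup (f := fun δ => (t δ).length + n1) hδ).trans
        (le_max_right n0 _)) (hz' δ (Finset.mem_union_right _ hδ))
      rw [pre_eq_iff] at h4 ⊢
      exact fun j hj => h4 _ (Nat.add_lt_add_left hj _)
    have h5 := h1 _ h3
    beta_reduce at h5 ⊢
    simp only [← h2]
    split_ifs
    · rw [loc, loc, h5]
    · rfl
  supp := by
    obtain ⟨C, hC, h1, h2⟩ := K.supp
    refine ⟨C ∪ {γ | t γ ≠ []}, hC.union t.fin.countable, fun γ hγ z => ?_, fun γ z z' h => ?_⟩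
    · rw [h1 γ (fun h => hγ (Or.inl h)), loc_id]
      split_ifs <;> rfl
    · have h3 : (∀ δ < γ, z δ ∈ cyl (t δ)) ↔ ∀ δ < γ, z' δ ∈ cyl (t δ) := by
        refine forall₂_congr fun δ hδ => ?_
        by_cases h4 : t δ = []
        · rw [h4, cyl_nil]
          exact iff_of_true trivial trivial
        · rw [h δ (Or.inr h4)]
      rw [h2 γ (dr t z) (dr t z') fun δ hδ => by rw [dr, dr, h δ (Or.inl hδ)]]
      simp only [h3]

open Classical in
theorem J_a (t : Nd I) (K : Hm I) (γ : I) (z : I → ℕ → ℕ) : (J t K).a γ z =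
    if ∀ δ < γ, z δ ∈ cyl (t δ) then loc (t γ) (K.a γ (dr t z)) else id := rfl

/-- on the box, `J t K` acts as `K` -/
theorem J_mul_E (t : Nd I) (K : Hm I) : J t K * E t = E t * K := by
  refine Hm.ext' fun γ z s => ?_
  rw [Hm.mul_a, Hm.mul_a, J_a, if_pos fun δ _ => E_mem t z δ, dr_E]
  show loc (t γ) (K.a γ z) (s ++ t γ) = K.a γ z s ++ t γ
  rw [loc_append]

theorem Act.J {D : Set I} {K : Hm I} (h : Act D K) (t : Nd I) : Act D (J t K) := by
  intro γ hγ z
  rw [J_a, h γ hγ, loc_id]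
  split_ifs <;> rfl

/-- elements with image in a box -/
theorem exists_factor {A : Hm I} {t : Nd I} (h : ∀ γ z, t γ <:+ A.a γ z []) :
    ∃ A', A = E t * A' := by
  have h0 : ∀ γ z s, t γ <:+ A.a γ z s := fun γ z s =>
    (h γ z).trans ((A.emb γ z).mono List.nil_suffix)
  have h1 : ∀ γ z s, (A.a γ z s).take ((A.a γ z s).length - (t γ).length) ++ t γ = A.a γ z s := by
    intro γ z s
    obtain ⟨u, hu⟩ := h0 γ z s
    rw [← hu]
    simp
  refine ⟨{
    a := fun γ z s => (A.a γ z s).take ((A.a γ z s).length - (t γ).length)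
    emb := fun γ z s => ?_
    low := fun γ z z' hz => by rw [A.low γ z z' hz]
    lc := fun γ s z => ?_
    supp := ?_ }, ?_⟩
  · obtain ⟨d, hd, hd'⟩ := A.emb γ z s
    refine ⟨d, hd, fun k => ?_⟩
    have h2 := hd' k
    rw [← h1 γ z s, ← h1 γ z (k :: s), ← List.cons_append] at h2
    exact (List.suffix_append_self_iff).1 h2
  · obtain ⟨T, n, hT⟩ := A.lc γ s z
    refine ⟨T, n, fun z' hz' => ?_⟩
    have := hT z' hz'
    beta_reduce at this ⊢
    rw [this]
  · obtain ⟨C, hC, h2, h3⟩ := A.supp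
    refine ⟨C, hC, fun γ hγ z => ?_, fun γ z z' hz => by rw [h3 γ z z' hz]⟩
    have h4 : t γ = [] := by
      have := h γ z
      rw [h2 γ hγ z] at this
      exact List.suffix_nil.1 this
    funext s
    rw [h2 γ hγ z, h4]
    simp
  · refine Hm.ext' fun γ z s => ?_
    rw [Hm.mul_a]
    exact (h1 γ z s).symm

/-- boxes around a point on which an element has its image in a given box -/
theorem exists_near {A : Hm I} {t : Nd I} {z₀ : I → ℕ → ℕ} (h : A z₀ ∈ Box t) :
    ∃ (u : Nd I) (A' : Hm I), A * E u = E t * A' ∧ z₀ ∈ Box u := by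
  classical
  let T0 : Finset I := t.fin.toFinset
  -- a neighbourhood for each coordinate
  have h1 : ∀ γ, ∃ (T : Finset I) (n : ℕ), (t γ).length ≤ n ∧ ∀ z', Agr T n z₀ z' →
      t γ <:+ A.a γ z' (pre (z₀ γ) n) := by
    intro γ
    obtain ⟨T, n, hT⟩ := A.lc γ (pre (z₀ γ) (t γ).length) z₀
    refine ⟨T, max n (t γ).length, le_max_right _ _, fun z' hz' => ?_⟩
    have h2 := hT z' (hz'.mono subset_rfl (le_max_left _ _))
    have h3 : t γ <:+ A.a γ z₀ (pre (z₀ γ) (t γ).length) :=
      suffix_of_mem (h γ) (lift_mem (A.emb γ z₀) (z₀ γ) _)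
        (by simpa using (A.emb γ z₀).len (pre (z₀ γ) (t γ).length))
    beta_reduce at h2
    rw [← h2] at h3
    exact h3.trans ((A.emb γ z').mono (suffix_pre (le_max_right _ _)))
  choose T n hn hT using h1
  let T1 : Finset I := T0 ∪ T0.biUnion T
  let m : ℕ := T0.sup n
  let u : Nd I := ⟨fun γ => if γ ∈ T1 then pre (z₀ γ) m else [], by
    refine T1.finite_toSet.subset fun γ hγ => ?_
    by_contra h2
    have h3 : γ ∉ T1 := h2
    exact hγ (if_neg h3)⟩
  have hu : ∀ γ ∈ T1, u γ = pre (z₀ γ) m := fun γ hγ => if_pos hγ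
  have hu' : ∀ γ ∉ T1, u γ = [] := fun γ hγ => if_neg hγ
  have h2 : ∀ γ z, t γ <:+ (A * E u).a γ z [] := by
    intro γ z
    by_cases hγ : t γ = []
    · rw [hγ]; exact List.nil_suffix
    · have hγ0 : γ ∈ T0 := t.fin.mem_toFinset.2 hγ
      rw [Hm.mul_a]
      show t γ <:+ A.a γ (E u z) ([] ++ u γ)
      rw [List.nil_append, hu γ (Finset.mem_union_left _ hγ0)]
      have hm : n γ ≤ m := Finset.le_sup (f := n) hγ0
      refine (hT γ (E u z) fun δ hδ => ?_).trans ((A.emb γ _).mono (suffix_pre hm))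
      have hδ1 : δ ∈ T1 := Finset.mem_union_right _ (Finset.mem_biUnion.2 ⟨γ, hγ0, hδ⟩)
      have h3 := E_mem u z δ
      rw [hu δ hδ1, mem_cyl_pre] at h3
      exact pre_eq_of_le hm h3
  obtain ⟨A', hA'⟩ := exists_factor h2
  refine ⟨u, A', hA', fun γ => ?_⟩
  by_cases hγ : γ ∈ T1
  · rw [hu γ hγ]; exact self_mem _ _
  · rw [hu' γ hγ, cyl_nil]; trivial

end Pool.Agent.ML45
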