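import Pool.Agent.SP45.Comb

/-!
# Embeddings of the tree of finite sequences

Nodes are lists of natural numbers in reversed order: `k :: s` is the child of `s` with the last
entry `k`, and initial segments are suffixes.
-/

namespace Pool.Agent.ML45

open Set
open Pool.Agent.SP45 (pre cyl pre_succ pre_zero length_pre pre_eq_iff mem_cyl mem_cyl_pre self_mem
  cyl_nil mem_cyl_cons cyl_nonempty cyl_anti)

/-! ### initial segments -/

theorem suffix_pre {y : ℕ → ℕ} {i j : ℕ} (h : i ≤ j) : pre y i <:+ pre y j := by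
  induction j with
  | zero =>
    rw [Nat.le_zero.1 h]
  | succ j ih =>
    rcases Nat.le_succ_iff.1 h with h | h
    · exact (ih h).trans (List.suffix_cons _ _)
    · rw [h]

theorem eq_pre_of_mem {y : ℕ → ℕ} {t : List ℕ} (h : y ∈ cyl t) : t = pre y t.length := h.symm

theorem suffix_of_mem {y : ℕ → ℕ} {s t : List ℕ} (hs : y ∈ cyl s) (ht : y ∈ cyl t)
    (h : s.length ≤ t.length) : s <:+ t := by
  rw [eq_pre_of_mem hs, eq_pre_of_mem ht]
  exact suffix_pre h

theorem suffix_or {y : ℕ → ℕ} {s t : List ℕ} (hs : y ∈ cyl s) (ht : y ∈ cyl t) :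
    s <:+ t ∨ t <:+ s :=
  (le_total s.length t.length).imp (suffix_of_mem hs ht) (suffix_of_mem ht hs)

theorem pre_eq_of_suffix {y : ℕ → ℕ} {s : List ℕ} {n : ℕ} (h : s <:+ pre y n) :
    s = pre y s.length := by
  induction n with
  | zero =>
    rw [pre_zero, List.suffix_nil] at h
    rw [h]; rfl
  | succ n ih =>
    rw [pre_succ] at h
    rcases List.suffix_cons_iff.1 h with h | h
    · rw [h, List.length_cons, length_pre, pre_succ]
    · exact ih h

theorem mem_cyl_of_suffix {y : ℕ → ℕ} {s t : List ℕ} (h : s <:+ t) (ht : y ∈ cyl t) :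
    y ∈ cyl s := by
  rw [eq_pre_of_mem ht] at h
  exact (pre_eq_of_suffix h).symm

theorem cyl_subset_iff {s t : List ℕ} : cyl t ⊆ cyl s ↔ s <:+ t := by
  constructor
  · intro h
    by_contra hcon
    obtain ⟨y, hy⟩ := cyl_nonempty t
    have h1 := suffix_or (h hy) hy
    rcases h1 with h1 | h1
    · exact hcon h1
    · obtain ⟨u, hu⟩ := h1
      rcases List.eq_nil_or_concat u with rfl | ⟨v, k, rfl⟩
      · rw [List.nil_append] at hu
        rw [hu] at hcon
        exact hcon (List.suffix_refl _)
      · -- a branch through `t` leaving `s`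
        obtain ⟨z, hz⟩ := cyl_nonempty ((k + 1) :: t)
        have h2 := h (mem_cyl_cons.1 hz).2
        have h3 : (k :: t) <:+ s := by
          rw [← hu]
          exact ⟨v, by simp⟩
        have h4 := mem_cyl_of_suffix h3 h2
        have h5 := (mem_cyl_cons.1 hz).1
        have h6 := (mem_cyl_cons.1 h4).1
        omega
  · exact fun h y hy => mem_cyl_of_suffix h hy

/-- two nodes of which none is an initial segment of the other have no common branch -/
theorem cyl_disjoint {s t : List ℕ} (h : ¬ s <:+ t) (h' : ¬ t <:+ s) {y : ℕ → ℕ}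
    (hs : y ∈ cyl s) : y ∉ cyl t := fun ht => (suffix_or hs ht).elim h h'

theorem eq_of_mem_all {y z : ℕ → ℕ} (h : ∀ n, pre y n = pre z n) : y = z := by
  funext i
  have := h (i + 1)
  rw [pre_succ, pre_succ, List.cons.injEq] at this
  exact this.1

/-- chains of nodes have limits -/
theorem exists_limit {u : ℕ → List ℕ} (hu : ∀ n, u n <:+ u (n + 1)) (hl : ∀ n, n ≤ (u n).length) :
    ∃ y, ∀ n, y ∈ cyl (u n) := by
  have hmono : ∀ m n, m ≤ n → u m <:+ u n := by
    intro m n h
    induction n with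
    | zero => rw [Nat.le_zero.1 h]
    | succ n ih =>
      rcases Nat.le_succ_iff.1 h with h | h
      · exact (ih h).trans (hu n)
      · rw [h]
  refine ⟨fun i => ((u (i + 1)).reverse.getD i 0), fun n => ?_⟩
  have key : ∀ i n, i < (u n).length → (u (i + 1)).reverse.getD i 0 = (u n).reverse.getD i 0 := by
    intro i n hi
    have h1 : i < (u (i + 1)).length := lt_of_lt_of_le (Nat.lt_succ_self i) (hl (i + 1))
    rcases le_total (i + 1) n with h | h
    · obtain ⟨v, hv⟩ := hmono _ _ h
      rw [← hv, List.reverse_append, List.getD_append _ _ _ _ (by simpa using h1)]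
    · obtain ⟨v, hv⟩ := hmono _ _ h
      rw [← hv, List.reverse_append, List.getD_append _ _ _ _ (by simpa using hi)]
  rw [mem_cyl]
  have h2 : ∀ t : List ℕ, ∀ y : ℕ → ℕ, (∀ i < t.length, y i = t.reverse.getD i 0) →
      pre y t.length = t := by
    intro t
    induction t with
    | nil => intro y _; rfl
    | cons k t ih =>
      intro y hy
      rw [List.length_cons, pre_succ]
      have h3 : y t.length = k := by
        rw [hy t.length (by simp)]
        simp [List.getD_eq_getElem?_getD]
      rw [h3, ih y fun i hi => ?_]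
      rw [hy i (by simp; omega), List.reverse_cons, List.getD_append _ _ _ _ (by simpa using hi)]
  exact h2 _ _ fun i hi => key i n hi

/-! ### embeddings -/

/-- `e` is an embedding: it maps the children of each node `s` to nodes above different children
of `e s`, in increasing order -/
def IsEmb (e : List ℕ → List ℕ) : Prop :=
  ∀ s, ∃ d : ℕ → ℕ, StrictMono d ∧ ∀ k, (d k :: e s) <:+ e (k :: s)

theorem IsEmb.id : IsEmb id := fun _ => ⟨_root_.id, strictMono_id, fun _ => List.suffix_refl _⟩

theorem IsEmb.child {e : List ℕ → List ℕ} (h : IsEmb e) (k : ℕ) (s : List ℕ) :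
    e s <:+ e (k :: s) := by
  obtain ⟨d, _, hd⟩ := h s
  exact (List.suffix_cons _ _).trans (hd k)

theorem IsEmb.mono {e : List ℕ → List ℕ} (h : IsEmb e) {s t : List ℕ} (hst : s <:+ t) :
    e s <:+ e t := by
  obtain ⟨u, rfl⟩ := hst
  induction u with
  | nil => exact List.suffix_refl _
  | cons k u ih => exact ih.trans (h.child k _)

theorem IsEmb.len {e : List ℕ → List ℕ} (h : IsEmb e) (s : List ℕ) : s.length ≤ (e s).length := by
  induction s with
  | nil => exact Nat.zero_le _
  | cons k s ih =>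
    obtain ⟨d, _, hd⟩ := h s
    have h1 := (hd k).length_le
    rw [List.length_cons] at h1 ⊢
    omega

theorem suffix_cases (s t : List ℕ) : s <:+ t ∨ t <:+ s ∨
    ∃ u k l, k ≠ l ∧ (k :: u) <:+ s ∧ (l :: u) <:+ t := by
  induction s with
  | nil => exact Or.inl (List.nil_suffix)
  | cons k s ih =>
    rcases ih with h | h | ⟨u, k', l, h1, h2, h3⟩
    · obtain ⟨v, rfl⟩ := h
      rcases List.eq_nil_or_concat v with rfl | ⟨w, l, rfl⟩
      · exact Or.inr (Or.inl (List.suffix_cons _ _))
      · by_cases hkl : k = l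
        · left
          rw [hkl]
          exact ⟨w, by simp⟩
        · right; right
          exact ⟨s, k, l, hkl, List.suffix_refl _, ⟨w, by simp⟩⟩
    · exact Or.inr (Or.inl (h.trans (List.suffix_cons _ _)))
    · exact Or.inr (Or.inr ⟨u, k', l, h1, h2.trans (List.suffix_cons _ _), h3⟩)

theorem not_both {u s : List ℕ} {k l : ℕ} (h : k ≠ l) (h1 : (k :: u) <:+ s) :
    ¬ (l :: u) <:+ s := by
  intro h2
  obtain ⟨y, hy⟩ := cyl_nonempty s
  have h3 := (mem_cyl_cons.1 (mem_cyl_of_suffix h1 hy)).1
  have h4 := (mem_cyl_cons.1 (mem_cyl_of_suffix h2 hy)).1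
  exact h (h3.symm.trans h4)

theorem IsEmb.suffix_iff {e : List ℕ → List ℕ} (h : IsEmb e) {s t : List ℕ} :
    e s <:+ e t ↔ s <:+ t := by
  refine ⟨fun h1 => ?_, h.mono⟩
  rcases suffix_cases s t with h2 | h2 | ⟨u, k, l, hkl, h2, h3⟩
  · exact h2
  · obtain ⟨v, rfl⟩ := h2
    rcases v with _ | ⟨k, v⟩
    · exact List.suffix_refl _
    · exfalso
      obtain ⟨d, _, hd⟩ := h (v ++ t)
      have h4 := (hd k).length_le
      have h5 := (h.mono (⟨v, rfl⟩ : t <:+ v ++ t)).length_le
      have h6 := h1.length_le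
      rw [List.length_cons] at h4
      rw [List.cons_append] at h6
      omega
  · exfalso
    obtain ⟨d, hd, hd'⟩ := h u
    have h4 := (hd' k).trans ((h.mono h2).trans h1)
    have h5 := (hd' l).trans (h.mono h3)
    exact not_both (fun e => hkl (hd.injective e)) h4 h5

theorem suffix_antisymm {s t : List ℕ} (h : s <:+ t) (h' : t <:+ s) : s = t :=
  h.eq_of_length (le_antisymm h.length_le h'.length_le)

theorem IsEmb.inj {e : List ℕ → List ℕ} (h : IsEmb e) : Function.Injective e := fun _ _ hst =>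
  suffix_antisymm (h.suffix_iff.1 (hst ▸ List.suffix_refl _))
    (h.suffix_iff.1 (hst ▸ List.suffix_refl _))

theorem IsEmb.comp {e f : List ℕ → List ℕ} (he : IsEmb e) (hf : IsEmb f) : IsEmb (e ∘ f) := by
  intro s
  obtain ⟨d, hd, hd'⟩ := hf s
  obtain ⟨d2, hd2, hd2'⟩ := he (f s)
  exact ⟨d2 ∘ d, hd2.comp hd, fun k => (hd2' (d k)).trans (he.mono (hd' k))⟩

/-- the digits of an embedding increase -/
theorem IsEmb.digit_lt {e : List ℕ → List ℕ} (h : IsEmb e) {s : List ℕ} {k l a b : ℕ}
    (hk : (a :: e s) <:+ e (k :: s)) (hl : (b :: e s) <:+ e (l :: s)) (hkl : k < l) : a < b := by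
  obtain ⟨d, hd, hd'⟩ := h s
  have h1 : a = d k := by
    by_contra hne
    exact not_both hne hk (hd' k)
  have h2 : b = d l := by
    by_contra hne
    exact not_both hne hl (hd' l)
  rw [h1, h2]
  exact hd hkl

/-! ### the map of branches -/

theorem exists_lift {e : List ℕ → List ℕ} (h : IsEmb e) (x : ℕ → ℕ) :
    ∃ y, ∀ n, y ∈ cyl (e (pre x n)) :=
  exists_limit (u := fun n => e (pre x n)) (fun n => h.child _ _)
    (fun n => by simpa using h.len (pre x n))

open Classical in
/-- the map of branches given by an embedding -/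
noncomputable def lift (e : List ℕ → List ℕ) (x : ℕ → ℕ) : ℕ → ℕ :=
  if h : IsEmb e then (exists_lift h x).choose else x

theorem lift_mem {e : List ℕ → List ℕ} (h : IsEmb e) (x : ℕ → ℕ) (n : ℕ) :
    lift e x ∈ cyl (e (pre x n)) := by
  rw [lift, dif_pos h]
  exact (exists_lift h x).choose_spec n

theorem lift_mem' {e : List ℕ → List ℕ} (h : IsEmb e) {x : ℕ → ℕ} {s : List ℕ} (hx : x ∈ cyl s) :
    lift e x ∈ cyl (e s) := by
  rw [eq_pre_of_mem hx]
  exact lift_mem h x _

theorem lift_eq {e : List ℕ → List ℕ} (h : IsEmb e) {x y : ℕ → ℕ}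
    (hy : ∀ n, y ∈ cyl (e (pre x n))) : y = lift e x := by
  refine eq_of_mem_all fun n => ?_
  have h1 := hy n
  have h2 := lift_mem h x n
  have h3 : n ≤ (e (pre x n)).length := by simpa using h.len (pre x n)
  have h4 := cyl_anti (y := y) h3
  rw [← eq_pre_of_mem h1] at h4
  exact (mem_cyl_pre.1 (h4 h2)).symm

theorem lift_cyl {e : List ℕ → List ℕ} (h : IsEmb e) {x : ℕ → ℕ} {s : List ℕ} :
    lift e x ∈ cyl (e s) ↔ x ∈ cyl s := by
  refine ⟨fun h1 => ?_, lift_mem' h⟩
  have h2 := lift_mem h x s.length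
  rcases suffix_or h1 h2 with h3 | h3
  · rw [h.suffix_iff] at h3
    exact (h3.eq_of_length (by simp)).symm
  · rw [h.suffix_iff] at h3
    exact h3.eq_of_length (by simp)

theorem lift_id (x : ℕ → ℕ) : lift id x = x :=
  (lift_eq IsEmb.id fun n => self_mem x n).symm

theorem lift_comp {e f : List ℕ → List ℕ} (he : IsEmb e) (hf : IsEmb f) (x : ℕ → ℕ) :
    lift (e ∘ f) x = lift e (lift f x) :=
  (lift_eq (he.comp hf) fun n => lift_mem' he (lift_mem hf x n)).symm

theorem lift_inj {e : List ℕ → List ℕ} (h : IsEmb e) : Function.Injective (lift e) := by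
  intro x y hxy
  refine eq_of_mem_all fun n => ?_
  have h1 : lift e y ∈ cyl (e (pre x n)) := hxy ▸ lift_mem h x n
  rw [lift_cyl h, mem_cyl_pre] at h1
  exact h1.symm

/-- the initial segments of `lift e x` depend on finitely many values of `x` -/
theorem pre_lift {e : List ℕ → List ℕ} (h : IsEmb e) (x : ℕ → ℕ) (n : ℕ) :
    pre (lift e x) n <:+ e (pre x n) := by
  have h3 : n ≤ (e (pre x n)).length := by simpa using h.len (pre x n)
  rw [eq_pre_of_mem (lift_mem h x n)]
  exact suffix_pre h3

/-! ### appending a node -/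

theorem isEmb_append (t : List ℕ) : IsEmb fun s => s ++ t :=
  fun _ => ⟨_root_.id, strictMono_id, fun _ => List.suffix_refl _⟩

/-- the branch `t ⌢ x` -/
noncomputable def app (t : List ℕ) (x : ℕ → ℕ) : ℕ → ℕ := lift (fun s => s ++ t) x

/-- the branch after the first entries -/
def tl (t : List ℕ) (x : ℕ → ℕ) : ℕ → ℕ := fun i => x (t.length + i)

theorem pre_add (x : ℕ → ℕ) (m n : ℕ) : pre x (m + n) = pre (fun i => x (m + i)) n ++ pre x m := by
  induction n with
  | zero => rfl
  | succ n ih => rw [← add_assoc, pre_succ, ih, pre_succ, List.cons_append]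

theorem app_mem (t : List ℕ) (x : ℕ → ℕ) : app t x ∈ cyl t := by
  have := lift_mem (isEmb_append t) x 0
  rw [pre_zero, List.nil_append] at this
  exact this

theorem app_mem_append (t s : List ℕ) (x : ℕ → ℕ) : app t x ∈ cyl (s ++ t) ↔ x ∈ cyl s :=
  lift_cyl (isEmb_append t)

theorem app_tl {t : List ℕ} {x : ℕ → ℕ} (h : x ∈ cyl t) : app t (tl t x) = x := by
  refine (lift_eq (isEmb_append t) fun n => ?_).symm
  show x ∈ cyl (pre (tl t x) n ++ t)
  have h1 : pre (tl t x) n ++ t = pre x (t.length + n) := by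
    rw [pre_add, ← eq_pre_of_mem h]
    rfl
  rw [h1]
  exact self_mem x _

theorem app_inj (t : List ℕ) : Function.Injective (app t) := lift_inj (isEmb_append t)

theorem tl_app (t : List ℕ) (x : ℕ → ℕ) : tl t (app t x) = x :=
  app_inj t (app_tl (app_mem t x))

theorem app_nil (x : ℕ → ℕ) : app [] x = x := by
  have : tl [] x = x := by funext i; simp [tl]
  have h := app_tl (t := []) (x := x) (by rw [cyl_nil]; trivial)
  rwa [this] at h

end Pool.Agent.ML45
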