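import Pool.Agent.ML45.Lim

/-!
# Factors which act on a lower set (module FAC)
-/

namespace Pool.Agent.ML45

open Set
open Pool.Agent.SP45 (pre cyl pre_succ pre_zero length_pre pre_eq_iff mem_cyl mem_cyl_pre self_mem
  cyl_nil mem_cyl_cons cyl_nonempty cyl_anti)

variable {I : Type*} [LinearOrder I]

/-- the nodes of `t` are at coordinates in `D` only -/
def SuppIn (D : Set I) (t : Nd I) : Prop := ∀ γ ∉ D, t γ = []

theorem act_E {D : Set I} {t : Nd I} (h : SuppIn D t) : Act D (E t) := by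
  intro γ hγ z
  funext s
  show s ++ t γ = s
  rw [h γ hγ, List.append_nil]

theorem act_of_factor {D : Set I} {t : Nd I} {A A' : Hm I} (h : A = E t * A') (hA : Act D A) :
    Act D A' := by
  intro γ hγ z
  have h1 : ∀ s, A'.a γ z s ++ t γ = s := by
    intro s
    have := congrFun (hA γ hγ z) s
    rw [h] at this
    exact this
  have h2 : t γ = [] := by
    have := h1 []
    simp only [List.append_eq_nil_iff] at this
    exact this.2
  funext s
  have := h1 s
  rw [h2, List.append_nil] at this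
  exact this

/-- a box around `z₀`, with nodes at coordinates in `D` -/
theorem exists_nbhd (D : Set I) (z₀ : I → ℕ → ℕ) (T : Finset I) (n : ℕ) :
    ∃ u : Nd I, SuppIn D u ∧ z₀ ∈ Box u ∧ ∀ δ ∈ T, δ ∈ D → u δ = pre (z₀ δ) n := by
  classical
  refine ⟨⟨fun γ => if γ ∈ T ∧ γ ∈ D then pre (z₀ γ) n else [], ?_⟩, ?_, ?_, ?_⟩
  · refine T.finite_toSet.subset fun γ hγ => ?_
    by_contra h2
    exact hγ (if_neg fun h => h2 h.1)
  · intro γ hγ
    exact if_neg fun h => hγ h.2
  · intro γ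
    show z₀ γ ∈ cyl (if γ ∈ T ∧ γ ∈ D then pre (z₀ γ) n else [])
    split_ifs
    · exact self_mem _ _
    · rw [cyl_nil]; trivial
  · intro δ hδ hδD
    exact if_pos ⟨hδ, hδD⟩

omit [LinearOrder I] in
theorem pre_of_box {u : Nd I} {z₀ z : I → ℕ → ℕ} {δ : I} {n : ℕ} (h : u δ = pre (z₀ δ) n)
    (hz : z ∈ Box u) : pre (z δ) n = pre (z₀ δ) n := by
  have h1 := hz δ
  rw [h, mem_cyl_pre] at h1
  exact h1

/-- boxes around a point on which an element has its image in a given box; everything at the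
coordinates in the lower set `D`.  The proof is that of `exists_near`, with `Hm.lc_low` in place
of `Hm.lc`, so that only coordinates `δ ≤ γ` with `t γ ≠ []` (which are in `D`) are used. -/
theorem exists_near' {D : Set I} (hD : IsLowerSet D) {A : Hm I} (hA : Act D A) {t : Nd I}
    (ht : SuppIn D t) {z₀ : I → ℕ → ℕ} (h : A z₀ ∈ Box t) :
    ∃ (u : Nd I) (A' : Hm I), A * E u = E t * A' ∧ z₀ ∈ Box u ∧ SuppIn D u ∧ Act D A' := by
  classical
  let T0 : Finset I := t.fin.toFinset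
  have hT0 : ∀ γ ∈ T0, γ ∈ D := by
    intro γ hγ
    by_contra h1
    exact t.fin.mem_toFinset.1 hγ (ht γ h1)
  -- a neighbourhood for each coordinate
  have h1 : ∀ γ, ∃ (T : Finset I) (n : ℕ), (t γ).length ≤ n ∧ ∀ z',
      (∀ δ ∈ T, δ < γ → pre (z' δ) n = pre (z₀ δ) n) →
      t γ <:+ A.a γ z' (pre (z₀ γ) n) := by
    intro γ
    obtain ⟨T, n, hT⟩ := A.lc_low γ (pre (z₀ γ) (t γ).length) z₀
    refine ⟨T, max n (t γ).length, le_max_right _ _, fun z' hz' => ?_⟩
    have h2 := hT z' fun δ hδ hδγ => pre_eq_of_le (le_max_left _ _) (hz' δ hδ hδγ)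
    have h3 : t γ <:+ A.a γ z₀ (pre (z₀ γ) (t γ).length) :=
      suffix_of_mem (h γ) (lift_mem (A.emb γ z₀) (z₀ γ) _)
        (by simpa using (A.emb γ z₀).len (pre (z₀ γ) (t γ).length))
    rw [← h2] at h3
    exact h3.trans ((A.emb γ z').mono (suffix_pre (le_max_right _ _)))
  choose T n _ hT using h1
  let m : ℕ := T0.sup n
  obtain ⟨u, hu1, hu2, hu3⟩ := exists_nbhd D z₀ (T0 ∪ T0.biUnion T) m
  have h2 : ∀ γ z, t γ <:+ (A * E u).a γ z [] := by
    intro γ z
    by_cases hγ : t γ = []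
    · rw [hγ]; exact List.nil_suffix
    · have hγ0 : γ ∈ T0 := t.fin.mem_toFinset.2 hγ
      have hm : n γ ≤ m := Finset.le_sup (f := n) hγ0
      rw [Hm.mul_a]
      show t γ <:+ A.a γ (E u z) ([] ++ u γ)
      rw [List.nil_append, hu3 γ (Finset.mem_union_left _ hγ0) (hT0 γ hγ0)]
      refine (hT γ (E u z) fun δ hδ hδγ => ?_).trans ((A.emb γ _).mono (suffix_pre hm))
      exact pre_eq_of_le hm (pre_of_box (hu3 δ (Finset.mem_union_right _
        (Finset.mem_biUnion.2 ⟨γ, hγ0, hδ⟩)) (hD hδγ.le (hT0 γ hγ0))) (E_mem u z))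
  obtain ⟨A', hA'⟩ := exists_factor h2
  exact ⟨u, A', hA', hu2, hu1, act_of_factor hA' (hA.mul (act_E hu1))⟩

end Pool.Agent.ML45
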