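import Pool.Agent.ML45.KeyM
import Pool.Agent.IN45.Main

/-!
# The model in which products with compact spaces split
-/

namespace Pool.Agent.ML45

open Pool.Agent.MAx Pool.Agent.OG45 Pool.Agent.SP45
open Pool.Agent.BVM (onT)

/-- the quotient models satisfy the positive answer to the question -/
theorem split_model (F : GG (Hm IM)) (X A Y B Z D : Md F)
    (hX : Space (In F) (nm F (onT ℕ)) X A) (hc : Compact (In F) (nm F (onT ℕ)) X A)
    (hY : Space (In F) (nm F (onT ℕ)) Y B) (hS : Split (In F) (nm F (onT ℕ)) Y B)
    (hZ : ProdSpace (In F) Z D X A Y B) : Split (In F) (nm F (onT ℕ)) Z D :=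
  Pool.Agent.IN45.product_splits key_model F X A Y B Z D hX hc hY hS hZ

end Pool.Agent.ML45
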