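import Pool.Agent.ML45.EJ

/-!
# Limits in the monoid
-/

namespace Pool.Agent.ML45

open Set
open Pool.Agent.SP45 (pre cyl pre_succ pre_zero length_pre pre_eq_iff mem_cyl mem_cyl_pre self_mem
  cyl_nil mem_cyl_cons cyl_nonempty cyl_anti)

variable {I : Type*} [LinearOrder I]

/-- the images of the node `s` at the coordinate `γ` are eventually constant, near `z` -/
def Cvs (A : ℕ → Hm I) (γ : I) (s : List ℕ) (z : I → ℕ → ℕ) (u : List ℕ) : Prop :=
  ∃ (T : Finset I) (m N : ℕ), ∀ n ≥ N, ∀ z', Agr T m z z' → (A n).a γ z' s = u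

theorem Cvs.unique {A : ℕ → Hm I} {γ : I} {s : List ℕ} {z : I → ℕ → ℕ} {u u' : List ℕ}
    (h : Cvs A γ s z u) (h' : Cvs A γ s z u') : u = u' := by
  obtain ⟨T, m, N, h⟩ := h
  obtain ⟨T', m', N', h'⟩ := h'
  rw [← h (max N N') (le_max_left _ _) z (Agr.refl _ _ _),
    h' (max N N') (le_max_right _ _) z (Agr.refl _ _ _)]

theorem Cvs.eventually {A : ℕ → Hm I} {γ : I} {s : List ℕ} {z : I → ℕ → ℕ} {u : List ℕ}
    (h : Cvs A γ s z u) : ∃ N, ∀ n ≥ N, (A n).a γ z s = u := by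
  obtain ⟨T, m, N, h⟩ := h
  exact ⟨N, fun n hn => h n hn z (Agr.refl _ _ _)⟩

theorem Cvs.shift {A : ℕ → Hm I} {γ : I} {s : List ℕ} {z : I → ℕ → ℕ} {u : List ℕ}
    (h : Cvs (fun n => A (n + 1)) γ s z u) : Cvs A γ s z u := by
  obtain ⟨T, m, N, h⟩ := h
  refine ⟨T, m, N + 1, fun n hn z' hz' => ?_⟩
  obtain ⟨k, rfl⟩ : ∃ k, n = k + 1 := ⟨n - 1, by omega⟩
  exact h k (by omega) z' hz'

theorem Cvs.shift' {A : ℕ → Hm I} {γ : I} {s : List ℕ} {z : I → ℕ → ℕ} {u : List ℕ}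
    (h : Cvs A γ s z u) (k : ℕ) : Cvs (fun n => A (n + k)) γ s z u := by
  obtain ⟨T, m, N, h⟩ := h
  exact ⟨T, m, N, fun n hn z' hz' => h (n + k) (by omega) z' hz'⟩

/-- the limit embedding -/
theorem isEmb_of_cvs {A : ℕ → Hm I} {γ : I} {z : I → ℕ → ℕ} {e : List ℕ → List ℕ}
    (h : ∀ s, Cvs A γ s z (e s)) : IsEmb e := by
  intro s
  choose N hN using fun s => (h s).eventually
  have h1 : ∀ k, ∃ a, (a :: e s) <:+ e (k :: s) := by
    intro k
    let n := max (N s) (N (k :: s))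
    obtain ⟨d, _, hd⟩ := (A n).emb γ z s
    refine ⟨d k, ?_⟩
    have := hd k
    rwa [hN s n (le_max_left _ _), hN (k :: s) n (le_max_right _ _)] at this
  choose d hd using h1
  refine ⟨d, fun k l hkl => ?_, hd⟩
  let n := max (N s) (max (N (k :: s)) (N (l :: s)))
  have e1 := hN s n (le_max_left _ _)
  have e2 := hN (k :: s) n ((le_max_left _ _).trans (le_max_right _ _))
  have e3 := hN (l :: s) n ((le_max_right _ _).trans (le_max_right _ _))
  refine ((A n).emb γ z).digit_lt (s := s) (k := k) (l := l) ?_ ?_ hkl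
  · rw [e1, e2]; exact hd k
  · rw [e1, e3]; exact hd l

/-- images of points converge, at the coordinates where the nodes do -/
theorem exists_limit_point {A : ℕ → Hm I} {D : Set I} {z : I → ℕ → ℕ}
    (h : ∀ δ ∈ D, ∀ s, ∃ u, Cvs A δ s z u) :
    ∃ y : I → ℕ → ℕ, ∀ (T' : Finset I) (n' : ℕ), ∃ (T : Finset I) (m N : ℕ), ∀ n ≥ N, ∀ z',
      Agr T m z z' → ∀ δ ∈ T', δ ∈ D → pre (A n z' δ) n' = pre (y δ) n' := by
  classical
  have h1 : ∀ δ : I, ∃ y : ℕ → ℕ, δ ∈ D → ∀ n', ∃ (T : Finset I) (m N : ℕ), ∀ n ≥ N, ∀ z',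
      Agr T m z z' → pre (A n z' δ) n' = pre y n' := by
    intro δ
    by_cases hδ : δ ∈ D
    · choose u hu using h δ hδ
      have hemb : IsEmb u := isEmb_of_cvs hu
      refine ⟨lift u (z δ), fun _ n' => ?_⟩
      obtain ⟨T, m, N, h2⟩ := hu (pre (z δ) n')
      refine ⟨insert δ T, max n' m, N, fun n hn z' hz' => ?_⟩
      have h3 := h2 n hn z' (hz'.mono (Finset.subset_insert _ _) (le_max_right _ _))
      have h4 : pre (z' δ) n' = pre (z δ) n' :=
        pre_eq_of_le (le_max_left _ _) (hz' δ (Finset.mem_insert_self _ _))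
      have h5 := lift_mem ((A n).emb δ z') (z' δ) n'
      rw [h4, h3] at h5
      have h6 := lift_mem hemb (z δ) n'
      have h7 : n' ≤ (u (pre (z δ) n')).length := by simpa using hemb.len (pre (z δ) n')
      refine pre_eq_of_le h7 ?_
      rw [Hm.map_apply, ← eq_pre_of_mem h5, ← eq_pre_of_mem h6]
    · exact ⟨z δ, fun h => absurd h hδ⟩
  choose y hy using h1
  refine ⟨y, fun T' n' => ?_⟩
  have h2 : ∀ δ : I, ∃ (T : Finset I) (m N : ℕ), δ ∈ D → ∀ n ≥ N, ∀ z', Agr T m z z' →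
      pre (A n z' δ) n' = pre (y δ) n' := by
    intro δ
    by_cases hδ : δ ∈ D
    · obtain ⟨T, m, N, h3⟩ := hy δ hδ n'
      exact ⟨T, m, N, fun _ => h3⟩
    · exact ⟨∅, 0, 0, fun h => absurd h hδ⟩
  choose T m N h3 using h2
  refine ⟨T'.biUnion T, T'.sup m, T'.sup N, fun n hn z' hz' δ hδ hδD => ?_⟩
  exact h3 δ hδD n ((Finset.le_sup (f := N) hδ).trans hn) z'
    (hz'.mono (Finset.subset_biUnion_of_mem T hδ) (Finset.le_sup (f := m) hδ))

/-- local constancy below a coordinate -/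
theorem Hm.lc_low (B : Hm I) (γ : I) (s : List ℕ) (y : I → ℕ → ℕ) :
    ∃ (T : Finset I) (n : ℕ), ∀ w, (∀ δ ∈ T, δ < γ → pre (w δ) n = pre (y δ) n) →
      B.a γ w s = B.a γ y s := by
  classical
  obtain ⟨T, n, h⟩ := B.lc γ s y
  refine ⟨T, n, fun w hw => ?_⟩
  let w' : I → ℕ → ℕ := fun δ => if δ < γ then w δ else y δ
  have h1 : B.a γ w = B.a γ w' := B.low γ w w' fun δ hδ => (if_pos hδ).symm
  rw [h1]
  refine h w' fun δ hδ => ?_
  by_cases h2 : δ < γ
  · rw [show w' δ = w δ from if_pos h2]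
    exact hw δ hδ h2
  · rw [show w' δ = y δ from if_neg h2]

theorem Cvs.mul_left {A : ℕ → Hm I} (B : Hm I) {γ : I} {s : List ℕ} {z : I → ℕ → ℕ} {u : List ℕ}
    (hlow : ∀ δ < γ, ∀ s, ∃ u, Cvs A δ s z u) (h : Cvs A γ s z u) :
    ∃ v, Cvs (fun n => B * A n) γ s z v := by
  classical
  obtain ⟨y, hy⟩ := exists_limit_point (D := Iio γ) hlow
  obtain ⟨T1, n1, h1⟩ := B.lc_low γ u y
  obtain ⟨T2, m2, N2, h2⟩ := hy T1 n1
  obtain ⟨T3, m3, N3, h3⟩ := h
  refine ⟨B.a γ y u, T2 ∪ T3, max m2 m3, max N2 N3, fun n hn z' hz' => ?_⟩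
  show B.a γ (A n z') ((A n).a γ z' s) = B.a γ y u
  rw [h3 n ((le_max_right _ _).trans hn) z'
    (hz'.mono Finset.subset_union_right (le_max_right _ _))]
  exact h1 _ fun δ hδ hδγ => h2 n ((le_max_left _ _).trans hn) z'
    (hz'.mono Finset.subset_union_left (le_max_left _ _)) δ hδ hδγ

/-- `H` is the limit of the sequence `A` -/
def Lim (A : ℕ → Hm I) (H : Hm I) : Prop := ∀ γ s z, Cvs A γ s z (H.a γ z s)

theorem Lim.unique {A : ℕ → Hm I} {H H' : Hm I} (h : Lim A H) (h' : Lim A H') : H = H' :=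
  Hm.ext' fun γ z s => (h γ s z).unique (h' γ s z)

theorem Lim.shift' {A : ℕ → Hm I} {H : Hm I} (h : Lim A H) (k : ℕ) :
    Lim (fun n => A (n + k)) H := fun γ s z => (h γ s z).shift' k

theorem Lim.suffix {A : ℕ → Hm I} {H : Hm I} (h : Lim A H) {γ : I} {s t : List ℕ}
    {z : I → ℕ → ℕ} (ht : ∀ n, t <:+ (A n).a γ z s) : t <:+ H.a γ z s := by
  obtain ⟨N, hN⟩ := (h γ s z).eventually
  rw [← hN N le_rfl]
  exact ht N

theorem Lim.act {A : ℕ → Hm I} {H : Hm I} (h : Lim A H) {D : Set I} (hA : ∀ n, Act D (A n)) :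
    Act D H := by
  intro γ hγ z
  funext s
  obtain ⟨N, hN⟩ := (h γ s z).eventually
  rw [← hN N le_rfl, hA N γ hγ z]

theorem exists_lim {A : ℕ → Hm I} (h : ∀ γ s z, ∃ u, Cvs A γ s z u) : ∃ H, Lim A H := by
  classical
  choose u hu using h
  refine ⟨{
    a := fun γ z s => u γ s z
    emb := fun γ z => isEmb_of_cvs fun s => hu γ s z
    low := fun γ z z' hz => ?_
    lc := fun γ s z => ?_
    supp := ?_ }, fun γ s z => hu γ s z⟩
  · funext s
    obtain ⟨N, hN⟩ := (hu γ s z).eventually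
    obtain ⟨N', hN'⟩ := (hu γ s z').eventually
    rw [← hN (max N N') (le_max_left _ _), ← hN' (max N N') (le_max_right _ _),
      (A _).low γ z z' hz]
  · obtain ⟨T, m, N, h1⟩ := hu γ s z
    refine ⟨T, m, fun z' hz' => ?_⟩
    obtain ⟨N', hN'⟩ := (hu γ s z').eventually
    show u γ s z' = u γ s z
    rw [← hN' (max N N') (le_max_right _ _), h1 _ (le_max_left _ _) z' hz']
  · choose C hC h1 h2 using fun n => (A n).supp
    refine ⟨⋃ n, C n, countable_iUnion hC, fun γ hγ z => ?_, fun γ z z' hz => ?_⟩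
    · funext s
      obtain ⟨N, hN⟩ := (hu γ s z).eventually
      show u γ s z = s
      rw [← hN N le_rfl, h1 N γ (fun h => hγ (mem_iUnion.2 ⟨N, h⟩)) z]
      rfl
    · funext s
      obtain ⟨N, hN⟩ := (hu γ s z).eventually
      obtain ⟨N', hN'⟩ := (hu γ s z').eventually
      show u γ s z = u γ s z'
      rw [← hN (max N N') (le_max_left _ _), ← hN' (max N N') (le_max_right _ _),
        h2 _ γ z z' fun δ hδ => hz δ (mem_iUnion.2 ⟨_, hδ⟩)]

theorem Lim.mul_left {A : ℕ → Hm I} {H : Hm I} (h : Lim A H) (B : Hm I) :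
    Lim (fun n => B * A n) (B * H) := by
  classical
  intro γ s z
  obtain ⟨T1, n1, h1⟩ := B.lc_low γ (H.a γ z s) (H z)
  -- the images of points converge
  have h2 : ∀ δ : I, ∃ (T : Finset I) (m N : ℕ), ∀ n ≥ N, ∀ z', Agr T m z z' →
      pre (A n z' δ) n1 = pre (H z δ) n1 := by
    intro δ
    obtain ⟨T, m, N, h2⟩ := h δ (pre (z δ) n1) z
    refine ⟨insert δ T, max n1 m, N, fun n hn z' hz' => ?_⟩
    have h3 := h2 n hn z' (hz'.mono (Finset.subset_insert _ _) (le_max_right _ _))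
    have h4 : pre (z' δ) n1 = pre (z δ) n1 :=
      pre_eq_of_le (le_max_left _ _) (hz' δ (Finset.mem_insert_self _ _))
    have h5 := lift_mem ((A n).emb δ z') (z' δ) n1
    rw [h4, h3] at h5
    have h6 := lift_mem (H.emb δ z) (z δ) n1
    have h7 : n1 ≤ (H.a δ z (pre (z δ) n1)).length := by
      simpa using (H.emb δ z).len (pre (z δ) n1)
    refine pre_eq_of_le h7 ?_
    rw [Hm.map_apply, Hm.map_apply, ← eq_pre_of_mem h5, ← eq_pre_of_mem h6]
  choose T2 m2 N2 h2 using h2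
  obtain ⟨T3, m3, N3, h3⟩ := h γ s z
  refine ⟨T1.biUnion T2 ∪ T3, max (T1.sup m2) m3, max (T1.sup N2) N3, fun n hn z' hz' => ?_⟩
  show B.a γ (A n z') ((A n).a γ z' s) = B.a γ (H z) (H.a γ z s)
  rw [h3 n ((le_max_right _ _).trans hn) z'
    (hz'.mono Finset.subset_union_right (le_max_right _ _))]
  refine h1 _ fun δ hδ _ => h2 δ n ?_ z' (hz'.mono ?_ ?_)
  · exact ((Finset.le_sup (f := N2) hδ).trans (le_max_left _ _)).trans hn
  · exact (Finset.subset_biUnion_of_mem T2 hδ).trans Finset.subset_union_left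
  · exact (Finset.le_sup (f := m2) hδ).trans (le_max_left _ _)

end Pool.Agent.ML45
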