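import Pool.Agent.ML45.Clock
import Pool.Agent.ML45.Lim

/-!
# The fusion theorem
-/

namespace Pool.Agent.ML45

open Set
open Pool.Agent.SP45 (pre cyl pre_succ pre_zero length_pre pre_eq_iff mem_cyl mem_cyl_pre self_mem
  cyl_nil mem_cyl_cons cyl_nonempty cyl_anti)

variable {I : Type*} [LinearOrder I] [WellFoundedLT I]

/-- the action of `K T` at the time `T` -/
noncomputable def JJ (F : ℕ → Finset I) (K : ℕ → Hm I) (T : ℕ) : Hm I := J (tN F T) (K T)

/-- the product of the actions at the times `M, …, M + n - 1` -/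
noncomputable def Tl (F : ℕ → Finset I) (K : ℕ → Hm I) (M : ℕ) : ℕ → Hm I
  | 0 => 1
  | n + 1 => Tl F K M n * JJ F K (M + n)

variable {F : ℕ → Finset I} {K : ℕ → Hm I}

theorem Tl_zero (M : ℕ) : Tl F K M 0 = 1 := rfl

theorem Tl_succ (M n : ℕ) : Tl F K M (n + 1) = Tl F K M n * JJ F K (M + n) := rfl

theorem Tl_succ' (M n : ℕ) : Tl F K M (n + 1) = JJ F K M * Tl F K (M + 1) n := by
  induction n with
  | zero => rw [Tl_succ, Tl_zero, Tl_zero, one_mul, mul_one, Nat.add_zero]
  | succ n ih =>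
    rw [Tl_succ, ih, Tl_succ, mul_assoc]
    congr 3
    omega

theorem Tl_add (M m n : ℕ) : Tl F K M (m + n) = Tl F K M m * Tl F K (M + m) n := by
  induction n with
  | zero => rw [Nat.add_zero, Tl_zero, mul_one]
  | succ n ih => rw [← add_assoc, Tl_succ, ih, Tl_succ, mul_assoc, add_assoc]

open Classical in
theorem JJ_a (T : ℕ) (γ : I) (z : I → ℕ → ℕ) : (JJ F K T).a γ z =
    if Lo F T (Iio γ) z then loc (clk F γ T) ((K T).a γ (dr (tN F T) z)) else id := rfl

theorem JJ_a_pos {T : ℕ} {γ : I} {z : I → ℕ → ℕ} (h : Lo F T (Iio γ) z) :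
    (JJ F K T).a γ z = loc (clk F γ T) ((K T).a γ (dr (tN F T) z)) := by
  rw [JJ_a, if_pos h]

theorem JJ_a_neg {T : ℕ} {γ : I} {z : I → ℕ → ℕ} (h : ¬ Lo F T (Iio γ) z) :
    (JJ F K T).a γ z = id := by
  rw [JJ_a, if_neg h]

/-- nodes above the node of an earlier time stay above it -/
theorem keep_JJ (hF : Monotone F) {M M' : ℕ} (hM : M < M') {γ : I} {w : I → ℕ → ℕ}
    (hw : Lo F M (Iio γ) w) {s : List ℕ} (hs : clk F γ M <:+ s) :
    clk F γ M <:+ (JJ F K M').a γ w s := by
  by_cases h1 : Lo F M' (Iio γ) w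
  · rw [JJ_a_pos h1]
    by_cases h2 : clk F γ M' <:+ s
    · refine List.IsSuffix.trans ?_ (suffix_loc _ h2)
      by_cases h3 : γ ∈ F M
      · obtain ⟨y, hy⟩ := cyl_nonempty s
        exact suffix_of_code (mem_cyl_of_suffix hs hy) (mem_cyl_of_suffix h2 hy)
          (code_clk_lt hM h1 hw h3).le
      · rw [clk_of_notMem' hF h3]
        exact List.nil_suffix
    · rw [loc_of_not _ h2]
      exact hs
  · rw [JJ_a_neg h1]
    exact hs

theorem mem_JJ (hF : Monotone F) {M M' : ℕ} (hM : M < M') {γ : I} {w : I → ℕ → ℕ}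
    (hw : Lo F M (Iio γ) w) :
    JJ F K M' w γ ∈ cyl (clk F γ M) ↔ w γ ∈ cyl (clk F γ M) := by
  constructor
  · intro h
    by_cases h3 : γ ∈ F M
    swap
    · rw [clk_of_notMem' hF h3, cyl_nil]; trivial
    by_cases h1 : Lo F M' (Iio γ) w
    swap
    · rw [Hm.map_apply, JJ_a_neg h1, lift_id] at h
      exact h
    have h2 := lift_mem ((JJ F K M').emb γ w) (w γ) (clk F γ M).length
    rw [← Hm.map_apply, JJ_a_pos h1] at h2
    by_cases h4 : clk F γ M' <:+ pre (w γ) (clk F γ M).length
    · exfalso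
      have h5 := mem_cyl_of_suffix (suffix_loc ((K M').a γ (dr (tN F M') w)) h4) h2
      have h6 : clk F γ M' <:+ clk F γ M := suffix_of_mem h5 h (by simpa using h4.length_le)
      exact absurd (code_le_of_suffix h6) (not_le.2 (code_clk_lt hM h1 hw h3))
    · rw [loc_of_not _ h4] at h2
      have h5 : pre (w γ) (clk F γ M).length = clk F γ M := by
        rw [mem_cyl_pre] at h2
        rw [← h2]
        exact h
      exact h5
  · intro h
    have h2 := lift_mem' ((JJ F K M').emb γ w) h
    exact mem_cyl_of_suffix (keep_JJ hF hM hw (List.suffix_refl _)) h2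

/-- the boxes of earlier times are preserved, with their complements -/
theorem lo_JJ (hF : Monotone F) {M M' : ℕ} (hM : M < M') {D : Set I} (hD : IsLowerSet D)
    {w : I → ℕ → ℕ} : Lo F M D (JJ F K M' w) ↔ Lo F M D w := by
  constructor
  · intro h γ
    induction γ using WellFoundedLT.induction with
    | ind γ ih =>
      intro hγ
      exact (mem_JJ hF hM fun δ hδ => ih δ hδ (hD (mem_Iio.1 hδ).le hγ)).1 (h γ hγ)
  · intro h γ hγ
    exact (mem_JJ hF hM fun δ hδ => h δ (hD (mem_Iio.1 hδ).le hγ)).2 (h γ hγ)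

theorem lo_Tl (hF : Monotone F) {M M' : ℕ} (hM : M < M') {D : Set I} (hD : IsLowerSet D)
    (n : ℕ) {w : I → ℕ → ℕ} : Lo F M D (Tl F K M' n w) ↔ Lo F M D w := by
  induction n generalizing w with
  | zero => rw [Tl_zero, Hm.one_map]
  | succ n ih => rw [Tl_succ, Hm.mul_map, ih, lo_JJ hF (hM.trans_le (Nat.le_add_right _ _)) hD]

theorem keep_Tl (hF : Monotone F) {M M' : ℕ} (hM : M < M') {γ : I} (n : ℕ) {w : I → ℕ → ℕ}
    (hw : Lo F M (Iio γ) w) {s : List ℕ} (hs : clk F γ M <:+ s) :
    clk F γ M <:+ (Tl F K M' n).a γ w s := by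
  induction n generalizing w s with
  | zero => exact hs
  | succ n ih =>
    rw [Tl_succ, Hm.mul_a]
    have h1 : M < M' + n := hM.trans_le (Nat.le_add_right _ _)
    exact ih ((lo_JJ hF h1 (isLowerSet_Iio' γ)).2 hw) (keep_JJ hF h1 hw hs)

/-- `K` acts at the coordinates which become active only -/
def Swept (F : ℕ → Finset I) (K : ℕ → Hm I) : Prop := ∀ T, Act {γ | ∃ T', γ ∈ F T'} (K T)

theorem act_Tl {D : Set I} (hK : ∀ T, Act D (K T)) (M n : ℕ) : Act D (Tl F K M n) := by
  induction n with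
  | zero => exact Act.one _
  | succ n ih => exact ih.mul ((hK _).J _)

theorem cvs_Tl (hF : Monotone F) (hK : Swept F K) (γ : I) :
    ∀ M s z, ∃ u, Cvs (Tl F K M) γ s z u := by
  classical
  induction γ using WellFoundedLT.induction with
  | ind γ ih =>
    intro M s z
    by_cases hγ : ∃ T', γ ∈ F T'
    swap
    · -- nothing happens at `γ`
      refine ⟨s, ∅, 0, 0, fun n _ z' _ => ?_⟩
      rw [act_Tl hK M n γ hγ z']
      rfl
    obtain ⟨T₀, hT₀⟩ := hγ
    -- the times at which the nodes are not initial segments of `s`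
    let p : ℕ → Prop := fun T' => γ ∈ F T' ∧ Lo F T' (Iio γ) z
    have hp : {T' | p T'}.Infinite := by
      rw [Set.infinite_iff_exists_gt]
      intro n
      obtain ⟨T, hT, h2⟩ := exists_lo hF z (Iio γ) (max (n + 1) T₀)
      exact ⟨T, ⟨hF ((le_max_right _ _).trans hT) hT₀, h2⟩, (le_max_left _ _).trans hT⟩
    let N := Nat.nth p (code s + 1)
    have hN : Nat.count p N = code s + 1 := Nat.count_nth_of_infinite hp _
    have hfix : ∀ w : I → ℕ → ℕ, (∀ T' < N, Lo F T' (Iio γ) w ↔ Lo F T' (Iio γ) z) →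
        ∀ j ≥ N, (JJ F K j).a γ w s = s := by
      intro w hw j hj
      by_cases h1 : Lo F j (Iio γ) w
      · rw [JJ_a_pos h1, loc_of_not]
        intro h2
        rw [clk_count h1] at h2
        have h3 := code_le_of_suffix h2
        rw [code_nd] at h3
        have h4 : Nat.count (fun T' => γ ∈ F T' ∧ Lo F T' (Iio γ) w) N = Nat.count p N := by
          rw [Nat.count_eq_card_filter_range, Nat.count_eq_card_filter_range]
          congr 1
          refine Finset.filter_congr fun T' hT' => ?_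
          rw [hw T' (Finset.mem_range.1 hT')]
        have h5 := Nat.count_monotone (fun T' => γ ∈ F T' ∧ Lo F T' (Iio γ) w) hj
        rw [h4, hN] at h5
        omega
      · rw [JJ_a_neg h1]; rfl
    have hfixT : ∀ n j, j ≥ N → ∀ w : I → ℕ → ℕ,
        (∀ T' < N, Lo F T' (Iio γ) w ↔ Lo F T' (Iio γ) z) → (Tl F K j n).a γ w s = s := by
      intro n
      induction n with
      | zero => intro j _ w _; rfl
      | succ n ihn =>
        intro j hj w hw
        rw [Tl_succ, Hm.mul_a, Function.comp_apply, hfix w hw _ (hj.trans (Nat.le_add_right _ _))]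
        refine ihn j hj _ fun T' hT' => ?_
        rw [lo_JJ hF (hT'.trans_le (le_trans hj (Nat.le_add_right _ _))) (isLowerSet_Iio' γ)]
        exact hw T' hT'
    -- the condition on `w` holds near `z`
    have hnear : ∃ (T : Finset I) (m : ℕ), ∀ z', Agr T m z z' →
        ∀ T' < N, Lo F T' (Iio γ) z' ↔ Lo F T' (Iio γ) z := by
      let S : Finset I := (Finset.range N).biUnion fun T' => (finite_clk F T').toFinset
      let m : ℕ := (Finset.range N).sup fun T' => S.sup fun δ => (clk F δ T').length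
      refine ⟨S, m, fun z' hz' T' hT' => forall₂_congr fun δ _ => ?_⟩
      by_cases h1 : clk F δ T' = []
      · rw [h1, cyl_nil]; exact iff_of_true trivial trivial
      · have h2 : T' ∈ Finset.range N := Finset.mem_range.2 hT'
        have h3 : δ ∈ S := Finset.mem_biUnion.2 ⟨T', h2, (finite_clk F T').mem_toFinset.2 h1⟩
        have h4 : (clk F δ T').length ≤ m :=
          (Finset.le_sup (f := fun δ => (clk F δ T').length) h3).trans
            (Finset.le_sup (f := fun T' => S.sup fun δ => (clk F δ T').length) h2)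
        rw [mem_cyl, mem_cyl, pre_eq_of_le h4 (hz' δ h3)]
    obtain ⟨S, m, hS⟩ := hnear
    have hbase : ∀ j ≥ N, Cvs (Tl F K j) γ s z s := fun j hj =>
      ⟨S, m, 0, fun n _ z' hz' => hfixT n j hj z' fun T' hT' => hS z' hz' T' hT'⟩
    -- induction downwards
    have hdown : ∀ k j, j + k = max M N → ∃ u, Cvs (Tl F K j) γ s z u := by
      intro k
      induction k with
      | zero => exact fun j hj => ⟨s, hbase j (by omega)⟩
      | succ k ihk =>
        intro j hj
        obtain ⟨u, hu⟩ := ihk (j + 1) (by omega)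
        obtain ⟨v, hv⟩ := hu.mul_left (JJ F K j) fun δ hδ s => ih δ hδ (j + 1) s z
        refine ⟨v, Cvs.shift ?_⟩
        have e : (fun n => Tl F K j (n + 1)) = fun n => JJ F K j * Tl F K (j + 1) n :=
          funext fun n => Tl_succ' j n
        rw [e]
        exact hv
    exact hdown (max M N - M) M (by omega)

/-- the condition at the time `T` -/
noncomputable def pp (F : ℕ → Finset I) (K : ℕ → Hm I) (T : ℕ) : Hm I :=
  Tl F K 0 T * E (tN F T)

theorem pp_zero : pp F K 0 = 1 := by
  refine Hm.ext' fun γ z s => ?_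
  show s ++ clk F γ 0 = s
  rw [clk_zero, List.append_nil]

/-- the value at the parent -/
theorem exists_pp_par (hF : Monotone F) {T : ℕ} (hT : 0 < T) :
    ∃ L, pp F K T = pp F K (par F T) * K (par F T) * L ∧
      Act {γ | ∃ δ ∈ F (par F T), γ ≤ δ} L := by
  set M := par F T with hM
  have h0 := par_spec F hT
  rw [← hM] at h0
  obtain ⟨n, hn⟩ : ∃ n, T = M + 1 + n := ⟨T - (M + 1), by omega⟩
  let D : Set I := {γ | ∃ δ ∈ F M, γ ≤ δ}
  have hDlow : IsLowerSet D := by
    rintro a b hab ⟨δ, h1, h2⟩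
    exact ⟨δ, h1, hab.trans h2⟩
  have hDI : ∀ γ ∉ D, D ⊆ Iio γ := by
    intro γ hγ δ hδ
    by_contra hcon
    exact hγ (hDlow (not_lt.1 hcon) hδ)
  let A : Hm I := Tl F K (M + 1) n * E (tN F T)
  have hfac : ∀ γ z, tN F M γ <:+ A.a γ z [] := by
    intro γ z
    show clk F γ M <:+ (Tl F K (M + 1) n).a γ (E (tN F T) z) ([] ++ clk F γ T)
    rw [List.nil_append]
    refine keep_Tl hF (Nat.lt_succ_self M) n (fun δ _ => ?_) (h0.2 γ)
    exact mem_cyl_of_suffix (h0.2 δ) (E_mem (tN F T) z δ)
  obtain ⟨L, hL⟩ := exists_factor hfac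
  refine ⟨L, ?_, fun γ hγ z => ?_⟩
  · have h1 : Tl F K 0 T = Tl F K 0 M * JJ F K M * Tl F K (M + 1) n := by
      rw [hn, Tl_add, Nat.zero_add, Tl_succ, Nat.zero_add]
    rw [pp, pp, h1, mul_assoc, show Tl F K (M + 1) n * E (tN F T) = A from rfl, hL,
      mul_assoc, ← mul_assoc (JJ F K M), JJ, J_mul_E, mul_assoc, mul_assoc, mul_assoc]
  · -- no action at the other coordinates
    have hz : Lo F T univ (E (tN F T) z) := mem_box.1 (E_mem _ _)
    have h2 := par_between hF hT hz
    rw [← hM] at h2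
    have h3 : clk F γ T = [] := h2.1 γ hγ
    have h4 : clk F γ M = [] := by
      have := h0.2 γ
      rw [h3] at this
      exact List.suffix_nil.1 this
    have h5 : ∀ k, ∀ w : I → ℕ → ℕ, (∀ M', M < M' → M' < M + 1 + k → ¬ Lo F M' D w) →
        (Tl F K (M + 1) k).a γ w = id := by
      intro k
      induction k with
      | zero => intro w _; rfl
      | succ k ih =>
        intro w hw
        have h6 : (JJ F K (M + 1 + k)).a γ w = id :=
          JJ_a_neg fun h => hw (M + 1 + k) (by omega) (by omega) (h.mono (hDI γ hγ))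
        rw [Tl_succ, Hm.mul_a, h6, Function.comp_id]
        exact ih _ fun M' hM' hM'T h7 => hw M' hM' (by omega) ((lo_JJ hF hM'T hDlow).1 h7)
    have h8 : A.a γ z = id := by
      show (Tl F K (M + 1) n).a γ (E (tN F T) z) ∘ (fun s => s ++ clk F γ T) = id
      rw [h5 n _ fun M' hM' hM'T => h2.2 M' hM' (by omega), h3]
      funext s
      simp
    have h9 : (E (tN F M) * L).a γ z = id := by rw [← hL, h8]
    funext s
    have h10 := congrFun h9 s
    rw [Hm.mul_a] at h10
    change L.a γ z s ++ clk F γ M = s at h10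
    rw [h4, List.append_nil] at h10
    exact h10

/-- the fusion of the sequence `K` -/
theorem exists_fusion (hF : Monotone F) (hK : Swept F K) :
    ∃ H, Lim (Tl F K 0) H ∧ ∀ T, ∃ R, H * E (tN F T) = pp F K T * K T * R := by
  have h : ∀ M, ∃ H, Lim (Tl F K M) H := fun M => exists_lim fun γ s z => cvs_Tl hF hK γ M s z
  choose H hH using h
  refine ⟨H 0, hH 0, fun T => ?_⟩
  have h1 : H 0 = Tl F K 0 (T + 1) * H (T + 1) := by
    have h2 := (hH 0).shift' (T + 1)
    have h3 := (hH (T + 1)).mul_left (Tl F K 0 (T + 1))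
    have e : (fun n => Tl F K 0 (n + (T + 1))) = fun n => Tl F K 0 (T + 1) * Tl F K (T + 1) n := by
      funext n
      rw [Nat.add_comm, Tl_add, Nat.zero_add]
    rw [e] at h2
    exact h2.unique h3
  have h2 : ∀ γ z, tN F T γ <:+ (H (T + 1) * E (tN F T)).a γ z [] := by
    intro γ z
    show clk F γ T <:+ (H (T + 1)).a γ (E (tN F T) z) ([] ++ clk F γ T)
    rw [List.nil_append]
    exact (hH (T + 1)).suffix fun n => keep_Tl hF (Nat.lt_succ_self T) n
      (fun δ _ => E_mem (tN F T) z δ) (List.suffix_refl _)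
  obtain ⟨R, hR⟩ := exists_factor h2
  refine ⟨R, ?_⟩
  rw [h1, mul_assoc, hR, Tl_succ, Nat.zero_add, ← mul_assoc, mul_assoc (Tl F K 0 T), JJ, J_mul_E,
    pp, ← mul_assoc]

theorem Tl_congr {F G : ℕ → Finset I} {K L : ℕ → Hm I} {T : ℕ} (hF : ∀ T' < T, F T' = G T')
    (hK : ∀ T' < T, K T' = L T') : Tl F K 0 T = Tl G L 0 T := by
  induction T with
  | zero => rfl
  | succ T ih =>
    rw [Tl_succ, Tl_succ, ih (fun T' h => hF T' (h.trans (Nat.lt_succ_self T)))
      (fun T' h => hK T' (h.trans (Nat.lt_succ_self T))), Nat.zero_add, JJ, JJ,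
      hK T (Nat.lt_succ_self T)]
    congr 2
    unfold tN
    congr 1
    funext γ
    exact clk_congr (T := T) (fun T' h => hF T' (h.trans (Nat.lt_succ_self T))) γ T le_rfl

theorem tN_congr {F G : ℕ → Finset I} {T : ℕ} (hF : ∀ T' < T, F T' = G T') :
    tN F T = tN G T := by
  unfold tN
  congr 1
  funext γ
  exact clk_congr (T := T) hF γ T le_rfl

/-- the conditions depend on the past only -/
theorem pp_congr {F G : ℕ → Finset I} {K L : ℕ → Hm I} {T : ℕ} (hF : ∀ T' < T, F T' = G T')
    (hK : ∀ T' < T, K T' = L T') : pp F K T = pp G L T := by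
  rw [pp, pp, Tl_congr hF hK, tN_congr hF]

theorem par_congr {F G : ℕ → Finset I} {T : ℕ} (hF : ∀ T' < T, F T' = G T') :
    par F T = par G T := by
  classical
  have h : (fun T' => T' < T ∧ ∀ γ, clk F γ T' <:+ clk F γ T) =
      fun T' => T' < T ∧ ∀ γ, clk G γ T' <:+ clk G γ T := by
    funext T'
    refine propext (and_congr_right fun hT' => forall_congr' fun γ => ?_)
    rw [clk_congr hF γ T' hT'.le, clk_congr hF γ T le_rfl]
  unfold par
  simp only [h]

end Pool.Agent.ML45
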