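import Pool.Agent.ML45.Emb

/-!
# The monoid

`Hm I` is a monoid of maps of `I → ℕ → ℕ`: the `γ`-th coordinate of the image of `z` is the image
of `z γ` under the map given by an embedding `a γ z` which depends on the coordinates `z δ`,
`δ < γ`.
-/

namespace Pool.Agent.ML45

open Set
open Pool.Agent.SP45 (pre cyl pre_succ pre_zero length_pre pre_eq_iff mem_cyl mem_cyl_pre self_mem
  cyl_nil mem_cyl_cons cyl_nonempty cyl_anti)

/-- `z'` and `z` have the same initial segments of length `n` at the coordinates in `T` -/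
def Agr {I : Type*} (T : Finset I) (n : ℕ) (z z' : I → ℕ → ℕ) : Prop :=
  ∀ δ ∈ T, pre (z' δ) n = pre (z δ) n

theorem Agr.refl {I : Type*} (T : Finset I) (n : ℕ) (z : I → ℕ → ℕ) : Agr T n z z := fun _ _ => rfl

theorem pre_eq_of_le {x y : ℕ → ℕ} {m n : ℕ} (h : m ≤ n) (h' : pre x n = pre y n) :
    pre x m = pre y m := by
  rw [pre_eq_iff] at h' ⊢
  exact fun j hj => h' j (hj.trans_le h)

theorem Agr.mono {I : Type*} {T T' : Finset I} {n n' : ℕ} {z z' : I → ℕ → ℕ}
    (h : Agr T' n' z z') (hT : T ⊆ T') (hn : n ≤ n') : Agr T n z z' :=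
  fun δ hδ => pre_eq_of_le hn (h δ (hT hδ))

/-- a function of points which is locally constant -/
def Lc {I X : Type*} (f : (I → ℕ → ℕ) → X) : Prop :=
  ∀ z, ∃ (T : Finset I) (n : ℕ), ∀ z', Agr T n z z' → f z' = f z

/-- the monoid -/
@[ext]
structure Hm (I : Type*) [LinearOrder I] where
  /-- the embedding at the coordinate `γ` -/
  a : I → (I → ℕ → ℕ) → List ℕ → List ℕ
  emb : ∀ γ z, IsEmb (a γ z)
  low : ∀ γ z z', (∀ δ < γ, z δ = z' δ) → a γ z = a γ z'
  lc : ∀ γ s, Lc fun z => a γ z s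
  supp : ∃ C : Set I, C.Countable ∧ (∀ γ ∉ C, ∀ z, a γ z = id) ∧
    ∀ γ z z', (∀ δ ∈ C, z δ = z' δ) → a γ z = a γ z'

variable {I : Type*} [LinearOrder I]

/-- the map given by an element of the monoid -/
noncomputable def Hm.map (p : Hm I) (z : I → ℕ → ℕ) : I → ℕ → ℕ := fun γ => lift (p.a γ z) (z γ)

noncomputable instance : CoeFun (Hm I) fun _ => (I → ℕ → ℕ) → (I → ℕ → ℕ) := ⟨Hm.map⟩

theorem Hm.map_apply (p : Hm I) (z : I → ℕ → ℕ) (γ : I) : p z γ = lift (p.a γ z) (z γ) := rfl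

/-- the map preserves agreement below a coordinate -/
theorem Hm.map_low (p : Hm I) {z z' : I → ℕ → ℕ} {γ : I} (h : ∀ δ ≤ γ, z δ = z' δ) :
    p z γ = p z' γ := by
  rw [p.map_apply, p.map_apply, p.low γ z z' fun δ hδ => h δ hδ.le, h γ le_rfl]

theorem Hm.map_cont (p : Hm I) (z : I → ℕ → ℕ) (T : Finset I) (n : ℕ) :
    ∃ (T' : Finset I) (n' : ℕ), ∀ z', Agr T' n' z z' → Agr T n (p z) (p z') := by
  classical
  induction T using Finset.induction_on with
  | empty => exact ⟨∅, 0, fun z' _ δ hδ => absurd hδ (Finset.notMem_empty δ)⟩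
  | insert γ T _ ih =>
    obtain ⟨T1, n1, h1⟩ := ih
    obtain ⟨T2, n2, h2⟩ := p.lc γ (pre (z γ) n) z
    refine ⟨insert γ (T1 ∪ T2), max n (max n1 n2), fun z' hz' δ hδ => ?_⟩
    rcases Finset.mem_insert.1 hδ with rfl | hδ
    · have h3 : pre (z' δ) n = pre (z δ) n :=
        pre_eq_of_le (le_max_left _ _) (hz' δ (Finset.mem_insert_self _ _))
      have h4 := pre_lift (p.emb δ z') (z' δ) n
      have h5 := pre_lift (p.emb δ z) (z δ) n
      have h6 := h2 z' (hz'.mono (Finset.subset_union_right.trans (Finset.subset_insert _ _))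
        ((le_max_right n1 n2).trans (le_max_right _ _)))
      rw [h3] at h4
      beta_reduce at h6
      rw [h6] at h4
      rw [p.map_apply, p.map_apply]
      rcases suffix_or (y := lift (p.a δ z) (z δ))
        (mem_cyl_of_suffix h4 (lift_mem (p.emb δ z) (z δ) n)) (self_mem _ n) with h7 | h7
      · exact h7.eq_of_length (by simp)
      · exact (h7.eq_of_length (by simp)).symm
    · exact h1 z' (hz'.mono (Finset.subset_union_left.trans (Finset.subset_insert _ _))
        ((le_max_left n1 n2).trans (le_max_right _ _))) δ hδ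

/-- the identity -/
instance : One (Hm I) := ⟨{
  a := fun _ _ => id
  emb := fun _ _ => IsEmb.id
  low := fun _ _ _ _ => rfl
  lc := fun _ _ _ => ⟨∅, 0, fun _ _ => rfl⟩
  supp := ⟨∅, countable_empty, fun _ _ _ => rfl, fun _ _ _ _ => rfl⟩ }⟩

theorem Hm.one_a (γ : I) (z : I → ℕ → ℕ) : (1 : Hm I).a γ z = id := rfl

theorem Hm.one_map (z : I → ℕ → ℕ) : (1 : Hm I) z = z := by
  funext γ
  rw [Hm.map_apply, Hm.one_a, lift_id]

/-- the composition -/
noncomputable instance : Mul (Hm I) := ⟨fun p L => {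
  a := fun γ z => p.a γ (L z) ∘ L.a γ z
  emb := fun γ z => (p.emb γ (L z)).comp (L.emb γ z)
  low := fun γ z z' h => by
    rw [L.low γ z z' h, p.low γ (L z) (L z') fun δ hδ => L.map_low fun δ' hδ' =>
      h δ' (hδ'.trans_lt hδ)]
  lc := fun γ s z => by
    classical
    obtain ⟨T1, n1, h1⟩ := L.lc γ s z
    obtain ⟨T2, n2, h2⟩ := p.lc γ (L.a γ z s) (L z)
    obtain ⟨T3, n3, h3⟩ := L.map_cont z T2 n2
    refine ⟨T1 ∪ T3, max n1 n3, fun z' hz' => ?_⟩
    have h4 := h1 z' (hz'.mono Finset.subset_union_left (le_max_left _ _))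
    have h5 := h2 (L z') (h3 z' (hz'.mono Finset.subset_union_right (le_max_right _ _)))
    beta_reduce at h4 h5
    show p.a γ (L z') (L.a γ z' s) = p.a γ (L z) (L.a γ z s)
    rw [h4, h5]
  supp := by
    obtain ⟨C, hC, h1, h2⟩ := p.supp
    obtain ⟨C', hC', h1', h2'⟩ := L.supp
    refine ⟨C ∪ C', hC.union hC', fun γ hγ z => ?_, fun γ z z' h => ?_⟩
    · rw [h1 γ (fun h => hγ (Or.inl h)), h1' γ (fun h => hγ (Or.inr h))]
      rfl
    · have h3 : ∀ δ, L.a δ z = L.a δ z' := fun δ => h2' δ z z' fun δ hδ => h δ (Or.inr hδ)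
      rw [h3 γ, h2 γ (L z) (L z') fun δ hδ => ?_]
      rw [L.map_apply, L.map_apply, h3 δ, h δ (Or.inl hδ)] }⟩

theorem Hm.mul_a (p L : Hm I) (γ : I) (z : I → ℕ → ℕ) :
    (p * L).a γ z = p.a γ (L z) ∘ L.a γ z := rfl

theorem Hm.mul_map (p L : Hm I) (z : I → ℕ → ℕ) : (p * L) z = p (L z) := by
  funext γ
  rw [Hm.map_apply, Hm.mul_a, lift_comp (p.emb _ _) (L.emb _ _)]
  rfl

theorem Hm.ext' {p q : Hm I} (h : ∀ γ z s, p.a γ z s = q.a γ z s) : p = q :=
  Hm.ext (funext fun γ => funext fun z => funext fun s => h γ z s)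

noncomputable instance : Monoid (Hm I) where
  mul_assoc p q r := Hm.ext' fun γ z s => by
    show p.a γ (q (r z)) (q.a γ (r z) (r.a γ z s)) = p.a γ ((q * r) z) (q.a γ (r z) (r.a γ z s))
    rw [Hm.mul_map]
  one_mul p := Hm.ext' fun γ z s => rfl
  mul_one p := Hm.ext' fun γ z s => by
    show p.a γ ((1 : Hm I) z) s = p.a γ z s
    rw [Hm.one_map]

/-- the maps are injective -/
theorem Hm.map_inj [WellFoundedLT I] (p : Hm I) : Function.Injective p := by
  intro z z' h
  funext γ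
  induction γ using WellFoundedLT.induction with
  | ind γ ih =>
    have h1 := congrFun h γ
    rw [p.map_apply, p.map_apply, p.low γ z z' ih] at h1
    exact lift_inj (p.emb γ z') h1

/-- left cancellation -/
theorem Hm.cancel [WellFoundedLT I] {p L L' : Hm I} (h : p * L = p * L') : L = L' := by
  have h0 : ∀ z, L z = L' z := fun z => p.map_inj (by rw [← Hm.mul_map, h, Hm.mul_map])
  refine Hm.ext' fun γ z s => ?_
  have h1 : (p * L).a γ z s = (p * L').a γ z s := by rw [h]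
  rw [Hm.mul_a, Hm.mul_a, h0 z] at h1
  exact (p.emb γ (L' z)).inj h1

/-- `K` acts on the coordinates in `D` only -/
def Act (D : Set I) (K : Hm I) : Prop := ∀ γ ∉ D, ∀ z, K.a γ z = id

theorem Act.one (D : Set I) : Act D (1 : Hm I) := fun _ _ _ => rfl

theorem Act.mono {D D' : Set I} {K : Hm I} (h : Act D K) (hD : D ⊆ D') : Act D' K :=
  fun γ hγ => h γ fun h => hγ (hD h)

theorem Act.mul {D : Set I} {p L : Hm I} (hp : Act D p) (hL : Act D L) : Act D (p * L) := by
  intro γ hγ z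
  rw [Hm.mul_a, hp γ hγ, hL γ hγ]
  rfl

theorem Act.map {D : Set I} {K : Hm I} (h : Act D K) {γ : I} (hγ : γ ∉ D) (z : I → ℕ → ℕ) :
    K z γ = z γ := by
  rw [K.map_apply, h γ hγ, lift_id]

theorem Act.exists (K : Hm I) : ∃ C : Set I, C.Countable ∧ Act C K := by
  obtain ⟨C, hC, h, _⟩ := K.supp
  exact ⟨C, hC, h⟩

/-- the order: `q` extends `p` -/
def Ext (q p : Hm I) : Prop := ∃ L, q = p * L

theorem Ext.refl (p : Hm I) : Ext p p := ⟨1, (mul_one p).symm⟩

theorem Ext.trans {p q r : Hm I} (h : Ext r q) (h' : Ext q p) : Ext r p := by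
  obtain ⟨L, rfl⟩ := h
  obtain ⟨L', rfl⟩ := h'
  exact ⟨L' * L, mul_assoc _ _ _⟩

end Pool.Agent.ML45
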