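import Pool.Agent.ML45.Cap3
import Pool.Agent.ML45.Clo

/-!
# Saturated sets (module KYS)
-/

namespace Pool.Agent.ML45

open Classical Set Pool.Agent Pool.Agent.LadderTree Pool.Agent.Forcing Pool.Agent.MAx
open Pool.Agent.BVM (BSet UF eqv memv chk Congr le_of_uf Disc OPair FunOn op on onT)
open Pool.Agent.OG45 Pool.Agent.IN45
open Pool.Agent.SP45 (pre cyl pre_succ pre_zero length_pre pre_eq_iff mem_cyl mem_cyl_pre self_mem
  cyl_nil mem_cyl_cons cyl_nonempty cyl_anti)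

/-- module KYS: names of subsets of `ω` are constant on infinite sets of the ground model.
`exists_reads` for `InS T` (`fc_decide`), and `p2_of_lower isLowerSet_univ` for the function `f` -/
theorem exists_constant (T : BSet (RO (Hm IM))) (r : Hm IM) : ∃ r' ≤ r, ∃ B : Set ℕ, B.Infinite ∧
    ∃ i : Bool, ∀ m ∈ B, Fc r' fun F => (In F (nm F (on m)) (nm F T) ↔ i = true) := by
  obtain ⟨L, f, hf, ⟨C, hC, hd⟩, hR⟩ := exists_reads (S := InS T) (q := r)
    (fun n x => (RpP.mem _ _).iff (RpP.const _)) (fun n s hs => by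
      obtain ⟨t, ht, h | h⟩ := fc_decide
        (A := fun F : GG (Hm IM) => In F (nm F (on n)) (nm F T)) (RpP.mem _ _) s
      · exact ⟨t, ht, true, fun F hF => ⟨fun _ => rfl, fun _ => h F hF⟩⟩
      · exact ⟨t, ht, false, fun F hF => ⟨fun h' => absurd h' (h F hF), fun h' => by simp at h'⟩⟩)
  obtain ⟨K, -, b, -, hb, i, hi⟩ := p2_of_lower (isLowerSet_univ) f hf
    ⟨C, subset_univ _, hC, hd⟩ univ infinite_univ
  exact ⟨r * L * K, (mul_le _ _).trans (mul_le _ _), b, hb, i,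
    fun m hm => hR m i K fun z => hi z m hm⟩

/-- module KYS, the saturated sets.  By `exists_constant` and `capture` there are `r' ≤ r`, `B`,
`i`, `ζ`, `N`.  For `j ≥ N` and `s ≤ r'` which forces `j ∈ ζ` there are `t ≤ s` and `b ∈ B`, `b ≤ j`,
such that `t` forces that there is no `a ∈ AN β` with `b < a ≤ j`; so `t` forces `b ∈ T ↔ j ∈ T`
(`Sat`; for an internal `a ∈ AN β ⊆ ω` with `on b ∈ a` and `¬ on j ∈ a` show that `a = on a'` for some
`a' ≤ j` by `fc_chk` and `mem_on`), hence `j ∈ T ↔ i = true`. -/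
theorem sat_decided {Z : BSet (RO (Hm IM))} {q : Hm IM} {β : IM} (hq : Act (Iio β) q)
    (hβ : Refl Z q β) {T : BSet (RO (Hm IM))} {r : Hm IM} (hr : r ≤ q)
    (hT : Fc r fun F => Sat (In F) (nm F (onT ℕ)) (nm F (AN β)) (nm F T)) :
    ∃ r' ≤ r, ∃ (ζ : BSet (RO (Hm IM))) (N : ℕ) (i : Bool),
      (Fc r' fun F => In F (nm F ζ) (nm F Z)) ∧ ∀ j ≥ N, Fc r' fun F =>
        In F (nm F (on j)) (nm F ζ) → (In F (nm F (on j)) (nm F T) ↔ i = true) := by
  obtain ⟨r₁, hr₁, B, hB, i, hi⟩ := exists_constant T r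
  obtain ⟨r', hr', ζ, N, hζ, hc⟩ := capture hq hβ (hr₁.trans hr) hB
  refine ⟨r', hr'.trans hr₁, ζ, N, i, hζ, fun j hj => ?_⟩
  refine Fc.imp (RpP.mem _ _) ((RpP.mem _ _).iff (RpP.const _)) fun s hs hsζ => ?_
  refine Fc.dense ((RpP.mem _ _).iff (RpP.const _)) fun s' hs' => ?_
  obtain ⟨t, ht, b, hb, hbj, ha⟩ := hc j hj s' (hs'.trans hs) (hsζ.mono hs')
  refine ⟨t, ht, fun F hF => ?_⟩
  have ht₁ : t ≤ r₁ := ((ht.trans hs').trans hs).trans hr'
  have h1 := (hi b hb).mono ht₁ F hF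
  rcases hbj.eq_or_lt with h0 | hlt
  · rw [h0] at h1
    exact h1
  · have h2 := (hT.mono (ht₁.trans hr₁)) F hF (nm F (on b)) (nm F (on j)) (nat_mem b F)
      (nat_mem j F) (nat_lt.2 hlt) (fun a ha1 ha2 => by
        refine MAx.sN_all (b := (⊤ : RO (Hm IM))) (RpP.val (pt t)) _
          (P := fun F a => In F (nm F (on b)) a → In F (nm F (on j)) a)
          (fun y => (RpP.mem _ _).imp (RpP.mem _ _)) (fun F hF n hn hbn => ?_) F hF a ha1 ha2
        by_contra hcon
        have h3 : n ≤ j := by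
          by_contra h4
          exact hcon (nat_lt.2 (not_le.1 h4))
        exact ha n (nat_lt.1 hbn) h3 F hF ((MAx.In_sN F _ n).2 hn))
    exact h2.symm.trans h1

end Pool.Agent.ML45
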