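import Pool.Agent.ML45.Rfl
import Pool.Agent.ML45.Kys

/-!
# The principle in the quotient models (module KYM)
-/

namespace Pool.Agent.ML45

open Classical Set Pool.Agent Pool.Agent.LadderTree Pool.Agent.Forcing Pool.Agent.MAx
open Pool.Agent.BVM (BSet UF eqv memv chk Congr le_of_uf Disc OPair FunOn op on onT)
open Pool.Agent.OG45 Pool.Agent.IN45
open Pool.Agent.SP45 (pre cyl pre_succ pre_zero length_pre pre_eq_iff mem_cyl mem_cyl_pre self_mem
  cyl_nil mem_cyl_cons cyl_nonempty cyl_anti)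

/-- the first alternative of `Key` -/
def KAlt1 {M : Type*} (E : M → M → Prop) (w Z : M) : Prop :=
  ∃ g, Fn E g w w ∧ ∀ z, E z Z → ∃ k, E k w ∧ ∀ n, E n w → ¬ E n k →
    ∃ m l, E m z ∧ BVM.Rel E g n l ∧ ¬ E m n ∧ ¬ E l m

/-- the conclusion of the second alternative of `Key` for the set `T` -/
def KDec {M : Type*} (E : M → M → Prop) (w Z T : M) : Prop :=
  ∃ z, E z Z ∧ ((∃ k, E k w ∧ ∀ m, E m z → ¬ E m k → E m T) ∨
      ∃ k, E k w ∧ ∀ m, E m z → ¬ E m k → ¬ E m T)

/-- the second alternative of `Key` -/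
def KAlt2 {M : Type*} (E : M → M → Prop) (w Z : M) : Prop :=
  ∃ A, Sub E A w ∧ (∀ n, E n w → ∃ a, E a A ∧ E n a) ∧ ∀ T, Sub E T w → Sat E w A T →
    KDec E w Z T

section

variable {I : Type} [LinearOrder I] [WellFoundedLT I]

omit [WellFoundedLT I] in
theorem rpSubK (x y : BSet (RO (Hm I))) :
    RpP fun F : GG (Hm I) => Sub (In F) (nm F x) (nm F y) := by
  unfold OG45.Sub
  exact RpP.all fun _ => (RpP.mem _ _).imp (RpP.mem _ _)

omit [WellFoundedLT I] in
theorem rpKAlt1 (w Z : BSet (RO (Hm I))) :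
    RpP fun F : GG (Hm I) => KAlt1 (In F) (nm F w) (nm F Z) := by
  unfold KAlt1
  repeat' (first
    | exact RpP.mem _ _ | exact RpP.rel _ _ _ | exact rpFn _ _ _
    | refine RpP.and ?_ ?_ | refine RpP.ex fun _ => ?_ | refine RpP.all fun _ => ?_
    | refine RpP.not ?_
    | refine RpP.imp ?_ ?_)

omit [WellFoundedLT I] in
theorem rpKDec (w Z T : BSet (RO (Hm I))) :
    RpP fun F : GG (Hm I) => KDec (In F) (nm F w) (nm F Z) (nm F T) := by
  unfold KDec
  repeat' (first
    | exact RpP.mem _ _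
    | refine RpP.and ?_ ?_ | refine RpP.or ?_ ?_ | refine RpP.ex fun _ => ?_
    | refine RpP.all fun _ => ?_ | refine RpP.not ?_
    | refine RpP.imp ?_ ?_)

omit [WellFoundedLT I] in
theorem rpKAlt2 (w Z : BSet (RO (Hm I))) :
    RpP fun F : GG (Hm I) => KAlt2 (In F) (nm F w) (nm F Z) := by
  unfold KAlt2
  refine RpP.ex fun A => (rpSubK _ _).and (RpP.and ?_ (RpP.all fun T =>
    (rpSubK _ _).imp ((rpSat _ _ _).imp (rpKDec _ _ _))))
  exact RpP.all fun n => (RpP.mem _ _).imp (RpP.ex fun a => (RpP.mem _ _).and (RpP.mem _ _))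

end

/-- module KYM: the principle holds.
`gg_all` (with a proof that `Key` is `RpP`), `Fc.all` for the name `Z`, `Fc.imp` for its
hypothesis.  At `q`: `Fc.dense`; decide whether the first alternative holds; otherwise `Unb`
is forced by some `q' ≤ q`, and `exists_refl` gives `β`; let `A = AN β`
(`MAx.sN_sub`, `unb_AN`).  For a name `T`, `Fc.all`, `Fc.imp`, `Fc.dense` and `sat_decided`:
`i = true` gives the first possibility, with `k = on N` (quantification over `m ∈ ζ ⊆ ω` by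
`fc_chk`; `¬ on j ∈ on N` means `N ≤ j`, `nat_lt`), and `i = false` the second. -/
theorem key_model (F : GG (Hm IM)) : Key (In F) (nm F (onT ℕ)) := by
  have hSubZ : ∀ Z : BSet (RO (Hm IM)), RpP fun F : GG (Hm IM) =>
      ∀ z, In F z (nm F Z) → Sub (In F) z (nm F (onT ℕ)) := fun Z =>
    RpP.all fun z => (RpP.mem _ _).imp (rpSubK _ _)
  refine gg_all (B := fun F => ∀ Z, (∀ z, In F z Z → Sub (In F) z (nm F (onT ℕ))) →
    KAlt1 (In F) (nm F (onT ℕ)) Z ∨ KAlt2 (In F) (nm F (onT ℕ)) Z)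
    (RpP.all fun Z => (hSubZ Z).imp ((rpKAlt1 _ _).or (rpKAlt2 _ _))) (fun q => ?_) F
  refine Fc.all fun Z => ?_
  refine Fc.imp (hSubZ Z) ((rpKAlt1 _ _).or (rpKAlt2 _ _)) fun q' _ hZ => ?_
  refine Fc.dense ((rpKAlt1 _ _).or (rpKAlt2 _ _)) fun r hr => ?_
  obtain ⟨s, hs, h1 | h1⟩ := fc_decide (rpKAlt1 (onT ℕ) Z) r
  · exact ⟨s, hs, fun F hF => Or.inl (h1 F hF)⟩
  · obtain ⟨β, hβ1, hβ2⟩ := exists_refl (Z := Z) (q := s) h1
    have key : Fc s fun F => ∀ T, Sub (In F) T (nm F (onT ℕ)) →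
        Sat (In F) (nm F (onT ℕ)) (nm F (AN β)) T → KDec (In F) (nm F (onT ℕ)) (nm F Z) T := by
      refine Fc.all fun T => ?_
      refine Fc.imp (rpSubK _ _) ((rpSat _ _ _).imp (rpKDec _ _ _)) fun r1 hr1 _ => ?_
      refine Fc.imp (rpSat _ _ _) (rpKDec _ _ _) fun r2 hr2 hSat => ?_
      refine Fc.dense (rpKDec _ _ _) fun r3 hr3 => ?_
      obtain ⟨r', hr', ζ, N, i, hζ, h⟩ := sat_decided hβ1 hβ2 (T := T) (r := r3)
        (hr3.trans (hr2.trans hr1)) (hSat.mono hr3)
      have key2 : Fc r' fun F => ∀ m, In F m (nm F ζ) → ¬ In F m (nm F (on N)) →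
          (In F m (nm F T) ↔ i = true) := by
        refine Fc.all fun m => ?_
        refine Fc.imp (RpP.mem _ _) ((RpP.mem _ _).not.imp
          ((RpP.mem _ _).iff (RpP.const _))) fun s1 hs1 hm => ?_
        refine Fc.imp (RpP.mem _ _).not ((RpP.mem _ _).iff (RpP.const _)) fun s2 hs2 hm2 => ?_
        refine Fc.dense ((RpP.mem _ _).iff (RpP.const _)) fun s3 hs3 => ?_
        have hq' : s3 ≤ q' := hs3.trans (hs2.trans (hs1.trans (hr'.trans (hr3.trans
          (hr2.trans (hr1.trans (hs.trans hr)))))))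
        have hmw : Fc s3 fun F => In F (nm F m) (nm F (onT ℕ)) := fun F hF =>
          (hZ.mono hq') F hF (nm F ζ) ((hζ.mono (hs3.trans (hs2.trans hs1))) F hF) _
            ((hm.mono (hs3.trans hs2)) F hF)
        obtain ⟨s4, hs4, j, hj⟩ := fc_nat hmw
        refine ⟨s4, hs4, fun F hF => ?_⟩
        have e := hj F hF
        have e1 := (hm.mono (hs4.trans (hs3.trans hs2))) F hF
        have e2 := (hm2.mono (hs4.trans hs3)) F hF
        beta_reduce at e e1 e2 ⊢
        rw [e] at e1 e2 ⊢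
        have hj' : N ≤ j := by
          by_contra hcon
          push Not at hcon
          exact e2 (nat_lt.2 hcon)
        exact ((h j hj').mono (hs4.trans (hs3.trans (hs2.trans hs1)))) F hF e1
      refine ⟨r', hr', fun F hF => ⟨nm F ζ, hζ F hF, ?_⟩⟩
      have h3 := key2 F hF
      beta_reduce at h3
      cases i with
      | true => exact Or.inl ⟨nm F (on N), nat_mem N F, fun m hm hmN => (h3 m hm hmN).2 rfl⟩
      | false =>
        refine Or.inr ⟨nm F (on N), nat_mem N F, fun m hm hmN hcon => ?_⟩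
        exact Bool.false_ne_true ((h3 m hm hmN).1 hcon)
    refine ⟨s, hs, fun F hF => Or.inr ⟨nm F (AN β), fun z hz => ?_, ?_, key F hF⟩⟩
    · exact MAx.sN_sub hz
    · exact unb_AN β s F hF

end Pool.Agent.ML45
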