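import Pool.Agent.ML45.Pres
import Pool.Agent.IN45.Names

/-!
# Names for continuous functions

The elements of the monoid are the conditions: `q ≤ p` if `q = p * L` for some `L`.
-/

namespace Pool.Agent.ML45

open Classical Set Pool.Agent Pool.Agent.LadderTree Pool.Agent.Forcing Pool.Agent.MAx
open Pool.Agent.BVM (BSet UF eqv memv chk Congr le_of_uf Disc OPair FunOn op on onT)
open Pool.Agent.OG45 Pool.Agent.IN45
open Pool.Agent.SP45 (pre cyl pre_succ pre_zero length_pre pre_eq_iff mem_cyl mem_cyl_pre self_mem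
  cyl_nil mem_cyl_cons cyl_nonempty cyl_anti)

variable {I : Type} [LinearOrder I] [WellFoundedLT I]

noncomputable instance : Preorder (Hm I) where
  le q p := ∃ L, q = p * L
  le_refl p := ⟨1, (mul_one p).symm⟩
  le_trans r q p := by
    rintro ⟨L, rfl⟩ ⟨L', rfl⟩
    exact ⟨L' * L, mul_assoc _ _ _⟩

omit [WellFoundedLT I] in
theorem mul_le (p L : Hm I) : p * L ≤ p := ⟨L, rfl⟩

/-- the value of a property of the generic point relative to `p` -/
noncomputable def cl (p : Hm I) (φ : (I → ℕ → ℕ) → Prop) : RO (Hm I) :=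
  below {q | ∃ L, q = p * L ∧ ∀ z, φ (L z)}

omit [WellFoundedLT I] in
theorem forc_cl {p L : Hm I} {φ : (I → ℕ → ℕ) → Prop} (h : ∀ z, φ (L z)) :
    Forc (p * L) (cl p φ) :=
  forc_below.2 fun q hq => ⟨q, le_rfl, p * L, ⟨L, rfl, h⟩, hq⟩

theorem forc_cl_compl {p L : Hm I} {φ : (I → ℕ → ℕ) → Prop} (h : ∀ z, ¬ φ (L z)) :
    Forc (p * L) (cl p φ)ᶜ := by
  rw [forc_compl]
  intro q hq h1
  obtain ⟨r, hr, s, ⟨L', rfl, hL'⟩, hs⟩ := forc_below.1 h1 q le_rfl
  obtain ⟨M, hM⟩ := hr.trans hq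
  obtain ⟨M', hM'⟩ := hs
  rw [hM, mul_assoc, mul_assoc] at hM'
  have h2 := Hm.cancel hM'
  have h3 := hL' (M' (fun _ _ => 0))
  rw [← Hm.mul_map, ← h2, Hm.mul_map] at h3
  exact h _ h3

/-- a box on which a locally constant function is constant -/
theorem exists_box_lc {X : Type*} {f : (I → ℕ → ℕ) → X} (hf : Lc f) (z₀ : I → ℕ → ℕ) :
    ∃ u : Nd I, z₀ ∈ Box u ∧ ∀ z, f (E u z) = f z₀ := by
  obtain ⟨T, n, hT⟩ := hf z₀
  obtain ⟨u, -, h2, h3⟩ := exists_nbhd univ z₀ T n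
  exact ⟨u, h2, fun z => hT _ fun δ hδ => pre_of_box (h3 δ hδ trivial) (E_mem u z)⟩

omit [WellFoundedLT I] in
theorem Lc.comp {X : Type*} {f : (I → ℕ → ℕ) → X} (hf : Lc f) (p : Hm I) :
    Lc fun z => f (p z) := by
  intro z
  obtain ⟨T, n, hT⟩ := hf (p z)
  obtain ⟨T', n', hT'⟩ := p.map_cont z T n
  exact ⟨T', n', fun z' hz' => hT (p z') (hT' z' hz')⟩

/-- a name of a natural number, relative to `p`.
The values `d m = cl p (g z = m)` are pairwise disjoint (if `q` forces `d m` and `d m'`, then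
some `r ≤ q` is `≤ p * L` and `≤ p * L'` with `g (L z) = m`, `g (L' z) = m'`; `Hm.cancel`), and
`BVM.exists_mix` gives a name `a` with `d m ≤ eqv a (on m)`.  For `p * M ≤ p` take a box with
`g (M (E u z))` constant (`exists_box_lc`, `Lc.comp`): `p * (M * E u)` forces `d m`. -/
theorem exists_natN {p : Hm I} {g : (I → ℕ → ℕ) → ℕ} (hg : Lc g) :
    ∃ a : BSet (RO (Hm I)), (Fc p fun F => In F (nm F a) (nm F (onT ℕ))) ∧
      ∀ m L, (∀ z, g (L z) = m) → Fc (p * L) fun F => nm F a = nm F (on m) := by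
  have hd : ∀ i j : ℕ, i ≠ j → cl p (fun z => g z = i) ⊓ cl p (fun z => g z = j) = ⊥ := by
    intro i j hij
    refine le_bot_iff.1 (forc_le_iff.2 fun q hq => ?_)
    rw [forc_inf] at hq
    exfalso
    obtain ⟨r, hr, s, ⟨L, rfl, hL⟩, hs⟩ := forc_below.1 hq.1 q le_rfl
    obtain ⟨r', hr', s', ⟨L', rfl, hL'⟩, hs'⟩ := forc_below.1 (hq.2.mono hr) r le_rfl
    obtain ⟨M, hM⟩ := hr'.trans hs
    obtain ⟨M', hM'⟩ := hs'
    rw [hM, mul_assoc, mul_assoc] at hM'
    have h2 := Hm.cancel hM'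
    have h3 := hL (M (fun _ _ => 0))
    have h4 := hL' (M' (fun _ _ => 0))
    rw [← Hm.mul_map] at h3 h4
    rw [h2] at h3
    exact hij (h3.symm.trans h4)
  obtain ⟨a, ha⟩ := BVM.exists_mix (fun m : ℕ => cl p fun z => g z = m) hd (fun m => on m)
  have key : ∀ m L, (∀ z, g (L z) = m) → Fc (p * L) fun F => nm F a = nm F (on m) := by
    intro m L hL F hF
    exact nm_eq.2 (F.1.mono ((pt_le_iff.2 (forc_cl hL)).trans (ha m)) hF)
  refine ⟨a, Fc.dense (RpP.mem _ _) ?_, key⟩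
  rintro _ ⟨M, rfl⟩
  obtain ⟨u, -, hu⟩ := exists_box_lc (hg.comp M) (fun _ _ => 0)
  refine ⟨p * (M * E u), ⟨E u, (mul_assoc _ _ _).symm⟩, fun F hF => ?_⟩
  have h1 := key _ (M * E u) (fun z => by rw [Hm.mul_map]; exact hu z) F hF
  beta_reduce at h1 ⊢
  rw [h1]
  exact nat_mem _ F

/-- `f` reads the statements `S n x` below `r` -/
def Reads {X : Type} (r : Hm I) (f : (I → ℕ → ℕ) → ℕ → X)
    (S : ℕ → X → GG (Hm I) → Prop) : Prop :=
  ∀ n x L, (∀ z, f (L z) n = x) → Fc (r * L) (S n x)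

omit [WellFoundedLT I] in
theorem Reads.mul {X : Type} {r : Hm I} {f : (I → ℕ → ℕ) → ℕ → X}
    {S : ℕ → X → GG (Hm I) → Prop} (h : Reads r f S) (M : Hm I) :
    Reads (r * M) (fun z => f (M z)) S := by
  intro n x L hL
  rw [mul_assoc]
  exact h n x (M * L) fun z => by rw [Hm.mul_map]; exact hL z

end Pool.Agent.ML45
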