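import Pool.Agent.ML45.Str

/-!
# Continuous functions, and the preservation property (definitions)
-/

namespace Pool.Agent.ML45

open Set
open Pool.Agent.SP45 (pre cyl pre_succ pre_zero length_pre pre_eq_iff mem_cyl mem_cyl_pre self_mem
  cyl_nil mem_cyl_cons cyl_nonempty cyl_anti)

variable {I : Type*} [LinearOrder I]

/-- `f` depends on the coordinates in `C` only -/
def DepOn {X : Type*} (C : Set I) (f : (I → ℕ → ℕ) → X) : Prop :=
  ∀ z z', (∀ δ ∈ C, z δ = z' δ) → f z = f z'

omit [LinearOrder I] in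
theorem DepOn.mono {X : Type*} {C C' : Set I} {f : (I → ℕ → ℕ) → X} (h : DepOn C f)
    (hC : C ⊆ C') : DepOn C' f := fun z z' hz => h z z' fun δ hδ => hz δ (hC hδ)

/-- a continuous function with values in sequences: every entry is locally constant -/
def Cont {X : Type*} (f : (I → ℕ → ℕ) → ℕ → X) : Prop := ∀ m, Lc fun z => f z m

theorem Cont.comp {X : Type*} {f : (I → ℕ → ℕ) → ℕ → X} (h : Cont f) (p : Hm I) :
    Cont fun z => f (p z) := by
  intro m z
  obtain ⟨T, n, hT⟩ := h m (p z)
  obtain ⟨T', n', hT'⟩ := p.map_cont z T n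
  exact ⟨T', n', fun z' hz' => hT (p z') (hT' z' hz')⟩

/-- the composition depends on countably many coordinates -/
theorem DepOn.comp {X : Type*} {C : Set I} {f : (I → ℕ → ℕ) → X} (h : DepOn C f) (p : Hm I)
    {C' : Set I} (hp : ∀ γ z z', (∀ δ ∈ C', z δ = z' δ) → p.a γ z = p.a γ z') :
    DepOn (C ∪ C') fun z => f (p z) := by
  intro z z' hz
  refine h _ _ fun δ hδ => ?_
  rw [p.map_apply, p.map_apply, hp δ z z' fun δ' hδ' => hz δ' (Or.inr hδ'), hz δ (Or.inl hδ)]

/-- on a lower set -/
theorem DepOn.comp_low {X : Type*} {C : Set I} (hC : IsLowerSet C) {f : (I → ℕ → ℕ) → X}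
    (h : DepOn C f) (p : Hm I) : DepOn C fun z => f (p z) := by
  intro z z' hz
  exact h _ _ fun δ hδ => p.map_low fun δ' hδ' => hz δ' (hC hδ' hδ)

/-- a box with nodes in the lower set `D` around a point, on which finitely many entries of a
continuous function which depends on `D` are constant -/
theorem exists_box_const {X : Type*} {D : Set I} {f : (I → ℕ → ℕ) → ℕ → X} (hf : Cont f)
    (hD : DepOn D f) (z₀ : I → ℕ → ℕ) (M : Finset ℕ) :
    ∃ u : Nd I, SuppIn D u ∧ z₀ ∈ Box u ∧ ∀ z ∈ Box u, ∀ m ∈ M, f z m = f z₀ m := by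
  classical
  choose T n hT using fun m => hf m z₀
  obtain ⟨u, h1, h2, h3⟩ := exists_nbhd D z₀ (M.biUnion T) (M.sup n)
  refine ⟨u, h1, h2, fun z hz m hm => ?_⟩
  -- replace the other coordinates
  let z' : I → ℕ → ℕ := fun δ => if δ ∈ D then z δ else z₀ δ
  have e : f z = f z' := hD z z' fun δ hδ => (if_pos hδ).symm
  rw [e]
  refine hT m z' fun δ hδ => ?_
  by_cases h4 : δ ∈ D
  · rw [show z' δ = z δ from if_pos h4]
    exact pre_eq_of_le (Finset.le_sup (f := n) hm)
      (pre_of_box (h3 δ (Finset.mem_biUnion.2 ⟨m, hm, hδ⟩) h4) hz)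
  · rw [show z' δ = z₀ δ from if_neg h4]

/-- the preservation property of the set `D` of coordinates: every sequence of continuous bits
which depends on countably many coordinates in `D` is constant on an infinite set of indices after
composition with an element which acts on `D` -/
def P2 (D : Set I) : Prop := ∀ (f : (I → ℕ → ℕ) → ℕ → Bool), Cont f →
  (∃ C ⊆ D, C.Countable ∧ DepOn C f) → ∀ a : Set ℕ, a.Infinite →
    ∃ K, Act D K ∧ ∃ b ⊆ a, b.Infinite ∧ ∃ i, ∀ z, ∀ m ∈ b, f (K z) m = i

/-- the point which agrees with `z` below `β` and with `w` from `β` on -/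
def glue (β : I) (z w : I → ℕ → ℕ) : I → ℕ → ℕ := fun δ => if δ < β then z δ else w δ

theorem glue_lt {β δ : I} (h : δ < β) (z w : I → ℕ → ℕ) : glue β z w δ = z δ := if_pos h

theorem glue_ge {β δ : I} (h : β ≤ δ) (z w : I → ℕ → ℕ) : glue β z w δ = w δ :=
  if_neg (not_lt.2 h)

/-- elements which act below `β` only change the first part -/
theorem map_glue {β : I} {L : Hm I} (hL : Act (Iio β) L) (z w : I → ℕ → ℕ) :
    L (glue β z w) = glue β (L z) w := by
  funext δ
  rcases lt_or_ge δ β with h | h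
  · rw [glue_lt h]
    exact L.map_low fun δ' hδ' => glue_lt (hδ'.trans_lt h) z w
  · rw [glue_ge h, hL.map (fun h' => absurd h' (not_lt.2 h)), glue_ge h]

end Pool.Agent.ML45
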