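import Pool.Agent.ML45.PDef

/-!
# The limit case: availability (module PLA)
-/

namespace Pool.Agent.ML45

open Set
open Pool.Agent.SP45 (pre cyl pre_succ pre_zero length_pre pre_eq_iff mem_cyl mem_cyl_pre self_mem
  cyl_nil mem_cyl_cons cyl_nonempty cyl_anti)

variable {I : Type*} [LinearOrder I] [WellFoundedLT I]

/-- below `β`, every point can be continued such that all bits with index in `b` are `i` -/
def Phi (f : (I → ℕ → ℕ) → ℕ → Bool) (β : I) (p : Hm I) (b : Set ℕ) (i : Bool) : Prop :=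
  ∀ z, ∃ w, ∀ m ∈ b, f (p (glue β z w)) m = i

theorem Phi.anti {f : (I → ℕ → ℕ) → ℕ → Bool} {β : I} {p : Hm I} {b b' : Set ℕ} {i : Bool}
    (h : Phi f β p b i) (hb : b' ⊆ b) : Phi f β p b' i := fun z => by
  obtain ⟨w, hw⟩ := h z
  exact ⟨w, fun m hm => hw m (hb hm)⟩

/-- going down: `glue β' z (glue β z w) = glue β z w` for `β' ≤ β` -/
theorem Phi.low {f : (I → ℕ → ℕ) → ℕ → Bool} {β β' : I} {p : Hm I} {b : Set ℕ} {i : Bool}
    (h : Phi f β p b i) (hβ : β' ≤ β) : Phi f β' p b i := fun z => by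
  obtain ⟨w, hw⟩ := h z
  refine ⟨glue β z w, ?_⟩
  have e : glue β' z (glue β z w) = glue β z w := by
    funext δ
    rcases lt_or_ge δ β' with h1 | h1
    · rw [glue_lt h1, glue_lt (h1.trans_le hβ)]
    · rw [glue_ge h1]
  rw [e]
  exact hw

/-- heredity: `map_glue` -/
theorem Phi.mul {f : (I → ℕ → ℕ) → ℕ → Bool} {β : I} {p L : Hm I} {b : Set ℕ} {i : Bool}
    (h : Phi f β p b i) (hL : Act (Iio β) L) : Phi f β (p * L) b i := fun z => by
  obtain ⟨w, hw⟩ := h (L z)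
  refine ⟨w, ?_⟩
  rw [Hm.mul_map, map_glue hL]
  exact hw

/-- availability: apply `P2 (Iio β)` to `z ↦ f (p (glue β z 0))`, which is continuous, and depends
on the countable set `(C ∪ C') ∩ Iio β`, where `C'` is from `p.supp` (`DepOn.comp`); then
`p * K` applied to `glue β z 0` is `p (glue β (K z) 0)` by `map_glue` -/
theorem phi_avail {f : (I → ℕ → ℕ) → ℕ → Bool} (hf : Cont f) {C : Set I} (hC : C.Countable)
    (hd : DepOn C f) {β : I} (hP : P2 (Iio β)) (p : Hm I) {b : Set ℕ} (hb : b.Infinite) :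
    ∃ q, Act (Iio β) q ∧ ∃ b' ⊆ b, b'.Infinite ∧ ∃ i, Phi f β (p * q) b' i := by
  obtain ⟨C', hC', -, hp⟩ := p.supp
  let o : I → ℕ → ℕ := fun _ _ => 0
  have h1 : Cont fun z => f (p (glue β z o)) := by
    intro m z
    obtain ⟨T, n, hT⟩ := hf.comp p m (glue β z o)
    refine ⟨T, n, fun z' hz' => hT (glue β z' o) fun δ hδ => ?_⟩
    rcases lt_or_ge δ β with h2 | h2
    · rw [glue_lt h2, glue_lt h2]
      exact hz' δ hδ
    · rw [glue_ge h2, glue_ge h2]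
  have h2 : DepOn ((C ∪ C') ∩ Iio β) fun z => f (p (glue β z o)) := by
    intro z z' hz
    refine hd.comp p hp _ _ fun δ hδ => ?_
    rcases lt_or_ge δ β with h3 | h3
    · rw [glue_lt h3, glue_lt h3]
      exact hz δ ⟨hδ, h3⟩
    · rw [glue_ge h3, glue_ge h3]
  obtain ⟨K, hK, b', hb', hi', i, hKi⟩ := hP _ h1
    ⟨_, inter_subset_right, (hC.union hC').mono inter_subset_left, h2⟩ b hb
  refine ⟨K, hK, b', hb', hi', i, fun z => ⟨o, fun m hm => ?_⟩⟩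
  rw [Hm.mul_map, map_glue hK]
  exact hKi z m hm

/-- the dichotomy.  Either for some `β₁ ∈ C`, `p₁`, `b₁` no `Phi f β₁ (p₁ * L) b' false` holds;
then, by `Phi.low`, none holds for `β ≥ β₁`, and `phi_avail` gives `Phi … true` densely
below `p₁`, `b₁`, for all `β ≥ β₁`; or `Phi … false` is dense for all `β ∈ C` (take `p = 1`,
`b = a`).  Here `D` is a set which contains `Iio β` for each `β ∈ C`. -/
theorem phi_dichotomy {f : (I → ℕ → ℕ) → ℕ → Bool} (hf : Cont f) {C D : Set I}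
    (hC : C.Countable) (hne : C.Nonempty) (hd : DepOn C f) (hP : ∀ β ∈ C, P2 (Iio β))
    (hD : ∀ β ∈ C, Iio β ⊆ D) {a : Set ℕ} (ha : a.Infinite) :
    ∃ i, ∃ p, Act D p ∧ ∃ b ⊆ a, b.Infinite ∧ ∃ β₀ ∈ C, ∀ β ∈ C, β₀ ≤ β → ∀ L, Act D L →
      ∀ b' ⊆ b, b'.Infinite → ∃ L', Act D L' ∧ ∃ b'' ⊆ b', b''.Infinite ∧
        Phi f β (p * L * L') b'' i := by
  by_cases hA : ∃ β₁ ∈ C, ∃ p₁, Act D p₁ ∧ ∃ b₁ ⊆ a, b₁.Infinite ∧ ∀ L, Act D L → ∀ b' ⊆ b₁,
      b'.Infinite → ¬ Phi f β₁ (p₁ * L) b' false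
  · obtain ⟨β₁, hβ₁, p₁, hp₁, b₁, hb₁, hb₁i, h⟩ := hA
    refine ⟨true, p₁, hp₁, b₁, hb₁, hb₁i, β₁, hβ₁, fun β hβ hle L hL b' hb' hb'i => ?_⟩
    obtain ⟨q, hq, b'', hb'', hb''i, i, hΦ⟩ := phi_avail hf hC hd (hP β hβ) (p₁ * L) hb'i
    have hqD : Act D q := hq.mono (hD β hβ)
    refine ⟨q, hqD, b'', hb'', hb''i, ?_⟩
    cases i with
    | true => exact hΦ
    | false =>
      exfalso
      refine h (L * q) (hL.mul hqD) b'' (hb''.trans hb') hb''i ?_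
      rw [← mul_assoc]
      exact hΦ.low hle
  · push Not at hA
    obtain ⟨β₀, hβ₀⟩ := hne
    refine ⟨false, 1, Act.one D, a, Subset.rfl, ha, β₀, hβ₀, fun β hβ _ L hL b' hb' hb'i => ?_⟩
    obtain ⟨L', hL', b'', hb'', hb''i, hΦ⟩ := hA β hβ (1 * L) ((Act.one D).mul hL) b' hb' hb'i
    exact ⟨L', hL', b'', hb'', hb''i, hΦ⟩

end Pool.Agent.ML45
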