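import Pool.Agent.ML45.PLim

/-!
# The limit case (module PLC)
-/

namespace Pool.Agent.ML45

open Set
open Pool.Agent.SP45 (pre cyl pre_succ pre_zero length_pre pre_eq_iff mem_cyl mem_cyl_pre self_mem
  cyl_nil mem_cyl_cons cyl_nonempty cyl_anti)

variable {I : Type*} [LinearOrder I] [WellFoundedLT I]

omit [WellFoundedLT I] in
/-- a bound in `C` for a finite set of coordinates below elements of `C` -/
theorem plc_bound {C : Set I} (hmax : ∀ β ∈ C, ∃ β' ∈ C, β < β') {β₀ : I} (hβ₀ : β₀ ∈ C)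
    (F : Finset I) (hF : ∀ γ ∈ F, ∃ δ ∈ C, γ ≤ δ) :
    ∃ β ∈ C, β₀ ≤ β ∧ ∀ γ ∈ F, γ < β := by
  classical
  induction F using Finset.induction_on with
  | empty => exact ⟨β₀, hβ₀, le_rfl, fun γ hγ => absurd hγ (Finset.notMem_empty γ)⟩
  | insert γ F _ ih =>
    obtain ⟨β, hβ, h1, h2⟩ := ih fun γ' hγ' => hF γ' (Finset.mem_insert_of_mem hγ')
    obtain ⟨δ, hδ, h3⟩ := hF γ (Finset.mem_insert_self _ _)
    obtain ⟨δ', hδ', h4⟩ := hmax δ hδ
    rcases le_total β δ' with h5 | h5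
    · refine ⟨δ', hδ', h1.trans h5, fun γ' hγ' => ?_⟩
      rcases Finset.mem_insert.1 hγ' with rfl | hγ'
      · exact h3.trans_lt h4
      · exact (h2 γ' hγ').trans_le h5
    · refine ⟨β, hβ, h1, fun γ' hγ' => ?_⟩
      rcases Finset.mem_insert.1 hγ' with rfl | hγ'
      · exact (h3.trans_lt h4).trans_le h5
      · exact h2 γ' hγ'

/-- the conditions on the strategy at the time `T` -/
def PlcCond (f : (I → ℕ → ℕ) → ℕ → Bool) (C D : Set I) (p : Hm I) (b : Set ℕ) (β₀ : I) (i : Bool)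
    (T : ℕ) (K : ℕ → Hm I) (x : ℕ → Set ℕ × ℕ × I) : Prop :=
  Act D (K T) ∧ ((x T).2.2 ∈ C ∧ β₀ ≤ (x T).2.2 ∧ ∀ γ ∈ FF K T, γ < (x T).2.2) ∧
    ((x T).1 ⊆ b ∧ (x T).1.Infinite ∧ Phi f (x T).2.2 (p * (qq K T * K T)) (x T).1 i) ∧
    (0 < T → (x T).1 ⊆ (x (T - 1)).1 ∧ (x T).2.1 ∈ (x (T - 1)).1 ∧
      (x (T - 1)).2.1 < (x T).2.1 ∧
      ∀ z, ∀ j, pr K T < j → j ≤ T → f (p (qq K T (K T z))) (x j).2.1 = i)

theorem plc_loc {f : (I → ℕ → ℕ) → ℕ → Bool} {C D : Set I} {p : Hm I} {b : Set ℕ} {β₀ : I}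
    {i : Bool} {T : ℕ} {K K' : ℕ → Hm I} {x x' : ℕ → Set ℕ × ℕ × I}
    (hK : ∀ T' ≤ T, K T' = K' T') (hx : ∀ T' ≤ T, x T' = x' T')
    (h : PlcCond f C D p b β₀ i T K x) : PlcCond f C D p b β₀ i T K' x' := by
  obtain ⟨h1, h2, h3, h4⟩ := h
  have e1 := hK T le_rfl
  have e2 := hx T le_rfl
  have e3 : ∀ T' < T, K T' = K' T' := fun T' hT' => hK T' hT'.le
  have e4 : qq K T = qq K' T := qq_congr e3
  have e5 : FF K T = FF K' T := FF_congr e3 T le_rfl
  have e6 : pr K T = pr K' T := pr_congr e3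
  have e7 := hx (T - 1) (Nat.sub_le _ _)
  refine ⟨e1 ▸ h1, ?_, ?_, fun hT => ?_⟩
  · rw [← e2, ← e5]; exact h2
  · rw [← e2, ← e4, ← e1]; exact h3
  · obtain ⟨h5, h6, h7, h8⟩ := h4 hT
    refine ⟨?_, ?_, ?_, fun z j hj hjT => ?_⟩
    · rw [← e2, ← e7]; exact h5
    · rw [← e2, ← e7]; exact h6
    · rw [← e2, ← e7]; exact h7
    · rw [← e4, ← e1, ← hx j hjT]
      exact h8 z j (e6 ▸ hj) hjT

theorem plc_step {f : (I → ℕ → ℕ) → ℕ → Bool} (hf : Cont f) {C D : Set I}
    (hDC : D = {γ | ∃ δ ∈ C, γ ≤ δ}) (hd : DepOn C f) (hmax : ∀ β ∈ C, ∃ β' ∈ C, β < β')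
    {i : Bool} {p : Hm I} {b : Set ℕ} (hb : b.Infinite) {β₀ : I} (hβ₀ : β₀ ∈ C)
    (hdens : ∀ β ∈ C, β₀ ≤ β → ∀ L, Act D L →
      ∀ b' ⊆ b, b'.Infinite → ∃ L', Act D L' ∧ ∃ b'' ⊆ b', b''.Infinite ∧
        Phi f β (p * L * L') b'' i)
    (T : ℕ) (K : ℕ → Hm I) (x : ℕ → Set ℕ × ℕ × I)
    (h : ∀ T' < T, PlcCond f C D p b β₀ i T' K x) :
    ∃ k y, PlcCond f C D p b β₀ i T (Function.update K T k) (Function.update x T y) := by
  classical
  have hlow : IsLowerSet D := by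
    rw [hDC]
    rintro γ γ' hγ ⟨δ, hδ, h1⟩
    exact ⟨δ, hδ, hγ.trans h1⟩
  have hCD : C ⊆ D := by
    rw [hDC]
    exact fun γ hγ => ⟨γ, hγ, le_rfl⟩
  have eK : ∀ k, ∀ T' < T, K T' = Function.update K T k T' := fun k T' hT' =>
    (Function.update_of_ne hT'.ne _ _).symm
  rcases Nat.eq_zero_or_pos T with hT | hT
  · subst hT
    obtain ⟨L', hL', b'', hb1, hb2, hb3⟩ := hdens β₀ hβ₀ le_rfl 1 (Act.one D) b subset_rfl hb
    refine ⟨L', (b'', 0, β₀), ?_⟩
    refine ⟨?_, ?_, ?_, fun h0 => absurd h0 (lt_irrefl 0)⟩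
    · rw [Function.update_self]; exact hL'
    · rw [Function.update_self]
      refine ⟨hβ₀, le_rfl, fun γ hγ => ?_⟩
      rw [mem_FF] at hγ
      obtain ⟨T', hT', _⟩ := hγ
      exact absurd hT' (Nat.not_lt_zero _)
    · rw [Function.update_self, Function.update_self, qq_zero]
      refine ⟨hb1, hb2, ?_⟩
      rw [one_mul]
      rw [mul_one] at hb3
      exact hb3
  · set P := pr K T with hP
    have hPT : P < T := pr_lt K hT
    have hact : ∀ T' < T, Act D (K T') := fun T' hT' => (h T' hT').1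
    have hq : Act D (qq K T) := act_qq hact
    obtain ⟨L, hL, hLa⟩ := qq_pr K hT
    rw [← hP] at hL hLa
    obtain ⟨_, ⟨_, _, hβP⟩, ⟨_, _, hPhi⟩, _⟩ := h P hPT
    have hLa' : Act (Iio (x P).2.2) L := hLa.mono fun γ hγ => by
      obtain ⟨δ, hδ, h1⟩ := hγ
      exact h1.trans_lt (hβP δ hδ)
    have hPhi2 := hPhi.mul hLa'
    have e1 : p * (qq K P * K P) * L = p * qq K T := by rw [mul_assoc, hL]
    rw [e1] at hPhi2
    obtain ⟨w, hw⟩ := hPhi2 fun _ _ => 0
    set z₀ := glue (x P).2.2 (fun _ _ => 0) w with hz₀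
    -- the sets decrease
    have hanti : ∀ T1, P ≤ T1 → T1 < T → (x T1).1 ⊆ (x P).1 := by
      intro T1 hT1
      induction T1, hT1 using Nat.le_induction with
      | base => exact fun _ => subset_rfl
      | succ n hn ih =>
        intro hnT
        have h5 := ((h (n + 1) hnT).2.2.2 (Nat.succ_pos n)).1
        exact h5.trans (ih (by omega))
    have hT1 : T - 1 < T := Nat.sub_lt hT one_pos
    have hPT1 : P ≤ T - 1 := by omega
    have hbT := (h (T - 1) hT1).2.2.1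
    obtain ⟨mT, hmT, hmT'⟩ := hbT.2.1.exists_gt (x (T - 1)).2.1
    -- the indices
    set mm : ℕ → ℕ := fun j => if j = T then mT else (x j).2.1 with hmm
    have hmmP : ∀ j, P < j → j ≤ T → mm j ∈ (x P).1 := by
      intro j hj hjT
      rcases hjT.eq_or_lt with h1 | h1
      · rw [hmm]
        simp only [h1, if_true]
        exact hanti (T - 1) hPT1 hT1 hmT
      · rw [hmm]
        simp only [h1.ne, if_false]
        exact hanti (j - 1) (by omega) (by omega) ((h j h1).2.2.2 (by omega)).2.1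
    have hval : ∀ j, P < j → j ≤ T → f (p (qq K T z₀)) (mm j) = i := by
      intro j hj hjT
      have := hw (mm j) (hmmP j hj hjT)
      rw [Hm.mul_map] at this
      exact this
    have hF : Cont fun z => f (p (qq K T z)) := (hf.comp p).comp (qq K T)
    have hFD : DepOn D fun z => f (p (qq K T z)) :=
      ((hd.mono hCD).comp_low hlow p).comp_low hlow (qq K T)
    obtain ⟨u, hu1, _, hu3⟩ := exists_box_const hF hFD z₀ ((Finset.Ioc P T).image mm)
    have hFF : ∀ γ ∈ FF K T, ∃ δ ∈ C, γ ≤ δ := by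
      intro γ hγ
      have := FF_subset hact γ hγ
      rw [hDC] at this
      exact this
    obtain ⟨β, hβ, hβ0, hβF⟩ := plc_bound hmax hβ₀ (FF K T) hFF
    obtain ⟨L', hL', b'', hb1, hb2, hb3⟩ := hdens β hβ hβ0 (qq K T * E u) (hq.mul (act_E hu1))
      (x (T - 1)).1 hbT.1 hbT.2.1
    refine ⟨E u * L', (b'', mT, β), ?_⟩
    have e2 : qq (Function.update K T (E u * L')) T = qq K T := (qq_congr (eK _)).symm
    have e3 : FF (Function.update K T (E u * L')) T = FF K T := (FF_congr (eK _) T le_rfl).symm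
    have e4 : pr (Function.update K T (E u * L')) T = P := (pr_congr (eK _)).symm
    have e5 : Function.update x T (b'', mT, β) (T - 1) = x (T - 1) :=
      Function.update_of_ne hT1.ne _ _
    refine ⟨?_, ?_, ?_, fun _ => ?_⟩
    · rw [Function.update_self]
      exact (act_E hu1).mul hL'
    · rw [Function.update_self, e3]
      exact ⟨hβ, hβ0, hβF⟩
    · rw [Function.update_self, Function.update_self, e2]
      refine ⟨hb1.trans hbT.1, hb2, ?_⟩
      rw [← mul_assoc (qq K T), ← mul_assoc p]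
      exact hb3
    · rw [Function.update_self, Function.update_self, e2, e4, e5]
      refine ⟨hb1, hmT, hmT', fun z j hj hjT => ?_⟩
      have h7 : (Function.update x T (b'', mT, β) j).2.1 = mm j := by
        rw [hmm]
        by_cases hjT' : j = T
        · subst hjT'
          simp
        · rw [Function.update_of_ne hjT']
          simp only [hjT', if_false]
      rw [h7, Hm.mul_map]
      have h8 := hu3 (E u (L' z)) (E_mem u _) (mm j)
        (Finset.mem_image_of_mem _ (Finset.mem_Ioc.2 ⟨hj, hjT⟩))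
      rw [h8]
      exact hval j hj hjT

/-- the limit case of the preservation theorem.
Let `D = {γ | ∃ δ ∈ C, γ ≤ δ}` (a lower set; `Iio β ⊆ D` for `β ∈ C`, and `f` depends on `D`), and
let `i`, `p`, `b`, `β₀` be as in `phi_dichotomy`.  By `exists_strategy` choose `K T` together
with data `x T = (b T, m T, β T) : Set ℕ × ℕ × I` such that:
* `Act D (K T)`; `β T ∈ C`, `β₀ ≤ β T`, and all elements of `FF K T` are `< β T` (possible since
  `C` has no maximum and `FF K T` is a finite subset of `D`: `FF_subset`);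
* `b T ⊆ b` is infinite, `Phi f (β T) (p * (qq K T * K T)) (b T) i`;
* if `T > 0`, then `b T ⊆ b (T - 1)`, `m T ∈ b (T - 1)`, `m (T - 1) < m T`, and
  `f (p (qq K T (K T z))) (m j) = i` for all `z` and all `j` with `pr K T < j ≤ T`.
The step for `T > 0`: choose `m T ∈ b (T - 1)`.  By `qq_pr`, `qq K T = qq K (pr K T) *
K (pr K T) * L` where `L` acts below `β (pr K T)`, so that `Phi f (β (pr K T)) (p * qq K T)
(b (pr K T)) i` by `Phi.mul`; take a point `z₀` with `f (p (qq K T z₀)) m = i` for all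
`m ∈ b (pr K T)`, in particular for `m = m j`, `pr K T < j ≤ T`.  By `exists_box_const` for
`z ↦ f (p (qq K T z))` (which depends on the lower set `D`) there is a box `u` around `z₀`,
supported in `D`, on which these finitely many bits are `i`.  Now choose `β T`, and `L'`
and `b T ⊆ b (T - 1)` by density for `L = qq K T * E u`, and let `K T = E u * L'`
(`E_mem`: `E u` maps into the box).
The locality condition of `exists_strategy` is by `qq_congr`, `FF_congr`, `pr_congr`, `pr_lt`.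
End: let `H` be the fusion (`exists_fus`), and `K = p * H`, which acts on `D`.  The set
`{m j | j ≥ 1} ⊆ b` is infinite.  Let `z` and `j ≥ 1` be given.  By `exists_box_pr` there is
`T ≥ j` with `z ∈ Box (tt K T)` and `pr K T < j`.  So `z = E (tt K T) w` (`E_dr`),
`H z = qq K T (K T (R w))`, and `f (p (H z)) (m j) = i`. -/
theorem p2_limit {f : (I → ℕ → ℕ) → ℕ → Bool} (hf : Cont f) {C : Set I} (hC : C.Countable)
    (hne : C.Nonempty) (hd : DepOn C f) (hmax : ∀ β ∈ C, ∃ β' ∈ C, β < β')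
    (hP : ∀ β ∈ C, P2 (Iio β)) {a : Set ℕ} (ha : a.Infinite) :
    ∃ K, Act {γ | ∃ δ ∈ C, γ ≤ δ} K ∧ ∃ b ⊆ a, b.Infinite ∧ ∃ i, ∀ z, ∀ m ∈ b, f (K z) m = i := by
  classical
  set D : Set I := {γ | ∃ δ ∈ C, γ ≤ δ} with hDC
  have hD : ∀ β ∈ C, Iio β ⊆ D := fun β hβ γ hγ => ⟨β, hβ, le_of_lt hγ⟩
  obtain ⟨i, p, hp, b, hba, hb, β₀, hβ₀, hdens⟩ := phi_dichotomy hf hC hne hd hP hD ha
  have : Inhabited I := ⟨β₀⟩
  obtain ⟨K, x, hKx⟩ := exists_strategy (X := Set ℕ × ℕ × I)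
    (Φ := PlcCond f C D p b β₀ i)
    (fun T K K' x x' hK hx h => plc_loc hK hx h)
    (fun T K x h => plc_step hf hDC hd hmax hb hβ₀ hdens T K x h)
  have hact : ∀ T, Act D (K T) := fun T => (hKx T).1
  obtain ⟨H, hH, hH2⟩ := exists_fus K hact
  have hmono : StrictMono fun T => (x T).2.1 :=
    strictMono_nat_of_lt_succ fun T => ((hKx (T + 1)).2.2.2 (Nat.succ_pos T)).2.2.1
  refine ⟨p * H, hp.mul hH, range fun j => (x (j + 1)).2.1, ?_, ?_, i, ?_⟩
  · rintro _ ⟨j, rfl⟩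
    have h1 := ((hKx (j + 1)).2.2.2 (Nat.succ_pos j)).2.1
    exact hba ((hKx j).2.2.1.1 h1)
  · exact infinite_range_of_injective (hmono.comp (strictMono_nat_of_lt_succ
      fun n => Nat.lt_succ_self _ : StrictMono fun j : ℕ => j + 1)).injective
  · rintro z _ ⟨j, rfl⟩
    obtain ⟨T, hT, hz, hpr⟩ := exists_box_pr K z (Nat.succ_pos j)
    obtain ⟨R, hR, _⟩ := hH2 T
    have h1 : H z = qq K T (K T (R (dr (tt K T) z))) := by
      conv_lhs => rw [← E_dr hz]
      rw [← Hm.mul_map, hR, Hm.mul_map, Hm.mul_map]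
    rw [Hm.mul_map, h1]
    exact ((hKx T).2.2.2 ((Nat.succ_pos j).trans_le hT)).2.2.2 _ _ hpr hT

end Pool.Agent.ML45
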