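import Pool.Agent.ML45.Str

/-!
# The visits of a point (module VIS)

`vt K y r` is the `r`-th time at which `y` is in the box.  All statements follow from
`exists_box` (infinitely many times, so that `Nat.nth` applies: `Nat.nth_mem_of_infinite`,
`Nat.nth_strictMono`, `Nat.exists_lt_card_nth_eq`, `Nat.count_nth_of_infinite`, …), `tt_zero`,
`anc_of_box`, `anc_pr`, `box_of_anc`, `Anc.le_pr`.
-/

namespace Pool.Agent.ML45

open Set
open Pool.Agent.SP45 (pre cyl pre_succ pre_zero length_pre pre_eq_iff mem_cyl mem_cyl_pre self_mem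
  cyl_nil mem_cyl_cons cyl_nonempty cyl_anti)

variable {I : Type*} [LinearOrder I] [WellFoundedLT I]

open Classical in
/-- the `r`-th time at which `y` is in the box -/
noncomputable def vt (K : ℕ → Hm I) (y : I → ℕ → ℕ) (r : ℕ) : ℕ :=
  Nat.nth (fun T => y ∈ Box (tt K T)) r

theorem vt_infinite (K : ℕ → Hm I) (y : I → ℕ → ℕ) :
    (setOf fun T => y ∈ Box (tt K T)).Infinite := by
  refine Set.infinite_of_forall_exists_gt fun n => ?_
  obtain ⟨T, hT, h⟩ := exists_box K y (n + 1)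
  exact ⟨T, h, hT⟩

theorem vt_zero (K : ℕ → Hm I) (y : I → ℕ → ℕ) : vt K y 0 = 0 :=
  Nat.nth_zero_of_zero (tt_zero K y)

theorem vt_mem (K : ℕ → Hm I) (y : I → ℕ → ℕ) (r : ℕ) : y ∈ Box (tt K (vt K y r)) :=
  Nat.nth_mem_of_infinite (vt_infinite K y) r

theorem vt_strictMono (K : ℕ → Hm I) (y : I → ℕ → ℕ) : StrictMono (vt K y) :=
  Nat.nth_strictMono (vt_infinite K y)

theorem exists_vt {K : ℕ → Hm I} {y : I → ℕ → ℕ} {T : ℕ} (h : y ∈ Box (tt K T)) :
    ∃ r, T = vt K y r := by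
  obtain ⟨r, -, hr⟩ := Nat.exists_lt_card_nth_eq (p := fun T => y ∈ Box (tt K T)) h
  exact ⟨r, hr.symm⟩

theorem pr_vt (K : ℕ → Hm I) (y : I → ℕ → ℕ) (r : ℕ) : pr K (vt K y (r + 1)) = vt K y r := by
  have h0 : 0 < vt K y (r + 1) := Nat.zero_lt_of_lt (vt_strictMono K y (Nat.lt_succ_self r))
  obtain ⟨s, hs⟩ := exists_vt (box_of_anc (anc_pr K h0) (vt_mem K y (r + 1)))
  have h1 : s < r + 1 := by
    rw [← (vt_strictMono K y).lt_iff_lt, ← hs]
    exact pr_lt K h0
  have h2 : vt K y r ≤ pr K (vt K y (r + 1)) :=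
    (anc_of_box (vt_strictMono K y (Nat.lt_succ_self r)) (vt_mem K y (r + 1))
      (vt_mem K y r)).le_pr
  rw [hs, (vt_strictMono K y).le_iff_le] at h2
  rw [hs, le_antisymm (Nat.lt_succ_iff.1 h1) h2]

theorem anc_vt (K : ℕ → Hm I) (y : I → ℕ → ℕ) {r r' : ℕ} (h : r < r') :
    Anc K (vt K y r) (vt K y r') :=
  anc_of_box (vt_strictMono K y h) (vt_mem K y r') (vt_mem K y r)

/-- the visits are locally constant: for `T < vt K y r`, the point `y'` is in the box of `T` if
and only if `y` is (for `y'` in the box of `vt K y r`, use `anc_of_box` and `box_of_anc`) -/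
theorem vt_congr {K : ℕ → Hm I} {y y' : I → ℕ → ℕ} {r : ℕ} (h : y' ∈ Box (tt K (vt K y r))) :
    vt K y' r = vt K y r := by
  classical
  have h1 : ∀ T < vt K y r, (y' ∈ Box (tt K T) ↔ y ∈ Box (tt K T)) := by
    intro T hT
    constructor
    · intro h2
      exact box_of_anc (anc_of_box hT h h2) (vt_mem K y r)
    · intro h2
      exact box_of_anc (anc_of_box hT (vt_mem K y r) h2) h
  have h2 : Nat.count (fun T => y ∈ Box (tt K T)) (vt K y r) = r :=
    Nat.count_nth_of_infinite (vt_infinite K y) r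
  have h3 : Nat.count (fun T => y' ∈ Box (tt K T)) (vt K y r) =
      Nat.count (fun T => y ∈ Box (tt K T)) (vt K y r) := by
    rw [Nat.count_eq_card_filter_range, Nat.count_eq_card_filter_range]
    congr 1
    refine Finset.filter_congr fun T hT => ?_
    exact h1 T (Finset.mem_range.1 hT)
  have h4 := Nat.nth_count (p := fun T => y' ∈ Box (tt K T)) h
  rw [h3, h2] at h4
  exact h4

/-- the value of a quantity with `r (T) = r (pr T) + 1` -/
theorem depth_vt {K : ℕ → Hm I} {ρ : ℕ → ℕ} (h0 : ρ 0 = 0)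
    (h : ∀ T > 0, ρ T = ρ (pr K T) + 1) (y : I → ℕ → ℕ) (r : ℕ) : ρ (vt K y r) = r := by
  induction r with
  | zero => rw [vt_zero, h0]
  | succ r ih =>
    rw [h _ (Nat.zero_lt_of_lt (vt_strictMono K y (Nat.lt_succ_self r))), pr_vt, ih]

end Pool.Agent.ML45
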