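import Pool.Agent.ML45.PDef
import Pool.Agent.ML45.Vis

/-!
# The successor case: possible patterns (modules SUA, SUB, SUC)

`f` depends on the coordinates `≤ γ`.
-/

namespace Pool.Agent.ML45

open Set
open Pool.Agent.SP45 (pre cyl pre_succ pre_zero length_pre pre_eq_iff mem_cyl mem_cyl_pre self_mem
  cyl_nil mem_cyl_cons cyl_nonempty cyl_anti)

variable {I : Type*} [LinearOrder I] [WellFoundedLT I]

/-- the bits with index in a finite subset of `b` can be forced to be `i`, below every extension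
and above children of `τ` with arbitrarily large digits -/
def NF (f : (I → ℕ → ℕ) → ℕ → Bool) (γ : I) (q : Hm I) (τ : List ℕ) (b : Set ℕ) (i : Bool) :
    Prop :=
  ∀ M : Finset ℕ, ↑M ⊆ b → ∀ q', Act (Iio γ) q' → ∀ k : ℕ, ∃ q'', Act (Iio γ) q'' ∧
    ∃ d ≥ k, ∃ τ', (d :: τ) <:+ τ' ∧ ∀ z : I → ℕ → ℕ, z γ ∈ cyl τ' → ∀ m ∈ M,
      f (q (q' (q'' z))) m = i

/-- the pattern of the first `n` bits of `x` is nowhere forbidden -/
def Poss (f : (I → ℕ → ℕ) → ℕ → Bool) (γ : I) (q : Hm I) (τ : List ℕ) (n : ℕ) (x : ℕ → Bool) :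
    Prop :=
  ∀ q', Act (Iio γ) q' → ∀ k : ℕ, ∃ q'', Act (Iio γ) q'' ∧
    ∃ d ≥ k, ∃ τ', (d :: τ) <:+ τ' ∧ ∀ z : I → ℕ → ℕ, z γ ∈ cyl τ' → ∀ j < n,
      f (q (q' (q'' z))) j = x j

theorem NF.mul {f : (I → ℕ → ℕ) → ℕ → Bool} {γ : I} {q L : Hm I} {τ : List ℕ} {b : Set ℕ}
    {i : Bool} (h : NF f γ q τ b i) (hL : Act (Iio γ) L) : NF f γ (q * L) τ b i := by
  intro M hM q' hq' k
  obtain ⟨q'', h1, d, hd, τ', h2, h3⟩ := h M hM (L * q') (hL.mul hq') k
  refine ⟨q'', h1, d, hd, τ', h2, fun z hz m hm => ?_⟩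
  rw [Hm.mul_map, ← Hm.mul_map L q']
  exact h3 z hz m hm

theorem NF.anti {f : (I → ℕ → ℕ) → ℕ → Bool} {γ : I} {q : Hm I} {τ : List ℕ} {b b' : Set ℕ}
    {i : Bool} (h : NF f γ q τ b i) (hb : b' ⊆ b) : NF f γ q τ b' i :=
  fun M hM => h M (hM.trans hb)

theorem Poss.mul {f : (I → ℕ → ℕ) → ℕ → Bool} {γ : I} {q L : Hm I} {τ : List ℕ} {n : ℕ}
    {x : ℕ → Bool} (h : Poss f γ q τ n x) (hL : Act (Iio γ) L) : Poss f γ (q * L) τ n x := by
  intro q' hq' k
  obtain ⟨q'', h1, d, hd, τ', h2, h3⟩ := h (L * q') (hL.mul hq') k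
  refine ⟨q'', h1, d, hd, τ', h2, fun z hz m hm => ?_⟩
  rw [Hm.mul_map, ← Hm.mul_map L q']
  exact h3 z hz m hm

theorem poss_zero (f : (I → ℕ → ℕ) → ℕ → Bool) (γ : I) (q : Hm I) (τ : List ℕ)
    (x : ℕ → Bool) : Poss f γ q τ 0 x := fun _ _ k =>
  ⟨1, Act.one _, k, le_rfl, k :: τ, List.suffix_refl _, fun _ _ j hj =>
    absurd hj (Nat.not_lt_zero j)⟩

/-- module SUA: a possible pattern has a possible extension, below some extension `q * q₁`.
If the extension by `false` is not possible at `q`, let `q₁` and `k₁` be such that there are no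
`q''`, `d ≥ k₁`, `τ'`.  Then the extension by `true` is possible at `q * q₁`: given `q'`, `k`,
apply the hypothesis to `q₁ * q'` and `max k k₁`, to get `q''`, `d`, `τ'`.  Take a point `z₀` with
`z₀ γ ∈ cyl τ'`, and a box `u` around it (`exists_box_const` for `z ↦ f (q (q₁ (q' (q'' z))))`,
which depends on the lower set `Iic γ`, with nodes at coordinates in `Iic γ`) on which
the bit `n` is constant, `c` say; we may take `u γ` above `τ'` (both contain `z₀ γ`, replace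
it by the longer one).  Let `v` be the restriction of `u` to `Iio γ` and
`τ'' = u γ`.  So `f (q (q₁ (q' (q'' (E v z))))) n = c` for `z γ ∈ cyl τ''`.  Here `c = false` is
impossible by the choice of `q₁`, `k₁`. -/
theorem poss_succ {f : (I → ℕ → ℕ) → ℕ → Bool} (hf : Cont f) {γ : I} (hd : DepOn (Iic γ) f)
    {q : Hm I} {τ : List ℕ} {n : ℕ} {x : ℕ → Bool} (h : Poss f γ q τ n x) :
    ∃ q₁, Act (Iio γ) q₁ ∧ ∃ c, Poss f γ (q * q₁) τ (n + 1) (Function.update x n c) := by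
  classical
  by_cases h0 : Poss f γ q τ (n + 1) (Function.update x n false)
  · exact ⟨1, Act.one _, false, by rwa [mul_one]⟩
  unfold Poss at h0
  push Not at h0
  obtain ⟨q₁, hq₁, k₁, h1⟩ := h0
  refine ⟨q₁, hq₁, true, fun q' hq' k => ?_⟩
  obtain ⟨q'', hq'', d, hdk, τ', hτ', h2⟩ := h (q₁ * q') (hq₁.mul hq') (max k k₁)
  -- the composite function
  let g : (I → ℕ → ℕ) → ℕ → Bool := fun z => f (q (q₁ (q' (q'' z))))
  have hg : Cont g := (((hf.comp q).comp q₁).comp q').comp q''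
  have hL : IsLowerSet (Iic γ) := isLowerSet_Iic γ
  have hgd : DepOn (Iic γ) g :=
    (((hd.comp_low hL q).comp_low hL q₁).comp_low hL q').comp_low hL q''
  obtain ⟨y₀, hy₀⟩ := cyl_nonempty τ'
  let z₀ : I → ℕ → ℕ := fun _ => y₀
  obtain ⟨u, hu1, hu2, hu3⟩ := exists_box_const hg hgd z₀ {n}
  have hu3' : ∀ z ∈ Box u, g z n = g z₀ n := fun z hz => hu3 z hz n (Finset.mem_singleton_self n)
  -- the restriction of `u`
  let v : Nd I := ⟨fun δ => if δ < γ then u δ else [], u.fin.subset fun δ hδ => by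
    intro h'
    apply hδ
    show (if δ < γ then u δ else []) = []
    rw [h', ite_self]⟩
  have hvl : ∀ δ, δ < γ → v δ = u δ := fun δ hδ => if_pos hδ
  have hvg : ∀ δ, ¬ δ < γ → v δ = [] := fun δ hδ => if_neg hδ
  have hv : Act (Iio γ) (E v) := act_E fun δ hδ => hvg δ hδ
  -- the longer node
  obtain ⟨τ'', ht1, ht2⟩ : ∃ τ'', τ' <:+ τ'' ∧ u γ <:+ τ'' := by
    rcases suffix_or hy₀ (hu2 γ) with h3 | h3
    · exact ⟨u γ, h3, List.suffix_refl _⟩
    · exact ⟨τ', List.suffix_refl _, h3⟩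
  have hbox : ∀ z : I → ℕ → ℕ, z γ ∈ cyl τ'' → E v z ∈ Box u := by
    intro z hz δ
    rcases lt_trichotomy δ γ with h3 | h3 | h3
    · have h4 := E_mem v z δ
      rwa [hvl δ h3] at h4
    · subst h3
      rw [E_map, hvg δ (lt_irrefl δ), app_nil]
      exact mem_cyl_of_suffix ht2 hz
    · rw [hu1 δ (not_le.2 h3), cyl_nil]
      trivial
  have hgam : ∀ z : I → ℕ → ℕ, z γ ∈ cyl τ'' → (E v z) γ ∈ cyl τ' := by
    intro z hz
    rw [E_map, hvg γ (lt_irrefl γ), app_nil]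
    exact mem_cyl_of_suffix ht1 hz
  have hjn : ∀ z : I → ℕ → ℕ, z γ ∈ cyl τ'' → ∀ j < n, g (E v z) j = x j := by
    intro z hz j hj
    have h4 := h2 (E v z) (hgam z hz) j hj
    rw [Hm.mul_map] at h4
    exact h4
  have hfin : ∀ c, g z₀ n = c → ∀ z : I → ℕ → ℕ, z γ ∈ cyl τ'' → ∀ j < n + 1,
      g (E v z) j = Function.update x n c j := by
    intro c hc z hz j hj
    rcases Nat.lt_succ_iff_lt_or_eq.1 hj with h5 | h5
    · rw [hjn z hz j h5, Function.update_of_ne h5.ne]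
    · subst h5
      rw [Function.update_self, hu3' _ (hbox z hz), hc]
  have hc : g z₀ n = true := by
    by_contra hne
    have hc' : g z₀ n = false := by
      rcases Bool.eq_false_or_eq_true (g z₀ n) with h6 | h6
      · exact absurd h6 hne
      · exact h6
    obtain ⟨z, hz, j, hj, hne2⟩ := h1 (q' * (q'' * E v)) (hq'.mul (hq''.mul hv)) d
      ((le_max_right k k₁).trans hdk) τ'' (hτ'.trans ht1)
    apply hne2
    rw [Hm.mul_map, Hm.mul_map]
    exact hfin false hc' z hz j hj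
  refine ⟨q'' * E v, hq''.mul hv, d, (le_max_left k k₁).trans hdk, τ'', hτ'.trans ht1,
    fun z hz j hj => ?_⟩
  rw [Hm.mul_map, Hm.mul_map]
  exact hfin true hc z hz j hj

end Pool.Agent.ML45
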