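import Pool.Agent.ML45.PSuc

/-!
# The successor case: infinitely many bits (modules SUB, SUC)
-/

namespace Pool.Agent.ML45

open Set
open Pool.Agent.SP45 (pre cyl pre_succ pre_zero length_pre pre_eq_iff mem_cyl mem_cyl_pre self_mem
  cyl_nil mem_cyl_cons cyl_nonempty cyl_anti)

variable {I : Type*} [LinearOrder I] [WellFoundedLT I]

/-- boxes are neighbourhoods -/
theorem box_nbhd {I : Type*} {t : Nd I} {y : I → ℕ → ℕ} (h : y ∈ Box t) :
    ∃ (T : Finset I) (n : ℕ), ∀ y', Agr T n y y' → y' ∈ Box t := by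
  refine ⟨t.fin.toFinset, t.fin.toFinset.sup fun δ => (t δ).length, fun y' hy' δ => ?_⟩
  by_cases hδ : t δ = []
  · rw [hδ, cyl_nil]; trivial
  · have h1 : δ ∈ t.fin.toFinset := t.fin.mem_toFinset.2 hδ
    have h2 : (t δ).length ≤ t.fin.toFinset.sup fun δ => (t δ).length :=
      Finset.le_sup (f := fun δ => (t δ).length) h1
    rw [mem_cyl]
    rw [pre_eq_of_le h2 (hy' δ h1)]
    exact h δ

/-- the state of the strategy -/
def SubPhi (f : (I → ℕ → ℕ) → ℕ → Bool) (γ : I) (q : Hm I) (τ : List ℕ) (T : ℕ)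
    (K : ℕ → Hm I) (x : ℕ → ℕ × (ℕ → Bool)) : Prop :=
  Act (Iio γ) (K T) ∧ Poss f γ (q * (qq K T * K T)) τ (x T).1 (x T).2 ∧
    (T = 0 → (x T).1 = 0) ∧ (0 < T → (x T).1 = (x (pr K T)).1 + 1 ∧
      ∀ j < (x (pr K T)).1, (x T).2 j = (x (pr K T)).2 j)

theorem exists_sub {f : (I → ℕ → ℕ) → ℕ → Bool} (hf : Cont f) {γ : I} (hd : DepOn (Iic γ) f)
    (q : Hm I) (τ : List ℕ) : ∃ (K : ℕ → Hm I) (x : ℕ → ℕ × (ℕ → Bool)),
      ∀ T, SubPhi f γ q τ T K x := by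
  refine exists_strategy (X := ℕ × (ℕ → Bool)) (Φ := SubPhi f γ q τ) ?_ ?_
  · intro T K K' x x' hK hx h
    have hK' : ∀ T' < T, K T' = K' T' := fun T' h' => hK T' h'.le
    unfold SubPhi at h ⊢
    rw [← hK T le_rfl, ← hx T le_rfl, ← qq_congr hK', ← pr_congr hK']
    refine ⟨h.1, h.2.1, h.2.2.1, fun hT => ?_⟩
    rw [← hx _ (pr_lt K hT).le]
    exact h.2.2.2 hT
  · intro T K x h
    rcases Nat.eq_zero_or_pos T with hT | hT
    · refine ⟨1, (0, fun _ => false), ?_⟩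
      unfold SubPhi
      rw [Function.update_self, Function.update_self]
      exact ⟨Act.one _, poss_zero _ _ _ _ _, fun _ => rfl, fun h' => absurd hT h'.ne'⟩
    · have hp := pr_lt K hT
      obtain ⟨h1, h2, _, _⟩ := h (pr K T) hp
      obtain ⟨L, hL1, hL2⟩ := qq_pr K hT
      have hF : ∀ δ ∈ FF K (pr K T), δ ∈ Iio γ :=
        FF_subset fun T' hT' => (h T' (hT'.trans hp)).1
      have hL3 : Act (Iio γ) L := by
        refine hL2.mono ?_
        rintro γ' ⟨δ, hδ, hγ'⟩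
        exact lt_of_le_of_lt hγ' (hF δ hδ)
      have h3 := h2.mul hL3
      have e1 : q * (qq K (pr K T) * K (pr K T)) * L = q * qq K T := by
        rw [hL1, mul_assoc]
      rw [e1] at h3
      obtain ⟨q₁, hq₁, c, h4⟩ := poss_succ hf hd h3
      refine ⟨q₁, ((x (pr K T)).1 + 1, Function.update (x (pr K T)).2 (x (pr K T)).1 c), ?_⟩
      have hK' : ∀ T' < T, Function.update K T q₁ T' = K T' := fun T' hT' =>
        Function.update_of_ne hT'.ne _ _
      unfold SubPhi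
      rw [qq_congr hK', pr_congr hK', Function.update_self, Function.update_self,
        Function.update_of_ne hp.ne]
      refine ⟨hq₁, ?_, fun h' => absurd h' hT.ne', fun _ => ⟨rfl, fun j hj => ?_⟩⟩
      · rw [← mul_assoc]
        exact h4
      · exact Function.update_of_ne hj.ne _ _

/-- module SUB.
By `exists_strategy` choose `K T` with data `x T : ℕ × (ℕ → Bool)`, say `(ρ T, e T)`, such that
`Act (Iio γ) (K T)`, `Poss f γ (q * (qq K T * K T)) τ (ρ T) (e T)`, `ρ 0 = 0`, and for `T > 0`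
`ρ T = ρ (pr K T) + 1` and `e T j = e (pr K T) j` for `j < ρ (pr K T)` (`Poss.mul` with `qq_pr`:
`FF K (pr K T) ⊆ Iio γ`, and `poss_succ`).
For a point `y` let `g y j = e (vt K y (j + 1)) j`.  This is continuous (`vt_congr`), and depends
on the countable set of the coordinates which are active at some time (`suppIn_tt`,
`tt K T γ' ≠ []` only for finitely many `γ'`, for each `T`; `vt K y` only depends on the
membership of `y` in these boxes); they are in `Iio γ`.  By `depth_vt`,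
`ρ (vt K y r) = r`, so that (`pr_vt`) `e (vt K y r) j = g y j` for all `r > j`.
Apply `P2 (Iio γ)` to `g` and `b`: there are `q₂` acting on `Iio γ`, `b₁ ⊆ b` and `i` with
`g (q₂ y) m = i` for `m ∈ b₁`.  Let `q₁ = H * q₂` with the fusion `H`.
`NF f γ (q * (H * q₂)) τ b₁ i`: let `M`, `q'`, `k` be given.  Let `y₀ = q₂ (q' 0)`, let `r` be
larger than all elements of `M` and `T = vt K y₀ r`, so that `y₀ ∈ Box (tt K T)` and
`e T m = g y₀ m = i` for `m ∈ M`.  By `exists_near'` (with `A = q₂ * q'`, `z₀ = 0`) there are `u` and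
`A'` with `q₂ * q' * E u = E (tt K T) * A'`.  So `H * q₂ * q' * E u = qq K T * K T * R * A'`.
Apply `Poss` to `R * A'` and `k`, to get `q'''`, `d`, `τ'`, and take `q'' = E u * q'''`. -/
theorem exists_NF {f : (I → ℕ → ℕ) → ℕ → Bool} (hf : Cont f) {γ : I} (hd : DepOn (Iic γ) f)
    (hP : P2 (Iio γ)) {q : Hm I} (hq : Act (Iio γ) q) (τ : List ℕ) {b : Set ℕ}
    (hb : b.Infinite) :
    ∃ q₁, Act (Iio γ) q₁ ∧ ∃ b₁ ⊆ b, b₁.Infinite ∧ ∃ i, NF f γ (q * q₁) τ b₁ i := by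
  obtain ⟨K, x, hx⟩ := exists_sub hf hd q τ
  have hD : ∀ T, Act (Iio γ) (K T) := fun T => (hx T).1
  have hpos : ∀ y r, 0 < vt K y (r + 1) := fun y r =>
    Nat.zero_lt_of_lt (vt_strictMono K y (Nat.lt_succ_self r))
  have hdep : ∀ y r, (x (vt K y r)).1 = r := depth_vt (ρ := fun T => (x T).1) ((hx 0).2.2.1 rfl)
    (fun T hT => ((hx T).2.2.2 hT).1)
  -- the function of the patterns
  obtain ⟨g, hg⟩ : ∃ g : (I → ℕ → ℕ) → ℕ → Bool, g = fun y j => (x (vt K y (j + 1))).2 j :=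
    ⟨_, rfl⟩
  have hgj : ∀ y j, g y j = (x (vt K y (j + 1))).2 j := fun y j => by rw [hg]
  have hcoh : ∀ y j n, (x (vt K y (j + 1 + n))).2 j = g y j := by
    intro y j n
    induction n with
    | zero => exact (hgj y j).symm
    | succ n ih =>
      rw [← ih]
      have h1 := ((hx (vt K y (j + 1 + n + 1))).2.2.2 (hpos y _)).2 j
      rw [pr_vt, hdep] at h1
      exact h1 (by omega)
  have hgc : Cont g := by
    intro j y
    obtain ⟨T, n, h⟩ := box_nbhd (vt_mem K y (j + 1))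
    refine ⟨T, n, fun y' hy' => ?_⟩
    show g y' j = g y j
    rw [hgj, hgj, vt_congr (h y' hy')]
  have hgd : ∃ C ⊆ Iio γ, C.Countable ∧ DepOn C g := by
    refine ⟨⋃ T, {δ | tt K T δ ≠ []}, ?_, ?_, ?_⟩
    · refine iUnion_subset fun T δ hδ => ?_
      by_contra h
      exact hδ (suppIn_tt (fun T' _ => hD T') δ h)
    · exact countable_iUnion fun T => (tt K T).fin.countable
    · intro y y' hy
      have h1 : ∀ T, (y ∈ Box (tt K T)) = (y' ∈ Box (tt K T)) := by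
        intro T
        apply propext
        refine forall_congr' fun δ => ?_
        by_cases hδ : tt K T δ = []
        · rw [hδ, cyl_nil]
          exact Iff.rfl
        · rw [hy δ (mem_iUnion.2 ⟨T, hδ⟩)]
      have h2 : ∀ r, vt K y r = vt K y' r := by
        intro r
        unfold vt
        congr 1
        funext T
        exact h1 T
      rw [hg]
      funext j
      show (x (vt K y (j + 1))).2 j = (x (vt K y' (j + 1))).2 j
      rw [h2]
  obtain ⟨q₂, hq₂, b₁, hb₁, hb₁', i, hi⟩ := hP g hgc hgd b hb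
  obtain ⟨H, hH, hH'⟩ := exists_fus K hD
  refine ⟨H * q₂, hH.mul hq₂, b₁, hb₁, hb₁', i, ?_⟩
  intro M hM q' hq' k
  obtain ⟨z₀, hz₀⟩ : ∃ z₀ : I → ℕ → ℕ, z₀ = fun _ _ => 0 := ⟨_, rfl⟩
  obtain ⟨r, hr⟩ : ∃ r, r = M.sup id + 1 := ⟨_, rfl⟩
  obtain ⟨y₀, hy₀⟩ : ∃ y₀, y₀ = q₂ (q' z₀) := ⟨_, rfl⟩
  obtain ⟨T, hT⟩ : ∃ T, T = vt K y₀ r := ⟨_, rfl⟩
  have hbox : (q₂ * q') z₀ ∈ Box (tt K T) := by
    rw [Hm.mul_map, ← hy₀, hT]
    exact vt_mem K y₀ r
  obtain ⟨u, A', hu1, _, hu3, hu4⟩ := exists_near' (isLowerSet_Iio γ) (hq₂.mul hq')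
    (suppIn_tt fun T' _ => hD T') hbox
  obtain ⟨R, hR1, hR2⟩ := hH' T
  obtain ⟨q₃, hq₃, d, hdk, τ', hτ', h3⟩ := (hx T).2.1 (R * A') (hR2.mul hu4) k
  refine ⟨E u * q₃, (act_E hu3).mul hq₃, d, hdk, τ', hτ', fun z hz m hm => ?_⟩
  have e1 : q * (H * q₂) * (q' * (E u * q₃)) = q * (qq K T * K T) * (R * A' * q₃) := by
    calc q * (H * q₂) * (q' * (E u * q₃)) = q * (H * ((q₂ * q' * E u) * q₃)) := by
          simp only [mul_assoc]
      _ = q * ((H * E (tt K T)) * (A' * q₃)) := by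
          rw [hu1]
          simp only [mul_assoc]
      _ = q * (qq K T * K T) * (R * A' * q₃) := by
          rw [hR1]
          simp only [mul_assoc]
  have e2 : (q * (H * q₂)) (q' ((E u * q₃) z)) =
      (q * (qq K T * K T)) ((R * A') (q₃ z)) := by
    rw [← Hm.mul_map q' (E u * q₃), ← Hm.mul_map (q * (H * q₂)), e1,
      Hm.mul_map (q * (qq K T * K T)), Hm.mul_map (R * A') q₃]
  have hmr : m < r := by
    rw [hr]
    exact Nat.lt_succ_of_le (Finset.le_sup (f := id) hm)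
  rw [e2, h3 z hz m (by rw [hT, hdep]; exact hmr)]
  have h4 : r = m + 1 + (r - (m + 1)) := by omega
  rw [hT, h4, hcoh, hy₀]
  exact hi (q' z₀) m (hM hm)

/-- module SUC, the dichotomy.  Either for some `q₁`, `τ₁`, `b₁` no `NF f γ (q₁ * L) τ b false`
with `L` acting on `Iio γ`, `τ` above `τ₁` and `b ⊆ b₁` infinite holds; then `exists_NF` always
gives `i = true` below; or `NF … false` is dense everywhere (take `q = 1`, `τ = []`, `b = a`). -/
theorem nf_dichotomy {f : (I → ℕ → ℕ) → ℕ → Bool} (hf : Cont f) {γ : I} (hd : DepOn (Iic γ) f)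
    (hP : P2 (Iio γ)) {a : Set ℕ} (ha : a.Infinite) :
    ∃ i, ∃ q, Act (Iio γ) q ∧ ∃ τ, ∃ b ⊆ a, b.Infinite ∧ ∀ L, Act (Iio γ) L →
      ∀ τ', τ <:+ τ' → ∀ b' ⊆ b, b'.Infinite → ∃ q₁, Act (Iio γ) q₁ ∧ ∃ τ₁, τ' <:+ τ₁ ∧
        ∃ b₁ ⊆ b', b₁.Infinite ∧ NF f γ (q * L * q₁) τ₁ b₁ i := by
  by_cases hc : ∃ q₁, Act (Iio γ) q₁ ∧ ∃ τ₁, ∃ b₁ ⊆ a, b₁.Infinite ∧ ∀ L, Act (Iio γ) L →
      ∀ τ', τ₁ <:+ τ' → ∀ b' ⊆ b₁, b'.Infinite → ¬ NF f γ (q₁ * L) τ' b' false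
  · obtain ⟨q₁, hq₁, τ₁, b₁, hb₁, hb₁', h⟩ := hc
    refine ⟨true, q₁, hq₁, τ₁, b₁, hb₁, hb₁', fun L hL τ' hτ' b' hb' hb'' => ?_⟩
    obtain ⟨q₂, hq₂, b₂, hb₂, hb₂', i, hi⟩ := exists_NF hf hd hP (hq₁.mul hL) τ' hb''
    refine ⟨q₂, hq₂, τ', List.suffix_refl _, b₂, hb₂, hb₂', ?_⟩
    cases i with
    | true => exact hi
    | false =>
      rw [mul_assoc] at hi
      exact absurd hi (h (L * q₂) (hL.mul hq₂) τ' hτ' b₂ (hb₂.trans hb') hb₂')
  · push Not at hc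
    refine ⟨false, 1, Act.one _, [], a, Subset.rfl, ha, fun L hL τ' _ b' hb' hb'' => ?_⟩
    obtain ⟨L', hL', τ₁, hτ₁, b₁, hb₁, hb₁', h⟩ := hc L hL τ' b' hb' hb''
    refine ⟨L', hL', τ₁, hτ₁, b₁, hb₁, hb₁', ?_⟩
    rw [one_mul]
    exact h

end Pool.Agent.ML45
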