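import Pool.Agent.ML45.PSuc2

/-!
# The successor case: the strategy (module SUD)
-/

namespace Pool.Agent.ML45

open Set
open Pool.Agent.SP45 (pre cyl pre_succ pre_zero length_pre pre_eq_iff mem_cyl mem_cyl_pre self_mem
  cyl_nil mem_cyl_cons cyl_nonempty cyl_anti)

variable {I : Type*} [LinearOrder I] [WellFoundedLT I]

/-- the data of the strategy: the depth, the image of the node, the infinite set of
indices, the chosen index -/
structure SData where
  /-- the depth -/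
  ρ : ℕ
  /-- the image of the node `nd ρ` -/
  θ : List ℕ
  /-- the infinite set -/
  b : Set ℕ
  /-- the index -/
  m : ℕ

instance : Inhabited SData := ⟨⟨0, [], ∅, 0⟩⟩

/-- the last clause of the strategy -/
def SudQ (f : (I → ℕ → ℕ) → ℕ → Bool) (γ : I) (q : Hm I) (i : Bool) (T : ℕ) (K : ℕ → Hm I)
    (x : ℕ → SData) : Prop :=
  ∃ (T' k : ℕ) (s : List ℕ), Anc K T' T ∧ nd (x T).ρ = k :: s ∧
    (x T').ρ = code s ∧ (∃ d, (∀ T₁ < T, ∀ c ∈ (x T₁).θ, c < d) ∧
      (d :: (x T').θ) <:+ (x T).θ) ∧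
    ∀ z : I → ℕ → ℕ, z γ ∈ cyl (x T).θ → ∀ j, T' < j → j ≤ T →
      f (q (qq K T (K T z))) (x j).m = i

/-- the state of the strategy -/
def SudPhi (f : (I → ℕ → ℕ) → ℕ → Bool) (γ : I) (q : Hm I) (τ : List ℕ) (b : Set ℕ) (i : Bool)
    (T : ℕ) (K : ℕ → Hm I) (x : ℕ → SData) : Prop :=
  Act (Iio γ) (K T) ∧ τ <:+ (x T).θ ∧ (x T).b ⊆ b ∧ (x T).b.Infinite ∧ (x T).m ∈ b ∧
    NF f γ (q * (qq K T * K T)) (x T).θ (x T).b i ∧ (T = 0 → (x T).ρ = 0) ∧
    (0 < T → (x T).b ⊆ (x (T - 1)).b ∧ (x (T - 1)).m < (x T).m ∧ (x T).m ∈ (x (T - 1)).b ∧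
      (x T).ρ = (x (pr K T)).ρ + 1 ∧ SudQ f γ q i T K x)

theorem anc_congr {K K' : ℕ → Hm I} {T' T : ℕ} (h : ∀ T₁ < T, K T₁ = K' T₁) (ha : Anc K T' T) :
    Anc K' T' T := by
  refine ⟨ha.1, fun δ => ?_⟩
  rw [← tt_congr (T := T') fun T₁ h₁ => h T₁ (h₁.trans ha.1), ← tt_congr h]
  exact ha.2 δ

theorem sudQ_congr {f : (I → ℕ → ℕ) → ℕ → Bool} {γ : I} {q : Hm I} {i : Bool} {T : ℕ}
    {K K' : ℕ → Hm I} {x x' : ℕ → SData} (hK : ∀ T' ≤ T, K T' = K' T')
    (hx : ∀ T' ≤ T, x T' = x' T') (h : SudQ f γ q i T K x) : SudQ f γ q i T K' x' := by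
  obtain ⟨T', k, s, h1, h2, h3, ⟨d, h4, h5⟩, h6⟩ := h
  have hT' : T' ≤ T := h1.1.le
  refine ⟨T', k, s, anc_congr (fun T₁ h₁ => hK T₁ h₁.le) h1, ?_, ?_, ⟨d, ?_, ?_⟩, ?_⟩
  · rw [← hx T le_rfl]; exact h2
  · rw [← hx T' hT']; exact h3
  · intro T₁ h₁
    rw [← hx T₁ h₁.le]
    exact h4 T₁ h₁
  · rw [← hx T le_rfl, ← hx T' hT']; exact h5
  · intro z hz j hj hjT
    rw [← hx T le_rfl] at hz
    rw [← hx j hjT, ← hK T le_rfl, ← qq_congr fun T₁ h₁ => hK T₁ h₁.le]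
    exact h6 z hz j hj hjT

theorem sudPhi_congr {f : (I → ℕ → ℕ) → ℕ → Bool} {γ : I} {q : Hm I} {τ : List ℕ} {b : Set ℕ}
    {i : Bool} {T : ℕ} {K K' : ℕ → Hm I} {x x' : ℕ → SData} (hK : ∀ T' ≤ T, K T' = K' T')
    (hx : ∀ T' ≤ T, x T' = x' T') (h : SudPhi f γ q τ b i T K x) :
    SudPhi f γ q τ b i T K' x' := by
  have hK' : ∀ T' < T, K T' = K' T' := fun T' h' => hK T' h'.le
  obtain ⟨h1, h2, h3, h4, h5, h6, h7, h8⟩ := h
  unfold SudPhi
  rw [← hK T le_rfl, ← hx T le_rfl, ← qq_congr hK', ← pr_congr hK', ← hx (T - 1) (Nat.sub_le _ _)]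
  refine ⟨h1, h2, h3, h4, h5, h6, h7, fun hT => ?_⟩
  obtain ⟨h9, h10, h11, h12, h13⟩ := h8 hT
  rw [← hx _ (pr_lt K hT).le]
  exact ⟨h9, h10, h11, h12, sudQ_congr hK hx h13⟩

/-- the depths of the ancestors of `T` are the numbers up to the depth of the parent -/
theorem exists_anc_depth {K : ℕ → Hm I} {ρ : ℕ → ℕ} (h0 : ρ 0 = 0) {r : ℕ} : ∀ T : ℕ,
    (∀ T' < T, 0 < T' → ρ T' = ρ (pr K T') + 1) → 0 < T → r ≤ ρ (pr K T) →
      ∃ T', Anc K T' T ∧ ρ T' = r := by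
  intro T
  induction T using Nat.strong_induction_on with
  | _ T ih =>
    intro h hT hr
    rcases hr.eq_or_lt with h1 | h1
    · exact ⟨pr K T, anc_pr K hT, h1.symm⟩
    · have hp := pr_lt K hT
      have h2 : 0 < pr K T := by
        rcases Nat.eq_zero_or_pos (pr K T) with h2 | h2
        · rw [h2, h0] at h1
          exact absurd h1 (Nat.not_lt_zero r)
        · exact h2
      obtain ⟨T', h3, h4⟩ := ih _ hp (fun T₁ h₁ => h T₁ (h₁.trans hp)) h2 (by
        rw [h _ hp h2] at h1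
        exact Nat.lt_succ_iff.1 h1)
      exact ⟨T', h3.trans (anc_pr K hT), h4⟩

theorem sud_step {f : (I → ℕ → ℕ) → ℕ → Bool} {γ : I} {q : Hm I} {τ : List ℕ}
    {b : Set ℕ} {i : Bool} (hbi : b.Infinite)
    (hdens : ∀ L, Act (Iio γ) L → ∀ τ', τ <:+ τ' → ∀ b' ⊆ b, b'.Infinite →
      ∃ q₁, Act (Iio γ) q₁ ∧ ∃ τ₁, τ' <:+ τ₁ ∧
        ∃ b₁ ⊆ b', b₁.Infinite ∧ NF f γ (q * L * q₁) τ₁ b₁ i) (T : ℕ) (K : ℕ → Hm I)
    (x : ℕ → SData) (h : ∀ T' < T, SudPhi f γ q τ b i T' K x) :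
    ∃ k y, SudPhi f γ q τ b i T (Function.update K T k) (Function.update x T y) := by
  classical
  rcases Nat.eq_zero_or_pos T with hT | hT
  · subst hT
    obtain ⟨q₁, hq₁, τ₁, hτ₁, b₁, hb₁, hb₁', h1⟩ := hdens 1 (Act.one _) τ (List.suffix_refl _) b
      Subset.rfl hbi
    obtain ⟨m, hm⟩ := hbi.nonempty
    refine ⟨q₁, ⟨0, τ₁, b₁, m⟩, ?_⟩
    unfold SudPhi
    rw [Function.update_self, Function.update_self, qq_zero]
    refine ⟨hq₁, hτ₁, hb₁, hb₁', hm, ?_, fun _ => rfl, fun h' => absurd h' (lt_irrefl 0)⟩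
    rw [← mul_assoc]
    exact h1
  · -- the data of the earlier times
    have hp := pr_lt K hT
    have hact : ∀ T' < T, Act (Iio γ) (K T') := fun T' hT' => (h T' hT').1
    have h0 : (x 0).ρ = 0 := (h 0 hT).2.2.2.2.2.2.1 rfl
    have hρ : ∀ T' < T, 0 < T' → (x T').ρ = (x (pr K T')).ρ + 1 := fun T' hT' h0' =>
      ((h T' hT').2.2.2.2.2.2.2 h0').2.2.2.1
    have hanti : ∀ T₁ T₂, T₁ ≤ T₂ → T₂ < T → (x T₂).b ⊆ (x T₁).b := by
      intro T₁ T₂ h12
      induction T₂, h12 using Nat.le_induction with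
      | base => exact fun _ => Subset.rfl
      | succ T₂ h12 ih =>
        intro h2T
        refine Subset.trans ?_ (ih (by omega))
        have h3 := ((h (T₂ + 1) h2T).2.2.2.2.2.2.2 (Nat.succ_pos _)).1
        rwa [Nat.add_sub_cancel] at h3
    -- the node
    obtain ⟨k, s, hks⟩ : ∃ k s, nd ((x (pr K T)).ρ + 1) = k :: s := by
      rcases hnd : nd ((x (pr K T)).ρ + 1) with _ | ⟨k, s⟩
      · exfalso
        have h1 := code_nd ((x (pr K T)).ρ + 1)
        rw [hnd, code_nil] at h1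
        omega
      · exact ⟨k, s, rfl⟩
    have hcs : code s ≤ (x (pr K T)).ρ := by
      have h1 := code_lt_cons k s
      rw [← hks, code_nd] at h1
      exact Nat.lt_succ_iff.1 h1
    obtain ⟨T', hanc, hT'⟩ := exists_anc_depth (K := K) (ρ := fun T => (x T).ρ) h0 T hρ hT hcs
    have hT'T : T' < T := hanc.1
    -- the new index
    have hT1 : T - 1 < T := by omega
    obtain ⟨m, hmb, hm⟩ := (h (T - 1) hT1).2.2.2.1.exists_gt (x (T - 1)).m
    -- the passage to `T`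
    obtain ⟨L, hL⟩ := qq_anc hanc
    have hLa : Act (Iio γ) L := by
      refine act_right (p := qq K T' * K T') ((act_qq fun T₁ h₁ => hact T₁ (h₁.trans hT'T)).mul
        (hact T' hT'T)) ?_
      rw [← hL]
      exact act_qq hact
    have hNF := (h T' hT'T).2.2.2.2.2.1.mul hLa
    rw [mul_assoc, ← hL] at hNF
    -- the indices
    obtain ⟨mm, hmm⟩ : ∃ mm : ℕ → ℕ, mm = fun j => if j = T then m else (x j).m := ⟨_, rfl⟩
    have hM : (↑((Finset.Ioc T' T).image mm) : Set ℕ) ⊆ (x T').b := by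
      intro c hc
      rw [Finset.mem_coe, Finset.mem_image] at hc
      obtain ⟨j, hj, rfl⟩ := hc
      rw [Finset.mem_Ioc] at hj
      have hj1 : (x (j - 1)).b ⊆ (x T').b := hanti T' (j - 1) (by omega) (by omega)
      rw [hmm]
      by_cases hjT : j = T
      · simp only [if_pos hjT]
        rw [hjT] at hj1
        exact hj1 hmb
      · simp only [if_neg hjT]
        exact hj1 ((h j (by omega)).2.2.2.2.2.2.2 (by omega)).2.2.1
    -- the bound of the entries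
    obtain ⟨q'', hq'', d, hd, τ', hτ', h3⟩ := hNF _ hM 1 (Act.one _)
      (((Finset.range T).biUnion fun T₁ => (x T₁).θ.toFinset).sup id + 1)
    have hdlt : ∀ T₁ < T, ∀ c ∈ (x T₁).θ, c < d := by
      intro T₁ h₁ c hc
      refine lt_of_lt_of_le (Nat.lt_succ_of_le ?_) hd
      exact Finset.le_sup (f := id) (Finset.mem_biUnion.2 ⟨T₁, Finset.mem_range.2 h₁,
        List.mem_toFinset.2 hc⟩)
    have hττ' : τ <:+ τ' :=
      ((h T' hT'T).2.1.trans (List.suffix_cons _ _)).trans hτ'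
    obtain ⟨q₁, hq₁, τ₁, hτ₁, b₁, hb₁, hb₁', h4⟩ := hdens (qq K T * q'')
      ((act_qq hact).mul hq'') τ' hττ' (x (T - 1)).b (h (T - 1) hT1).2.2.1
      (h (T - 1) hT1).2.2.2.1
    refine ⟨q'' * q₁, ⟨(x (pr K T)).ρ + 1, τ₁, b₁, m⟩, ?_⟩
    have hK' : ∀ T₁ < T, K T₁ = Function.update K T (q'' * q₁) T₁ := fun T₁ h₁ =>
      (Function.update_of_ne h₁.ne _ _).symm
    unfold SudPhi
    rw [← qq_congr hK', ← pr_congr hK', Function.update_self, Function.update_self,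
      Function.update_of_ne hp.ne, Function.update_of_ne hT1.ne]
    refine ⟨hq''.mul hq₁, hττ'.trans hτ₁, hb₁.trans (h (T - 1) hT1).2.2.1, hb₁',
      (h (T - 1) hT1).2.2.1 hmb, ?_, fun h' => absurd h' hT.ne', fun _ => ⟨hb₁, hm, hmb, rfl, ?_⟩⟩
    · have e : q * (qq K T * (q'' * q₁)) = q * (qq K T * q'') * q₁ := by
        simp only [mul_assoc]
      rw [e]
      exact h4
    · refine ⟨T', k, s, anc_congr hK' hanc, ?_, ?_, ⟨d, ?_, ?_⟩, ?_⟩
      · rw [Function.update_self]; exact hks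
      · rw [Function.update_of_ne hT'T.ne]; exact hT'
      · intro T₁ h₁
        rw [Function.update_of_ne h₁.ne]
        exact hdlt T₁ h₁
      · rw [Function.update_self, Function.update_of_ne hT'T.ne]
        exact hτ'.trans hτ₁
      · intro z hz j hj hjT
        rw [Function.update_self] at hz
        rw [← qq_congr hK', Function.update_self]
        have hz1 : (q₁ z) γ ∈ cyl τ' := by
          rw [hq₁.map (lt_irrefl γ)]
          exact mem_cyl_of_suffix hτ₁ hz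
        have h5 := h3 (q₁ z) hz1 (mm j) (Finset.mem_image.2 ⟨j, Finset.mem_Ioc.2 ⟨hj, hjT⟩, rfl⟩)
        rw [Hm.one_map, Hm.mul_map] at h5
        have h6 : (Function.update x T (⟨(x (pr K T)).ρ + 1, τ₁, b₁, m⟩ : SData) j).m = mm j := by
          rw [hmm]
          by_cases hj' : j = T
          · simp only [if_pos hj']
            rw [hj', Function.update_self]
          · simp only [if_neg hj']
            rw [Function.update_of_ne hj']
        rw [h6, Hm.mul_map]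
        exact h5

/-- module SUD.  Let `i`, `q`, `τ`, `b` be as in `nf_dichotomy`; choose `K T` and the data by
`exists_strategy`.  At `T = 0`: density (for `L = 1`, `τ`, `b`) gives `K 0`, `θ 0`, `b 0`; let `m 0`
be any element of `b`.  At `T > 0` choose first `m T ∈ b (T - 1)` larger than `m (T - 1)`; let
`ρ T = ρ (pr K T) + 1 > 0`, and let `nd (ρ T) = k :: s` (`nd n = []` only for `n = 0`).  The node
`s` has the smaller number `code s < ρ T`, and there is an ancestor `T'` of `T` with `ρ T' = code s`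
(the depths of the ancestors of `T` are exactly the numbers `< ρ T`: induction along
`pr`, `Anc.pr`; take a point `y` of the box of `T` and use `exists_vt`, `depth_vt`, `anc_vt` for the
sequence `K`, if convenient after extending it).
`NF f γ (q * (qq K T' * K T')) (θ T') (b T') i` holds, so `NF f γ (q * qq K T) (θ T') (b T') i` by
`qq_anc` (the factor acts on `Iio γ` by `act_of_anc` or `act_right`) and `NF.mul`.  Apply it to
`M = {m j | T' < j ≤ T}`, which is a subset of `b T'`, to `q' = 1` and to a number `k` larger than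
all entries of all `θ T₁` with `T₁ < T`: there are `q''`, `d ≥ k` and `τ' ⊇ d :: θ T'`.  Density (for
`L = qq K T * q''`, `τ'`, which is above `τ` since all `θ` are, and the infinite set
`b (T - 1)`) gives `q₁`, `θ T ⊇ τ'` and `b T`; let `K T = q'' * q₁`.  Since `q₁` acts on `Iio γ`, the
coordinate `γ` of `q₁ z` is that of `z` (`Act.map`). -/
theorem exists_suc_strategy {f : (I → ℕ → ℕ) → ℕ → Bool} (hf : Cont f) {γ : I}
    (hd : DepOn (Iic γ) f) (hP : P2 (Iio γ)) {a : Set ℕ} (ha : a.Infinite) :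
    ∃ (i : Bool) (q : Hm I) (K : ℕ → Hm I) (x : ℕ → SData), Act (Iio γ) q ∧
      (∀ T, Act (Iio γ) (K T)) ∧ (x 0).ρ = 0 ∧ (∀ T > 0, (x T).ρ = (x (pr K T)).ρ + 1) ∧
      (∀ T, (x T).m ∈ a) ∧ (∀ T, (x T).m < (x (T + 1)).m) ∧
      ∀ T > 0, ∃ (T' k : ℕ) (s : List ℕ), Anc K T' T ∧ nd (x T).ρ = k :: s ∧
        (x T').ρ = code s ∧ (∃ d, (∀ T₁ < T, ∀ c ∈ (x T₁).θ, c < d) ∧
          (d :: (x T').θ) <:+ (x T).θ) ∧
        ∀ z : I → ℕ → ℕ, z γ ∈ cyl (x T).θ → ∀ j, T' < j → j ≤ T →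
          f (q (qq K T (K T z))) (x j).m = i := by
  obtain ⟨i, q, hq, τ, b, hba, hbi, hdens⟩ := nf_dichotomy hf hd hP ha
  obtain ⟨K, x, hx⟩ := exists_strategy (X := SData) (Φ := SudPhi f γ q τ b i)
    (fun T K K' x x' hK hx h => sudPhi_congr hK hx h) (sud_step hbi hdens)
  refine ⟨i, q, K, x, hq, fun T => (hx T).1, (hx 0).2.2.2.2.2.2.1 rfl,
    fun T hT => ((hx T).2.2.2.2.2.2.2 hT).2.2.2.1, fun T => hba (hx T).2.2.2.2.1, fun T => ?_,
    fun T hT => ((hx T).2.2.2.2.2.2.2 hT).2.2.2.2⟩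
  have h1 := ((hx (T + 1)).2.2.2.2.2.2.2 (Nat.succ_pos T)).2.1
  rwa [Nat.add_sub_cancel] at h1

end Pool.Agent.ML45
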