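import Pool.Agent.ML45.PDef

/-!
# Adding an embedding at the coordinate `γ` (module SUT)
-/

namespace Pool.Agent.ML45

open Set
open Pool.Agent.SP45 (pre cyl pre_succ pre_zero length_pre pre_eq_iff mem_cyl mem_cyl_pre self_mem
  cyl_nil mem_cyl_cons cyl_nonempty cyl_anti)

variable {I : Type*} [LinearOrder I] 

/-- module SUT: an element of the monoid which acts as `H` below `γ`, by the given
embeddings `e y` at `γ`, and trivially above `γ` -/
theorem exists_top {γ : I} {H : Hm I} (hH : Act (Iio γ) H) {e : (I → ℕ → ℕ) → List ℕ → List ℕ}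
    (hemb : ∀ y, IsEmb (e y)) (hlow : DepOn (Iio γ) e) (hlc : ∀ s, Lc fun y => e y s)
    {C : Set I} (hC : C.Countable) (hC' : DepOn C e) :
    ∃ G : Hm I, Act (Iic γ) G ∧ (∀ δ < γ, ∀ z, G.a δ z = H.a δ z) ∧ ∀ z, G.a γ z = e z := by
  classical
  obtain ⟨C₁, hC₁, h1, h2⟩ := H.supp
  let b : I → (I → ℕ → ℕ) → List ℕ → List ℕ := fun δ z =>
    if δ < γ then H.a δ z else if δ = γ then e z else id
  have blt : ∀ {δ : I}, δ < γ → ∀ z, b δ z = H.a δ z := fun h z => if_pos h
  have beq : ∀ z, b γ z = e z := fun z => by
    show (if γ < γ then H.a γ z else if γ = γ then e z else id) = e z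
    rw [if_neg (lt_irrefl γ), if_pos rfl]
  have bgt : ∀ {δ : I}, γ < δ → ∀ z, b δ z = id := fun {δ} h z => by
    show (if δ < γ then H.a δ z else if δ = γ then e z else id) = id
    rw [if_neg (not_lt.2 h.le), if_neg h.ne']
  let G : Hm I :=
    { a := b
      emb := fun δ z => by
        rcases lt_trichotomy δ γ with h | h | h
        · rw [blt h]; exact H.emb δ z
        · rw [h, beq]; exact hemb z
        · rw [bgt h]; exact IsEmb.id
      low := fun δ z z' hz => by
        rcases lt_trichotomy δ γ with h | h | h
        · rw [blt h, blt h]; exact H.low δ z z' hz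
        · subst h
          rw [beq, beq]; exact hlow z z' fun δ' hδ' => hz δ' hδ'
        · rw [bgt h, bgt h]
      lc := fun δ s => by
        rcases lt_trichotomy δ γ with h | h | h
        · intro z
          obtain ⟨T, n, hT⟩ := H.lc δ s z
          refine ⟨T, n, fun z' hz' => ?_⟩
          have := hT z' hz'
          beta_reduce at this ⊢
          rw [blt h, blt h, this]
        · subst h
          intro z
          obtain ⟨T, n, hT⟩ := hlc s z
          refine ⟨T, n, fun z' hz' => ?_⟩
          have := hT z' hz'
          beta_reduce at this ⊢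
          rw [beq, beq, this]
        · intro z
          refine ⟨∅, 0, fun z' _ => ?_⟩
          beta_reduce
          rw [bgt h, bgt h]
      supp := by
        refine ⟨C₁ ∪ C ∪ {γ}, (hC₁.union hC).union (countable_singleton γ), fun δ hδ z => ?_,
          fun δ z z' hz => ?_⟩
        · rcases lt_trichotomy δ γ with h | h | h
          · rw [blt h]; exact h1 δ (fun h' => hδ (Or.inl (Or.inl h'))) z
          · exact absurd (Or.inr h) hδ
          · rw [bgt h]
        · rcases lt_trichotomy δ γ with h | h | h
          · rw [blt h, blt h]; exact h2 δ z z' fun δ' hδ' => hz δ' (Or.inl (Or.inl hδ'))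
          · subst h
            rw [beq, beq]; exact hC' z z' fun δ' hδ' => hz δ' (Or.inl (Or.inr hδ'))
          · rw [bgt h, bgt h] }
  exact ⟨G, fun δ hδ z => bgt (not_le.1 hδ) z, fun δ hδ z => blt hδ z, fun z => beq z⟩

end Pool.Agent.ML45
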