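import Pool.Agent.ML45.PSuc3
import Pool.Agent.ML45.PTop

/-!
# The successor case: the embedding (module SUE)
-/

namespace Pool.Agent.ML45

open Set
open Pool.Agent.SP45 (pre cyl pre_succ pre_zero length_pre pre_eq_iff mem_cyl mem_cyl_pre self_mem
  cyl_nil mem_cyl_cons cyl_nonempty cyl_anti)

variable {I : Type*} [LinearOrder I] [WellFoundedLT I]

omit [LinearOrder I] [WellFoundedLT I] in
/-- the box of the time `T` is determined by finitely many coordinates below `γ` -/
theorem mem_box_of_agr {t : Nd I} {z z' : I → ℕ → ℕ} (h : z ∈ Box t)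
    (h' : ∀ δ, t δ ≠ [] → pre (z' δ) (t δ).length = pre (z δ) (t δ).length) : z' ∈ Box t := by
  intro δ
  by_cases h1 : t δ = []
  · rw [h1, cyl_nil]; trivial
  · rw [mem_cyl, h' δ h1]
    exact mem_cyl.1 (h δ)

/-- the embeddings given by the data of the strategy -/
noncomputable def ee (K : ℕ → Hm I) (x : ℕ → SData) (y : I → ℕ → ℕ) (s : List ℕ) : List ℕ :=
  (x (vt K y (code s))).θ

theorem ee_congr {K : ℕ → Hm I} {x : ℕ → SData} {y y' : I → ℕ → ℕ} {s : List ℕ}
    (h : y' ∈ Box (tt K (vt K y (code s)))) : ee K x y' s = ee K x y s := by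
  rw [ee, ee, vt_congr h]

theorem ee_low {K : ℕ → Hm I} {x : ℕ → SData} {D : Set I} (hK : ∀ T, Act D (K T)) :
    DepOn D (ee K x) := by
  intro y y' h
  funext s
  refine (ee_congr (mem_box_of_agr (vt_mem K y (code s)) fun δ hδ => ?_)).symm
  have h1 : δ ∈ D := by
    by_contra h2
    exact hδ (suppIn_tt (fun T' _ => hK T') δ h2)
  rw [h δ h1]

theorem ee_lc {K : ℕ → Hm I} {x : ℕ → SData} (s : List ℕ) : Lc fun y => ee K x y s := by
  classical
  intro z
  refine ⟨(tt K (vt K z (code s))).fin.toFinset, (tt K (vt K z (code s))).fin.toFinset.sup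
    fun δ => (tt K (vt K z (code s)) δ).length, fun z' hz' => ?_⟩
  refine ee_congr (mem_box_of_agr (vt_mem K z (code s)) fun δ hδ => ?_)
  have h1 : δ ∈ (tt K (vt K z (code s))).fin.toFinset :=
    (tt K (vt K z (code s))).fin.mem_toFinset.2 hδ
  exact pre_eq_of_le (Finset.le_sup (f := fun δ => (tt K (vt K z (code s)) δ).length) h1)
    (hz' δ h1)

theorem ee_ctb {K : ℕ → Hm I} {x : ℕ → SData} :
    ∃ C : Set I, C.Countable ∧ DepOn C (ee K x) := by
  refine ⟨⋃ T, {δ | tt K T δ ≠ []}, countable_iUnion fun T => (tt K T).fin.countable, ?_⟩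
  intro y y' h
  funext s
  refine (ee_congr (mem_box_of_agr (vt_mem K y (code s)) fun δ hδ => ?_)).symm
  rw [h δ (mem_iUnion.2 ⟨_, hδ⟩)]

/-- module SUE: the successor case of the preservation theorem.
Take the data of `exists_suc_strategy`, and the fusion `H` of `K` (`exists_fus`).  For a point `y`
let `e y s = (x (vt K y (code s))).θ`.  By `depth_vt` the depth at the time `vt K y (code s)` is
`code s`.  It is an embedding: let `s` be given, and let `T = vt K y (code (k :: s))` (`> 0`); the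
ancestor `T'` in `exists_suc_strategy` has a box which contains `y` and `ρ T' = code s`, so
`T' = vt K y (code s)` (`exists_vt`, `depth_vt`), and `d k :: θ T' <:+ θ T`; here
`nd (code (k :: s)) = k :: s` (`nd_code`).  For `k < l`, `code (k :: s) < code (l :: s)`
(`code_lt_sibling`), so the time for `k` is smaller than the one for `l`; since `d k ∈ θ T` it is
smaller than `d l`.  `e` is locally constant and depends on the active coordinates below `γ`
(`vt_congr`, `suppIn_tt`), so `exists_top` gives `G`.  Let `K = q * G` and `b = {(x j).m | j ≥ 1}`.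
Let `z` and `j ≥ 1` be given, `y = z`, `xx = z γ`.  The times `vt K y (code (pre xx n))` increase
with `n`, from `0` for `n = 0`; let `n` be such that `T' < j ≤ T` for
`T' = vt K y (code (pre xx n))`, `T = vt K y (code (pre xx (n + 1)))`.  The point `G z`
agrees with `H y = qq K T (K T (R w))` below `γ`, where `y = E (tt K T) w`, and its coordinate `γ`
is in `cyl (e y (pre xx (n + 1))) = cyl (x T).θ` (`lift_mem`).  So `G z` agrees on `Iic γ` with
`qq K T (K T v)`, where `v δ = R w δ` for `δ < γ` and `v δ = G z δ` for `δ ≥ γ` (`map_glue`), and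
`f (q (G z)) (x j).m = i`. -/
theorem p2_succ {f : (I → ℕ → ℕ) → ℕ → Bool} (hf : Cont f) {γ : I}
    (hd : DepOn (Iic γ) f) (hP : P2 (Iio γ)) {a : Set ℕ} (ha : a.Infinite) :
    ∃ K, Act (Iic γ) K ∧ ∃ b ⊆ a, b.Infinite ∧ ∃ i, ∀ z, ∀ m ∈ b, f (K z) m = i := by
  obtain ⟨i, q, K, x, hq, hK, hρ0, hρ, hma, hmono, hT⟩ := exists_suc_strategy hf hd hP ha
  obtain ⟨H, hH, hHR⟩ := exists_fus K hK
  have hdep : ∀ y r, (x (vt K y r)).ρ = r := fun y r =>
    depth_vt (ρ := fun T => (x T).ρ) hρ0 hρ y r
  -- the passage to a child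
  have key : ∀ y k s, ∃ d, (∀ T₁ < vt K y (code (k :: s)), ∀ c ∈ (x T₁).θ, c < d) ∧
      (d :: ee K x y s) <:+ ee K x y (k :: s) ∧
      ∀ z : I → ℕ → ℕ, z γ ∈ cyl (ee K x y (k :: s)) → ∀ j, vt K y (code s) < j →
        j ≤ vt K y (code (k :: s)) →
        f (q (qq K (vt K y (code (k :: s))) (K (vt K y (code (k :: s))) z))) (x j).m = i := by
    intro y k s
    have h0 : 0 < vt K y (code (k :: s)) := by
      have h1 := vt_strictMono K y (show 0 < code (k :: s) by rw [code_cons]; exact Nat.succ_pos _)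
      rwa [vt_zero] at h1
    obtain ⟨T', k', s', hanc, hnd, hρ', ⟨d, hd1, hd2⟩, hval⟩ := hT _ h0
    rw [hdep, nd_code] at hnd
    obtain ⟨rfl, rfl⟩ := List.cons.inj hnd
    have hT' : T' = vt K y (code s) := by
      obtain ⟨r, hr⟩ := exists_vt (box_of_anc hanc (vt_mem K y (code (k :: s))))
      rw [hr, hdep] at hρ'
      rw [hr, hρ']
    subst hT'
    exact ⟨d, hd1, hd2, hval⟩
  have hemb : ∀ y, IsEmb (ee K x y) := by
    intro y s
    choose d hd1 hd2 _ using fun k => key y k s
    refine ⟨d, fun k l hkl => ?_, hd2⟩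
    refine hd1 l _ (vt_strictMono K y (code_lt_sibling hkl s)) (d k) ?_
    exact (hd2 k).subset List.mem_cons_self
  obtain ⟨C, hC, hC'⟩ := ee_ctb (K := K) (x := x)
  obtain ⟨G, hG, hG1, hG2⟩ := exists_top hH hemb (ee_low hK) ee_lc hC hC'
  have hxm : StrictMono fun j => (x j).m := strictMono_nat_of_lt_succ hmono
  refine ⟨q * G, (hq.mono Iio_subset_Iic_self).mul hG, {m | ∃ j, 0 < j ∧ (x j).m = m}, ?_, ?_, i,
    ?_⟩
  · rintro m ⟨j, _, rfl⟩
    exact hma j
  · refine Set.infinite_of_injective_forall_mem (f := fun j => (x (j + 1)).m) ?_ ?_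
    · intro j j' h
      have := hxm.injective h
      omega
    · exact fun j => ⟨j + 1, Nat.succ_pos j, rfl⟩
  · rintro z m ⟨j, hj, rfl⟩
    rw [Hm.mul_map]
    -- the visits given by the initial segments of the coordinate `γ`
    have ht : ∀ n, vt K z (code (pre (z γ) n)) < vt K z (code (pre (z γ) (n + 1))) := by
      intro n
      rw [pre_succ]
      exact vt_strictMono K z (code_lt_cons _ _)
    have hge : ∀ n, n ≤ vt K z (code (pre (z γ) n)) := by
      intro n
      induction n with
      | zero => exact Nat.zero_le _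
      | succ n ih => exact Nat.succ_le_of_lt (ih.trans_lt (ht n))
    obtain ⟨n, hn1, hn2⟩ : ∃ n, vt K z (code (pre (z γ) n)) < j ∧
        j ≤ vt K z (code (pre (z γ) (n + 1))) := by
      classical
      have hex : ∃ n, j ≤ vt K z (code (pre (z γ) n)) := ⟨j, hge j⟩
      have h1 := Nat.find_spec hex
      have h2 : Nat.find hex ≠ 0 := by
        intro h3
        rw [h3, pre_zero, code_nil, vt_zero] at h1
        omega
      obtain ⟨n, hn⟩ := Nat.exists_eq_succ_of_ne_zero h2
      refine ⟨n, ?_, by rw [hn] at h1; exact h1⟩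
      exact not_le.1 (Nat.find_min hex (by rw [hn]; exact Nat.lt_succ_self n))
    obtain ⟨d, _, _, hval⟩ := key z (z γ n) (pre (z γ) n)
    have hGe : G z γ ∈ cyl (ee K x z (z γ n :: pre (z γ) n)) := by
      rw [Hm.map_apply, hG2]
      exact lift_mem (hemb z) (z γ) (n + 1)
    obtain ⟨R, hR, _⟩ := hHR (vt K z (code (z γ n :: pre (z γ) n)))
    have hz : z ∈ Box (tt K (vt K z (code (z γ n :: pre (z γ) n)))) := vt_mem K z _
    have hLv : G z = qq K (vt K z (code (z γ n :: pre (z γ) n)))
        (K (vt K z (code (z γ n :: pre (z γ) n)))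
          (glue γ (R (dr (tt K (vt K z (code (z γ n :: pre (z γ) n)))) z)) (G z))) := by
      rw [← Hm.mul_map, map_glue ((act_qq fun T' _ => hK T').mul (hK _)), ← Hm.mul_map, ← hR,
        Hm.mul_map, E_dr hz]
      funext δ
      rcases lt_or_ge δ γ with h | h
      · rw [glue_lt h, Hm.map_apply, Hm.map_apply, hG1 δ h]
      · rw [glue_ge h]
    rw [hLv]
    exact hval _ (by rw [glue_ge le_rfl]; exact hGe) j hn1 hn2

end Pool.Agent.ML45
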