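import Pool.Agent.ML45.PLim2
import Pool.Agent.ML45.PSuc4

/-!
# The preservation theorem
-/

namespace Pool.Agent.ML45

open Set

variable {I : Type*} [LinearOrder I] [WellFoundedLT I]

theorem p2_step {D : Set I} (hD : IsLowerSet D) (h : ∀ γ ∈ D, P2 (Iio γ)) : P2 D := by
  rintro f hf ⟨C, hCD, hC, hd⟩ a ha
  by_cases hne : C.Nonempty
  · by_cases hmax : ∀ β ∈ C, ∃ β' ∈ C, β < β'
    · obtain ⟨K, hK, h1⟩ := p2_limit hf hC hne hd hmax (fun β hβ => h β (hCD hβ)) ha
      refine ⟨K, hK.mono ?_, h1⟩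
      rintro γ ⟨δ, hδ, hγ⟩
      exact hD hγ (hCD hδ)
    · push Not at hmax
      obtain ⟨γ, hγ, hmax⟩ := hmax
      obtain ⟨K, hK, h1⟩ := p2_succ hf (hd.mono fun δ hδ => hmax δ hδ) (h γ (hCD hγ)) ha
      exact ⟨K, hK.mono fun δ hδ => hD (mem_Iic.1 hδ) (hCD hγ), h1⟩
  · -- a constant function
    have h0 : ∀ z z', f z = f z' := fun z z' => hd z z' fun δ hδ => absurd ⟨δ, hδ⟩ hne
    let z₀ : I → ℕ → ℕ := fun _ _ => 0
    by_cases h1 : (a ∩ {m | f z₀ m = true}).Infinite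
    · exact ⟨1, Act.one D, _, inter_subset_left, h1, true, fun z m hm => by
        rw [h0 _ z₀]; exact hm.2⟩
    · refine ⟨1, Act.one D, a ∩ {m | f z₀ m = false}, inter_subset_left, fun h2 => ?_, false,
        fun z m hm => by rw [h0 _ z₀]; exact hm.2⟩
      refine ha (((not_infinite.1 h1).union h2).subset fun m hm => ?_)
      rcases hb : f z₀ m with _ | _
      · exact Or.inr ⟨hm, hb⟩
      · exact Or.inl ⟨hm, hb⟩

theorem p2_Iio (γ : I) : P2 (Iio γ) := by
  induction γ using WellFoundedLT.induction with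
  | ind γ ih => exact p2_step (isLowerSet_Iio γ) fun δ hδ => ih δ hδ

/-- **the preservation theorem** -/
theorem p2_of_lower {D : Set I} (hD : IsLowerSet D) : P2 D :=
  p2_step hD fun γ _ => p2_Iio γ

end Pool.Agent.ML45
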