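import Pool.Agent.ML45.Nms

/-!
# Continuous reading of names (module RDS)
-/

namespace Pool.Agent.ML45

open Classical Set Pool.Agent Pool.Agent.LadderTree Pool.Agent.Forcing Pool.Agent.MAx
open Pool.Agent.BVM (BSet UF eqv memv chk Congr le_of_uf Disc OPair FunOn op on onT)
open Pool.Agent.OG45 Pool.Agent.IN45
open Pool.Agent.SP45 (pre cyl pre_succ pre_zero length_pre pre_eq_iff mem_cyl mem_cyl_pre self_mem
  cyl_nil mem_cyl_cons cyl_nonempty cyl_anti)

variable {I : Type} [LinearOrder I] [WellFoundedLT I]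

/-- continuous reading.
By `exists_strategy` choose `K T` with data `(ρ T, c T) : ℕ × X` such that `ρ 0 = 0`,
`ρ T = ρ (pr K T) + 1` for `T > 0`, and `Fc (q * (qq K T * K T)) (S (ρ T) (c T))` (by `h`).
Let `f z n = c (vt K z n)`; it is continuous and depends on the countable set of active
coordinates (`vt_congr`, `suppIn_tt`), and `ρ (vt K z n) = n` (`depth_vt`).  Let `r = q * H` with
the fusion `H`.  Let `f (L z) n = x` for all `z`.  `Fc.dense`: let `r * L * M` be given.  Let
`y = L (M 0)` and `T = vt K y n`, so that `c T = x`, `ρ T = n`.  By `exists_near` (or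
`exists_near'` with `D = univ`) there are `u`, `A'` with `L * M * E u = E (tt K T) * A'`, so
`r * L * M * E u = q * (qq K T * K T) * (R * A')` forces `S n x`. -/
theorem exists_reads {X : Type} [Inhabited X] {S : ℕ → X → GG (Hm I) → Prop}
    (hS : ∀ n x, RpP (S n x)) {q : Hm I} (h : ∀ n, ∀ r ≤ q, ∃ s ≤ r, ∃ x, Fc s (S n x)) :
    ∃ L, ∃ f : (I → ℕ → ℕ) → ℕ → X, Cont f ∧ (∃ C : Set I, C.Countable ∧ DepOn C f) ∧
      Reads (q * L) f S := by
  obtain ⟨K, x, hx⟩ := exists_strategy (I := I) (X := ℕ × X)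
    (Φ := fun T K x => Fc (q * (qq K T * K T)) (S (x T).1 (x T).2) ∧ (T = 0 → (x T).1 = 0) ∧
      (0 < T → (x T).1 = (x (pr K T)).1 + 1)) (by
      intro T K K' x x' hK hx h
      have hK' : ∀ T' < T, K T' = K' T' := fun T' h' => hK T' h'.le
      rw [← hK T le_rfl, ← hx T le_rfl, ← qq_congr hK', ← pr_congr hK']
      refine ⟨h.1, h.2.1, fun hT => ?_⟩
      rw [← hx _ (pr_lt K hT).le]
      exact h.2.2 hT) (by
      intro T K x _
      obtain ⟨n, hn⟩ : ∃ n, n = if T = 0 then 0 else (x (pr K T)).1 + 1 := ⟨_, rfl⟩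
      obtain ⟨s, ⟨L, rfl⟩, c, hc⟩ := h n _ (mul_le q (qq K T))
      refine ⟨L, (n, c), ?_⟩
      have hK' : ∀ T' < T, Function.update K T L T' = K T' := fun T' hT' =>
        Function.update_of_ne hT'.ne _ _
      rw [qq_congr hK', pr_congr hK', Function.update_self, Function.update_self]
      refine ⟨?_, fun hT => ?_, fun hT => ?_⟩
      · rw [← mul_assoc]
        exact hc
      · show n = 0
        rw [hn, if_pos hT]
      · rw [Function.update_of_ne (pr_lt K hT).ne]
        show n = _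
        rw [hn, if_neg hT.ne'])
  have hdep : ∀ y r, (x (vt K y r)).1 = r := depth_vt (ρ := fun T => (x T).1) ((hx 0).2.1 rfl)
    (fun T hT => (hx T).2.2 hT)
  obtain ⟨H, _, hH'⟩ := exists_fus (D := univ) K fun T γ hγ => absurd trivial hγ
  refine ⟨H, fun y n => (x (vt K y n)).2, ?_, ⟨⋃ T, {δ | tt K T δ ≠ []}, ?_, ?_⟩, ?_⟩
  · intro n y
    obtain ⟨T, m, h⟩ := box_nbhd (vt_mem K y n)
    refine ⟨T, m, fun y' hy' => ?_⟩
    show (x (vt K y' n)).2 = (x (vt K y n)).2
    rw [vt_congr (h y' hy')]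
  · exact countable_iUnion fun T => (tt K T).fin.countable
  · intro y y' hy
    have h1 : ∀ T, (y ∈ Box (tt K T)) = (y' ∈ Box (tt K T)) := by
      intro T
      apply propext
      refine forall_congr' fun δ => ?_
      by_cases hδ : tt K T δ = []
      · rw [hδ, cyl_nil]
        exact Iff.rfl
      · rw [hy δ (mem_iUnion.2 ⟨T, hδ⟩)]
    have h2 : ∀ r, vt K y r = vt K y' r := by
      intro r
      unfold vt
      congr 1
      funext T
      exact h1 T
    funext n
    show (x (vt K y n)).2 = (x (vt K y' n)).2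
    rw [h2]
  · intro n c L hL
    refine Fc.dense (hS n c) ?_
    rintro _ ⟨M, rfl⟩
    obtain ⟨z₀, hz₀⟩ : ∃ z₀ : I → ℕ → ℕ, z₀ = fun _ _ => 0 := ⟨_, rfl⟩
    obtain ⟨y, hy⟩ : ∃ y, y = L (M z₀) := ⟨_, rfl⟩
    obtain ⟨T, hT⟩ : ∃ T, T = vt K y n := ⟨_, rfl⟩
    have hbox : (L * M) z₀ ∈ Box (tt K T) := by
      rw [Hm.mul_map, ← hy, hT]
      exact vt_mem K y n
    obtain ⟨u, A', hu1, _, _, _⟩ := exists_near' (D := univ) isLowerSet_univ
      (A := L * M) (fun γ hγ => absurd trivial hγ) (t := tt K T)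
      (fun γ hγ => absurd trivial hγ) hbox
    obtain ⟨R, hR1, _⟩ := hH' T
    refine ⟨q * H * L * M * E u, mul_le _ _, ?_⟩
    have e1 : q * H * L * M * E u = q * (qq K T * K T) * (R * A') := by
      calc q * H * L * M * E u = q * (H * (L * M * E u)) := by simp only [mul_assoc]
        _ = q * ((H * E (tt K T)) * A') := by
            rw [hu1]
            simp only [mul_assoc]
        _ = q * (qq K T * K T) * (R * A') := by
            rw [hR1]
            simp only [mul_assoc]
    rw [e1]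
    have h1 := ((hx T).1).mono (mul_le _ (R * A'))
    have h2 : (x T).1 = n := by rw [hT, hdep]
    have h3 : (x T).2 = c := by
      rw [hT, hy]
      exact hL (M z₀)
    rw [h2, h3] at h1
    exact h1

end Pool.Agent.ML45
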