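import Pool.Agent.ML45.Cap2
import Pool.Agent.ML45.Clo

/-!
# Reflection (module RFL)
-/

namespace Pool.Agent.ML45

open Classical Set Pool.Agent Pool.Agent.LadderTree Pool.Agent.Forcing Pool.Agent.MAx
open Pool.Agent.BVM (BSet UF eqv memv chk Congr le_of_uf Disc OPair FunOn op on onT)
open Pool.Agent.OG45 Pool.Agent.IN45
open Pool.Agent.SP45 (pre cyl pre_succ pre_zero length_pre pre_eq_iff mem_cyl mem_cyl_pre self_mem
  cyl_nil mem_cyl_cons cyl_nonempty cyl_anti)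

/-- countable sets of indices are bounded -/
private theorem bdd_countable {C : Set IM} (hC : C.Countable) : ∃ b, C ⊆ Iio b := by
  have h1 : Cardinal.mk C ≤ Cardinal.continuum :=
    (Cardinal.le_aleph0_iff_set_countable.2 hC).trans Cardinal.aleph0_le_continuum
  obtain ⟨b, hb⟩ := bdd_IM h1 (fun x => (x : IM))
  exact ⟨b, fun x hx => hb ⟨x, hx⟩⟩

/-- module RFL, reflection.  Let `Ψ p g` be, for `p ≤ q` and continuous `g` which depends on
countably many coordinates, an index above all elements of the countable set `C` of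
`exists_step` (`bdd_IM`), for a fixed choice of `L`, `ζ`, `h`, `e`, `C`; otherwise arbitrary.  Let
`α₀` be an index above the support of `q`, and `β` as in `exists_closure`.  If `p ≤ q` acts below
`β` then its support `spt p` is countable, so `p` acts below some `α < β`, and for `g` the same
holds; take the larger one of the two. -/
theorem exists_refl {Z : BSet (RO (Hm IM))} {q : Hm IM}
    (hU : Fc q fun F => Unb (In F) (nm F (onT ℕ)) (nm F Z)) :
    ∃ β, Act (Iio β) q ∧ Refl Z q β := by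
  -- the local step with a bound
  have key : ∀ (p : Hm IM) (g : (IM → ℕ → ℕ) → ℕ → ℕ), ∃ b : IM, p ≤ q → Cont g →
      ∃ L ζ h e, Step Z p g L ζ h e ∧ Act (Iio b) L ∧
        ∃ C ⊆ Iio b, C.Countable ∧ DepOn C h ∧ DepOn C e := by
    intro p g
    by_cases hp : p ≤ q ∧ Cont g
    · obtain ⟨L, ζ, h, e, h1, C, hC, h2, h3, h4⟩ := exists_step (hU.mono hp.1) hp.2
      obtain ⟨b, hb⟩ := bdd_countable hC
      exact ⟨b, fun _ _ => ⟨L, ζ, h, e, h1, h2.mono hb, C, hb, hC, h3, h4⟩⟩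
    · obtain ⟨b, -⟩ := bdd_countable (C := ∅) countable_empty
      exact ⟨b, fun h1 h2 => absurd ⟨h1, h2⟩ hp⟩
  choose Ψ hΨ using key
  obtain ⟨Cq, hCq, hq⟩ := Act.exists q
  obtain ⟨α₀, hα₀⟩ := bdd_countable hCq
  obtain ⟨β, h1, h2, h3⟩ := exists_closure Ψ α₀
  refine ⟨β, hq.mono fun x hx => lt_trans (hα₀ hx) h1, ?_⟩
  intro p hp hpβ g hg hCg
  obtain ⟨Cg, hCg1, hCg2, hCg3⟩ := hCg
  obtain ⟨Cp, hCp, hp2⟩ := Act.exists p
  have hact : Act (Cp ∩ Iio β) p := by
    intro γ hγ z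
    by_cases h4 : γ ∈ Cp
    · exact hpβ γ (fun h5 => hγ ⟨h4, h5⟩) z
    · exact hp2 γ h4 z
  obtain ⟨α₁, hα₁, h5⟩ := h2 (Cp ∩ Iio β) inter_subset_right (hCp.mono inter_subset_left)
  obtain ⟨α₂, hα₂, h6⟩ := h2 Cg hCg1 hCg2
  have h7 : Ψ p g < β := by
    rcases le_total α₁ α₂ with h8 | h8
    · exact h3 α₂ hα₂ p (hact.mono (h5.trans (Iio_subset_Iio h8))) g hg ⟨Cg, h6, hCg2, hCg3⟩
    · exact h3 α₁ hα₁ p (hact.mono h5) g hg ⟨Cg, h6.trans (Iio_subset_Iio h8), hCg2, hCg3⟩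
  obtain ⟨L, ζ, h, e, k1, k2, C, k3, k4, k5, k6⟩ := hΨ p g hp hg
  exact ⟨L, ζ, h, e, k1, k2.mono fun x hx => lt_trans hx h7, C,
    fun x hx => lt_trans (k3 hx) h7, k4, k5, k6⟩

end Pool.Agent.ML45
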