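import Pool.Agent.ML45.Fus
import Pool.Agent.ML45.Fact

/-!
# Fusion with automatic bookkeeping

The finite sets of active coordinates are given by enumerations of the supports of the elements
chosen so far.
-/

namespace Pool.Agent.ML45

open Set
open Pool.Agent.SP45 (pre cyl pre_succ pre_zero length_pre pre_eq_iff mem_cyl mem_cyl_pre self_mem
  cyl_nil mem_cyl_cons cyl_nonempty cyl_anti)

/-! ### dependent choice -/

theorem exists_seq_of_step {X : Type*} [Inhabited X] {Φ : ℕ → (ℕ → X) → Prop}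
    (hloc : ∀ n f g, (∀ m ≤ n, f m = g m) → Φ n f → Φ n g)
    (hstep : ∀ n f, (∀ m < n, Φ m f) → ∃ x, Φ n (Function.update f n x)) :
    ∃ f, ∀ n, Φ n f := by
  classical
  -- approximations
  have h : ∀ n (f : ℕ → X), ∃ x, (∀ m < n, Φ m f) → Φ n (Function.update f n x) := by
    intro n f
    by_cases h : ∀ m < n, Φ m f
    · obtain ⟨x, hx⟩ := hstep n f h
      exact ⟨x, fun _ => hx⟩
    · exact ⟨default, fun h' => absurd h' h⟩
  choose c hc using h
  let g : ℕ → (ℕ → X) := fun n => Nat.rec (fun _ => default)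
    (fun n f => Function.update f n (c n f)) n
  have hg : ∀ n, g (n + 1) = Function.update (g n) n (c n (g n)) := fun n => rfl
  have hg1 : ∀ n m, m < n → g n m = g (m + 1) m := by
    intro n
    induction n with
    | zero => exact fun m hm => absurd hm (Nat.not_lt_zero m)
    | succ n ih =>
      intro m hm
      rcases Nat.lt_succ_iff_lt_or_eq.1 hm with h | h
      · rw [hg, Function.update_of_ne h.ne, ih m h]
      · rw [h]
  have hg2 : ∀ n, ∀ m < n, Φ m (g n) := by
    intro n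
    induction n with
    | zero => exact fun m hm => absurd hm (Nat.not_lt_zero m)
    | succ n ih =>
      intro m hm
      rcases Nat.lt_succ_iff_lt_or_eq.1 hm with h | h
      · refine hloc m (g n) _ (fun k hk => ?_) (ih m h)
        rw [hg, Function.update_of_ne (hk.trans_lt h).ne]
      · rw [h, hg]
        exact hc n (g n) ih
  refine ⟨fun n => g (n + 1) n, fun n => hloc n (g (n + 1)) _ (fun m hm => ?_)
    (hg2 (n + 1) n (Nat.lt_succ_self n))⟩
  exact hg1 (n + 1) m (Nat.lt_succ_of_le hm)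

/-! ### the active coordinates -/

section

variable {I : Type*} [LinearOrder I]

/-- the coordinates at which `K` acts -/
def spt (K : Hm I) : Set I := {γ | ∃ z, K.a γ z ≠ id}

theorem act_spt (K : Hm I) : Act (spt K) K := by
  intro γ hγ z
  by_contra h
  exact hγ ⟨z, h⟩

theorem spt_subset {D : Set I} {K : Hm I} (h : Act D K) : spt K ⊆ D := by
  rintro γ ⟨z, hz⟩
  by_contra hγ
  exact hz (h γ hγ z)

theorem act_right {D : Set I} {p L : Hm I} (hp : Act D p) (h : Act D (p * L)) : Act D L := by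
  intro γ hγ z
  have h6 := h γ hγ z
  rw [Hm.mul_a, hp γ hγ] at h6
  exact h6

theorem countable_spt (K : Hm I) : (spt K).Countable := by
  obtain ⟨C, hC, h⟩ := Act.exists K
  exact hC.mono (spt_subset h)

theorem exists_enS (K : Hm I) : ∃ e : ℕ → Option I, ∀ γ, γ ∈ spt K ↔ ∃ j, e j = some γ := by
  classical
  by_cases h : (spt K).Nonempty
  · obtain ⟨f, hf⟩ := (countable_spt K).exists_eq_range h
    exact ⟨fun j => some (f j), fun γ => by rw [hf]; simp⟩
  · exact ⟨fun _ => none, fun γ => ⟨fun h' => absurd ⟨γ, h'⟩ h, fun ⟨_, h⟩ => by simp at h⟩⟩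

/-- an enumeration of the support -/
noncomputable def enS (K : Hm I) : ℕ → Option I := (exists_enS K).choose

theorem enS_spec (K : Hm I) (γ : I) : γ ∈ spt K ↔ ∃ j, enS K j = some γ :=
  (exists_enS K).choose_spec γ

open Classical in
/-- the active coordinates -/
noncomputable def FF (K : ℕ → Hm I) (T : ℕ) : Finset I :=
  (Finset.range T).biUnion fun T' => (Finset.range T).biUnion fun j => (enS (K T') j).toFinset

theorem mem_FF {K : ℕ → Hm I} {T : ℕ} {γ : I} :
    γ ∈ FF K T ↔ ∃ T' < T, ∃ j < T, enS (K T') j = some γ := by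
  classical
  simp [FF]

theorem monotone_FF (K : ℕ → Hm I) : Monotone (FF K) := by
  intro T T' h γ hγ
  rw [mem_FF] at hγ ⊢
  obtain ⟨T1, h1, j, h2, h3⟩ := hγ
  exact ⟨T1, h1.trans_le h, j, h2.trans_le h, h3⟩

theorem swept_FF (K : ℕ → Hm I) : Swept (FF K) K := by
  intro T γ hγ z
  by_contra h
  obtain ⟨j, hj⟩ := (enS_spec (K T) γ).1 ⟨z, h⟩
  exact hγ ⟨max T j + 1, mem_FF.2 ⟨T, by omega, j, by omega, hj⟩⟩

theorem FF_subset {K : ℕ → Hm I} {D : Set I} {T : ℕ} (h : ∀ T' < T, Act D (K T')) :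
    ∀ γ ∈ FF K T, γ ∈ D := by
  intro γ hγ
  obtain ⟨T', hT', j, _, hj⟩ := mem_FF.1 hγ
  exact spt_subset (h T' hT') ((enS_spec _ _).2 ⟨j, hj⟩)

theorem FF_congr {K K' : ℕ → Hm I} {T : ℕ} (h : ∀ T' < T, K T' = K' T') : ∀ T' ≤ T,
    FF K T' = FF K' T' := by
  intro T' hT'
  ext γ
  rw [mem_FF, mem_FF]
  exact exists_congr fun T1 => and_congr_right fun h1 => by rw [h T1 (h1.trans_le hT')]

end

/-! ### fusion sequences -/

section

variable {I : Type*} [LinearOrder I] [WellFoundedLT I]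

/-- the nodes of the time `T` -/
noncomputable def tt (K : ℕ → Hm I) (T : ℕ) : Nd I := tN (FF K) T

/-- the element of the monoid of the time `T` -/
noncomputable def qq (K : ℕ → Hm I) (T : ℕ) : Hm I := pp (FF K) K T

/-- the parent of the time `T` -/
noncomputable def pr (K : ℕ → Hm I) (T : ℕ) : ℕ := par (FF K) T

theorem qq_zero (K : ℕ → Hm I) : qq K 0 = 1 := pp_zero

theorem tt_zero (K : ℕ → Hm I) (z : I → ℕ → ℕ) : z ∈ Box (tt K 0) := fun γ => by
  show z γ ∈ cyl (clk (FF K) γ 0)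
  rw [clk_zero, cyl_nil]; trivial

theorem qq_congr {K K' : ℕ → Hm I} {T : ℕ} (h : ∀ T' < T, K T' = K' T') : qq K T = qq K' T :=
  pp_congr (fun T' hT' => FF_congr h T' hT'.le) h

theorem tt_congr {K K' : ℕ → Hm I} {T : ℕ} (h : ∀ T' < T, K T' = K' T') : tt K T = tt K' T :=
  tN_congr fun T' hT' => FF_congr h T' hT'.le

theorem pr_congr {K K' : ℕ → Hm I} {T : ℕ} (h : ∀ T' < T, K T' = K' T') : pr K T = pr K' T :=
  par_congr fun T' hT' => FF_congr h T' hT'.le

theorem pr_lt (K : ℕ → Hm I) {T : ℕ} (hT : 0 < T) : pr K T < T := (par_spec (FF K) hT).1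

theorem suppIn_tt {K : ℕ → Hm I} {D : Set I} {T : ℕ} (h : ∀ T' < T, Act D (K T')) :
    SuppIn D (tt K T) := by
  intro γ hγ
  refine clk_eq_nil fun T' hT' h1 _ => hγ ?_
  exact FF_subset (fun T1 h2 => h T1 (h2.trans hT')) γ h1

theorem act_qq {K : ℕ → Hm I} {D : Set I} {T : ℕ} (h : ∀ T' < T, Act D (K T')) :
    Act D (qq K T) := by
  classical
  -- replace the later elements by `1`
  let K' : ℕ → Hm I := fun T' => if T' < T then K T' else 1
  have h1 : ∀ T' < T, K T' = K' T' := fun T' hT' => (if_pos hT').symm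
  have h2 : ∀ T', Act D (K' T') := by
    intro T'
    by_cases h3 : T' < T
    · rw [← h1 T' h3]; exact h T' h3
    · rw [show K' T' = 1 from if_neg h3]; exact Act.one D
  rw [qq_congr h1, qq, pp]
  exact (act_Tl h2 0 T).mul (act_E (suppIn_tt fun T' _ => h2 T'))

/-- the passage from the parent -/
theorem qq_pr (K : ℕ → Hm I) {T : ℕ} (hT : 0 < T) :
    ∃ L, qq K T = qq K (pr K T) * K (pr K T) * L ∧
      Act {γ | ∃ δ ∈ FF K (pr K T), γ ≤ δ} L :=
  exists_pp_par (monotone_FF K) hT

/-- the time `T'` is an ancestor of the time `T` -/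
def Anc (K : ℕ → Hm I) (T' T : ℕ) : Prop := T' < T ∧ ∀ γ, tt K T' γ <:+ tt K T γ

theorem box_of_anc {K : ℕ → Hm I} {T' T : ℕ} (h : Anc K T' T) : Box (tt K T) ⊆ Box (tt K T') :=
  fun _ hz γ => mem_cyl_of_suffix (h.2 γ) (hz γ)

theorem anc_of_box {K : ℕ → Hm I} {T' T : ℕ} (h : T' < T) {z : I → ℕ → ℕ}
    (hz : z ∈ Box (tt K T)) (hz' : z ∈ Box (tt K T')) : Anc K T' T :=
  ⟨h, fun γ => clk_suffix isLowerSet_univ h.le (mem_box.1 hz) (mem_box.1 hz') γ trivial⟩

theorem anc_pr (K : ℕ → Hm I) {T : ℕ} (hT : 0 < T) : Anc K (pr K T) T := par_spec (FF K) hT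

theorem Anc.trans {K : ℕ → Hm I} {T'' T' T : ℕ} (h : Anc K T'' T') (h' : Anc K T' T) :
    Anc K T'' T := ⟨h.1.trans h'.1, fun γ => (h.2 γ).trans (h'.2 γ)⟩

theorem Anc.le_pr {K : ℕ → Hm I} {T' T : ℕ} (h : Anc K T' T) : T' ≤ pr K T := by
  by_contra hcon
  exact not_box (F := FF K) (not_le.1 hcon) h.1 h.2

/-- ancestors are ancestors of the parent, or the parent -/
theorem Anc.pr {K : ℕ → Hm I} {T' T : ℕ} (h : Anc K T' T) : T' = pr K T ∨ Anc K T' (pr K T) := by
  rcases h.le_pr.eq_or_lt with h1 | h1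
  · exact Or.inl h1
  · right
    obtain ⟨z, hz⟩ : ∃ z, z ∈ Box (tt K T) := ⟨_, E_mem (tt K T) fun _ _ => 0⟩
    exact anc_of_box h1 (box_of_anc (anc_pr K (Nat.zero_lt_of_lt h.1)) hz) (box_of_anc h hz)

/-- the passage from an ancestor -/
theorem qq_anc {K : ℕ → Hm I} {T' T : ℕ} (h : Anc K T' T) : ∃ L, qq K T = qq K T' * K T' * L := by
  induction T using Nat.strong_induction_on with
  | _ T ih =>
    have hT : 0 < T := Nat.zero_lt_of_lt h.1
    obtain ⟨L, hL, _⟩ := qq_pr K hT
    rcases h.pr with h1 | h1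
    · exact ⟨L, by rw [hL, h1]⟩
    · obtain ⟨L', hL'⟩ := ih _ (pr_lt K hT) h1
      exact ⟨L' * K (pr K T) * L, by rw [hL, hL', mul_assoc, mul_assoc, mul_assoc, mul_assoc,
        mul_assoc]⟩

theorem act_of_anc {K : ℕ → Hm I} {D : Set I} (hD : ∀ T, Act D (K T)) {T' T : ℕ} {L : Hm I}
    (h : qq K T = qq K T' * K T' * L) : Act D L :=
  act_right (((act_qq fun T1 _ => hD T1).mul (hD T'))) (h ▸ act_qq fun T1 _ => hD T1)

/-- every point is in infinitely many boxes -/
theorem exists_box (K : ℕ → Hm I) (z : I → ℕ → ℕ) (N : ℕ) : ∃ T ≥ N, z ∈ Box (tt K T) := by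
  obtain ⟨T, hT, h⟩ := exists_lo (monotone_FF K) z univ N
  exact ⟨T, hT, mem_box.2 h⟩

/-- for each `j ≥ 1`, every point is in a box of a time `T ≥ j` whose parent is `< j` -/
theorem exists_box_pr (K : ℕ → Hm I) (z : I → ℕ → ℕ) {j : ℕ} (hj : 0 < j) :
    ∃ T ≥ j, z ∈ Box (tt K T) ∧ pr K T < j := by
  classical
  have h := exists_box K z j
  have h1 := Nat.find_spec h
  refine ⟨Nat.find h, h1.1, h1.2, ?_⟩
  by_contra hcon
  have h2 : 0 < Nat.find h := hj.trans_le h1.1
  exact Nat.find_min h (pr_lt K h2) ⟨not_lt.1 hcon, box_of_anc (anc_pr K h2) h1.2⟩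

/-- the fusion -/
theorem exists_fus (K : ℕ → Hm I) {D : Set I} (hD : ∀ T, Act D (K T)) :
    ∃ H, Act D H ∧ ∀ T, ∃ R, H * E (tt K T) = qq K T * K T * R ∧ Act D R := by
  obtain ⟨H, h1, h2⟩ := exists_fusion (monotone_FF K) (swept_FF K)
  have h3 : Act D H := h1.act fun n => act_Tl hD 0 n
  refine ⟨H, h3, fun T => ?_⟩
  obtain ⟨R, hR⟩ := h2 T
  refine ⟨R, hR, fun γ hγ z => ?_⟩
  have h4 : Act D (qq K T * K T) := (act_qq fun T' _ => hD T').mul (hD T)
  have h5 : Act D (qq K T * K T * R) := by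
    show Act D (pp (FF K) K T * K T * R)
    rw [← hR]
    exact h3.mul (act_E (suppIn_tt fun T' _ => hD T'))
  exact act_right h4 h5 γ hγ z

omit [WellFoundedLT I] in
/-- the strategy theorem: sequences of elements of the monoid, with further data in `X`, may be
chosen one after the other -/
theorem exists_strategy {X : Type*} [Inhabited X]
    {Φ : ℕ → (ℕ → Hm I) → (ℕ → X) → Prop}
    (hloc : ∀ T K K' x x', (∀ T' ≤ T, K T' = K' T') → (∀ T' ≤ T, x T' = x' T') → Φ T K x →
      Φ T K' x')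
    (hstep : ∀ T K x, (∀ T' < T, Φ T' K x) →
      ∃ k y, Φ T (Function.update K T k) (Function.update x T y)) :
    ∃ K x, ∀ T, Φ T K x := by
  have : Inhabited (Hm I) := ⟨1⟩
  obtain ⟨f, hf⟩ := exists_seq_of_step (X := Hm I × X)
    (Φ := fun T f => Φ T (fun n => (f n).1) fun n => (f n).2)
    (fun n f g h h' => hloc n _ _ _ _ (fun m hm => by rw [h m hm]) (fun m hm => by rw [h m hm]) h')
    (fun n f h => by
      obtain ⟨k, y, h1⟩ := hstep n _ _ h
      refine ⟨(k, y), ?_⟩
      have e1 : (fun m => (Function.update f n (k, y) m).1) =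
          Function.update (fun m => (f m).1) n k := by
        funext m
        by_cases hm : m = n
        · rw [hm, Function.update_self, Function.update_self]
        · rw [Function.update_of_ne hm, Function.update_of_ne hm]
      have e2 : (fun m => (Function.update f n (k, y) m).2) =
          Function.update (fun m => (f m).2) n y := by
        funext m
        by_cases hm : m = n
        · rw [hm, Function.update_self, Function.update_self]
        · rw [Function.update_of_ne hm, Function.update_of_ne hm]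
      rw [e1, e2]
      exact h1)
  exact ⟨_, _, hf⟩

end

end Pool.Agent.ML45
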